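import Pool.Agent.Helper92.GC.Defs

/-!
# Project GS (MP_fb29e9_nt): the Gaussian shell moment. Definitions and interface

Plan: /team-store/h76_GS_plan.md (and h64_shell.md). Base notation: `Pool.Agent.Helper92.GC` (`uu`, `tt`, `ph`, `dt`, `tp`, `m6`, `gs`, `near`, `IsMul`, ...), `ee` (AE.Defs), `n6`, `IsWt`, `mu` (AC.Defs).
All functions of `(c, R)` are FINITE sums of characters `ee (dt k c + R τ)`, `k ∈ ℤ²`, `τ ∈ ℝ`.
-/

open MeasureTheory Real Set Filter Topology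

set_option autoImplicit false

namespace Pool.Agent.Helper76.GS

open Pool.Agent.Helper22.AE
open Pool.Agent.Helper22.AC (n6 IsWt mu)
open Pool.Agent.Helper92.GC

/-- coefficients of an exponential polynomial in the variables `(c, R)`; the frequencies are `(k, τ)` -/
abbrev Xp : Type := ((ℤ × ℤ) × ℝ) →₀ ℂ

/-- the exponential polynomial -/
noncomputable def xp (a : Xp) (q : (ℝ × ℝ) × ℝ) : ℂ := a.sum fun x z => z * ee (dt x.1 q.1 + q.2 * x.2)

/-- the sum of the absolute values of the coefficients -/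
noncomputable def l1 (a : Xp) : ℝ := a.sum fun _ z => ‖z‖

/-- the product -/
noncomputable def mx (a b : Xp) : Xp := a.sum fun x z => b.sum fun y w => Finsupp.single (x + y) (z * w)

/-- the coefficients of the sum `gs S w f` -/
noncomputable def ofS (S : Finset (ℤ × ℤ)) (w : ℤ × ℤ → ℂ) (f : ℤ × ℤ → ℝ) : Xp :=
  ∑ k ∈ S, Finsupp.single (k, f k) (w k)

open Classical in
/-- the part with frequencies `k` satisfying `P` -/
noncomputable def res (P : ℤ × ℤ → Prop) (a : Xp) : Xp := a.filter fun x => P x.1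

/-- the slopes in `[-11/2, 11/2]` -/
def In5 (β : ℝ) (k : ℤ × ℤ) : Prop := |(k.2 : ℝ)| ≤ 11 / 2 * uu β k

/-- centre of the window number `i` of `N` windows of `[-6, 6)` -/
noncomputable def tc (N i : ℕ) : ℝ := -6 + 12 * ((i : ℝ) + 1 / 2) / N

open Classical in
/-- the finite frequency region -/
noncomputable def frq (β H ε : ℝ) : Finset (ℤ × ℤ) :=
  (box ⌈20 * H ^ (1 + ε)⌉₊).filter fun k => H ^ (1 - ε) ≤ uu β k ∧ uu β k ≤ H ^ (1 + ε) ∧ |(k.2 : ℝ)| ≤ 8 * uu β k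

/-- the weight of the window `[a, b)` with smoothing `σ` -/
noncomputable def wab (β H σ a b : ℝ) (p : ℕ) (k : ℤ × ℤ) : ℝ :=
  (uu β k / H) ^ p * exp (-(p * (uu β k / H))) * (1 / σ * ∫ t in a..b, exp (-(π * ((tt β k - t) / σ) ^ 2)))

/-- the window number `i` of `N` -/
noncomputable def Fw (β H ε σ : ℝ) (p N i : ℕ) : Xp :=
  ofS (frq β H ε) (fun k => ((wab β H σ (-6 + 12 * (i : ℝ) / N) (-6 + 12 * ((i : ℝ) + 1) / N) p k : ℝ) : ℂ)) (ph β)

/-- the frequencies of `a` are near the arc at `t₀` of width `s` of the cone, tolerance exponent `κ` -/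
def Win (β H κ t₀ s : ℝ) (a : Xp) : Prop := ∀ x ∈ a.support, H ^ (1 - κ) ≤ uu β x.1 ∧ uu β x.1 ≤ H ^ (1 + κ) ∧
  |tt β x.1 - t₀| ≤ H ^ κ * s ∧ |x.2 - ph β x.1| ≤ H ^ (1 + κ) * s ^ 2

/-- the frequencies of `b` are in the box dual to the plank of scale `s` at `t₀` -/
def Bx (β H κ t₀ s : ℝ) (b : Xp) : Prop := ∀ x ∈ b.support, |uu β x.1| ≤ H ^ (1 - κ) ∧
  |(x.1.2 : ℝ) - t₀ * uu β x.1| ≤ H ^ (1 - κ) * s ∧ |x.2 - (2 * t₀ * x.1.2 - t₀ ^ 2 * uu β x.1)| ≤ H ^ (1 - κ) * s ^ 2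

/-- `q'` is in the plank of radius `r` and scale `s` at `t₀` around `q` -/
def Plk (β t₀ r s : ℝ) (q q' : (ℝ × ℝ) × ℝ) : Prop :=
  |(q'.1.1 - q.1.1) + t₀ * ((q'.1.2 - q.1.2) - β * (q'.1.1 - q.1.1)) + t₀ ^ 2 * (q'.2 - q.2)| ≤ r ∧
  |((q'.1.2 - q.1.2) - β * (q'.1.1 - q.1.1)) + 2 * t₀ * (q'.2 - q.2)| ≤ r / s ∧ |q'.2 - q.2| ≤ r / s ^ 2

/-- the set contains three non collinear points -/
def Tri (U : Set (ℤ × ℤ)) : Prop := ∃ m ∈ U, ∃ m₁ ∈ U, ∃ m₂ ∈ U, dd (m₁ - m) (m₂ - m) ≠ 0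

end Pool.Agent.Helper76.GS
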