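import Pool.Agent.Helper76.GS.A1

/-!
# GS-B1: the windows are additive and small away from their arc

PROOFS. `wab_add`: `intervalIntegral.integral_add_adjacent_intervals` (the integrand is continuous). `Fw_split`: with `N ≥ 1`: `-6 + 12 i/N = -6 + 12 (2i)/(2N)` etc.; `ofS_add`. `Fw_sum`: sum over all `i < N`: window `[-6, 6)`
(`Finset.sum_range` induction, or `intervalIntegral.sum_integral_adjacent_intervals`).
`wab_nonneg`, `wab_le`: for `uu β k > 0`: `x^p e^(-p x) ≤ 1` for `x ≥ 0` (`x e^(-x) ≤ 1`), `1/σ ∫_{a}^{b} exp(-π((t-t')/σ)²) dt' ≤ 1` (Gaussian integral over `ℝ`).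
`Fw_l1`: `l1 ≤ card frq ≤ (2 ⌈20 H^(1+ε)⌉ + 1)² ≤ C H^(2+2ε) ≤ C H³`.
`Fw_far`: for `k ∈ frq` with `|tt - tc| > 2w`, `w = 12/N`: for `t'` in the window `|tt - t'| ≥ |tt - tc| - w/2 ≥ (3/2) w`, so `(1/σ) ∫ exp(..) ≤ (w/σ) exp(-π (3w/(2σ))²) ≤ C exp(-(w/σ)²)` (`y e^(-2y²) ≤ e^(-y²)`), and `w/σ ≥ H^ε`:
`exp(-H^(2ε)) ≤ C H^(-B-3)`; at most `C H³` frequencies.
-/

open MeasureTheory Real Set Filter Topology

set_option autoImplicit false

namespace Pool.Agent.Helper76.GS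

open Pool.Agent.Helper22.AE
open Pool.Agent.Helper22.AC (n6 IsWt mu)
open Pool.Agent.Helper92.GC

private theorem frq_mem75 {β H ε : ℝ} {k : ℤ × ℤ} (hk : k ∈ frq β H ε) :
    H ^ (1 - ε) ≤ uu β k ∧ uu β k ≤ H ^ (1 + ε) ∧ |(k.2 : ℝ)| ≤ 8 * uu β k :=
  (Finset.mem_filter.1 hk).2

private theorem frq_pos75 {β H ε : ℝ} {k : ℤ × ℤ} (hH : 0 < H) (hk : k ∈ frq β H ε) : 0 < uu β k :=
  (Real.rpow_pos_of_pos hH _).trans_le (frq_mem75 hk).1

theorem mem_frq {β H ε : ℝ} {k : ℤ × ℤ} (hβ : |β| ≤ 1 / 2) : k ∈ frq β H ε ↔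
    H ^ (1 - ε) ≤ uu β k ∧ uu β k ≤ H ^ (1 + ε) ∧ |(k.2 : ℝ)| ≤ 8 * uu β k := by
  refine ⟨frq_mem75, fun h => Finset.mem_filter.2 ⟨?_, h⟩⟩
  obtain ⟨-, h2, h3⟩ := h
  have hu : 0 ≤ uu β k := by
    have := abs_nonneg (k.2 : ℝ)
    linarith
  have hX : 0 ≤ H ^ (1 + ε) := hu.trans h2
  have h4 : |β * (k.2 : ℝ)| ≤ 4 * uu β k := by
    rw [abs_mul]
    have := mul_le_mul hβ h3 (abs_nonneg _) (by norm_num : (0 : ℝ) ≤ 1 / 2)
    linarith
  have h5 : |(k.1 : ℝ)| ≤ 5 * uu β k := by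
    have e : (k.1 : ℝ) = uu β k - β * (k.2 : ℝ) := by
      unfold uu
      ring
    rw [e]
    refine (abs_sub _ _).trans ?_
    rw [abs_of_nonneg hu]
    linarith
  have hc : 20 * H ^ (1 + ε) ≤ (⌈20 * H ^ (1 + ε)⌉₊ : ℝ) := Nat.le_ceil _
  have key : ∀ m : ℤ, |(m : ℝ)| ≤ 20 * H ^ (1 + ε) →
      m ∈ Finset.Icc (-(⌈20 * H ^ (1 + ε)⌉₊ : ℤ)) (⌈20 * H ^ (1 + ε)⌉₊ : ℤ) := by
    intro m hm
    have h6 := abs_le.1 (hm.trans hc)
    rw [Finset.mem_Icc]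
    constructor
    · have : ((-(⌈20 * H ^ (1 + ε)⌉₊ : ℤ) : ℤ) : ℝ) ≤ (m : ℝ) := by
        push_cast
        exact h6.1
      exact_mod_cast this
    · have : (m : ℝ) ≤ (((⌈20 * H ^ (1 + ε)⌉₊ : ℤ)) : ℝ) := by
        push_cast
        exact h6.2
      exact_mod_cast this
  rw [box, Finset.mem_product]
  exact ⟨key _ (by linarith), key _ (by linarith)⟩

theorem frq_card {β H ε : ℝ} (hH : 1 ≤ H) (hε : 0 < ε) (hε1 : ε ≤ 1 / 4) : ((frq β H ε).card : ℝ) ≤ 10 ^ 4 * H ^ 3 := by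
  have hH0 : 0 < H := by linarith
  set X : ℝ := H ^ (1 + ε) with hX
  have hX1 : 1 ≤ X := Real.one_le_rpow hH (by linarith)
  have h1 : (frq β H ε).card ≤ (box ⌈20 * X⌉₊).card := Finset.card_filter_le _ _
  have h2 : (box ⌈20 * X⌉₊).card = (2 * ⌈20 * X⌉₊ + 1) ^ 2 := by
    rw [box, Finset.card_product, Int.card_Icc]
    have : ((⌈20 * X⌉₊ : ℤ) + 1 - -(⌈20 * X⌉₊ : ℤ)).toNat = 2 * ⌈20 * X⌉₊ + 1 := by
      generalize ⌈20 * X⌉₊ = m
      omega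
    rw [this, sq]
  have h3 : (⌈20 * X⌉₊ : ℝ) ≤ 20 * X + 1 := (Nat.ceil_lt_add_one (by linarith)).le
  have h4 : ((frq β H ε).card : ℝ) ≤ (2 * (⌈20 * X⌉₊ : ℝ) + 1) ^ 2 := by
    rw [h2] at h1
    exact_mod_cast h1
  have h5 : (2 * (⌈20 * X⌉₊ : ℝ) + 1) ^ 2 ≤ (43 * X) ^ 2 := by
    refine pow_le_pow_left₀ (by positivity) ?_ 2
    linarith
  have h6 : X ^ 2 ≤ H ^ 3 := by
    rw [hX, ← Real.rpow_natCast (H ^ (1 + ε)) 2, ← Real.rpow_mul hH0.le, ← Real.rpow_natCast H 3]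
    refine Real.rpow_le_rpow_of_exponent_le hH ?_
    push_cast
    linarith
  have h7 : (43 * X) ^ 2 = 1849 * X ^ 2 := by ring
  have h8 : 0 ≤ X ^ 2 := sq_nonneg X
  rw [h7] at h5
  linarith

private theorem gcont75 (β σ : ℝ) (k : ℤ × ℤ) :
    Continuous fun t : ℝ => exp (-(π * ((tt β k - t) / σ) ^ 2)) := by
  fun_prop

theorem wab_add (β H σ a b c : ℝ) (p : ℕ) (k : ℤ × ℤ) : wab β H σ a b p k + wab β H σ b c p k = wab β H σ a c p k := by
  have h := intervalIntegral.integral_add_adjacent_intervals (μ := volume)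
    ((gcont75 β σ k).intervalIntegrable a b) ((gcont75 β σ k).intervalIntegrable b c)
  unfold wab
  rw [← h]
  ring

private theorem core75 {x : ℝ} (hx : 0 ≤ x) (p : ℕ) :
    0 ≤ x ^ p * exp (-(p * x)) ∧ x ^ p * exp (-(p * x)) ≤ 1 := by
  refine ⟨by positivity, ?_⟩
  have e : x ^ p * exp (-(p * x)) = (x * exp (-x)) ^ p := by
    rw [show -((p : ℝ) * x) = p * (-x) by ring, Real.exp_nat_mul, mul_pow]
  rw [e]
  refine pow_le_one₀ (by positivity) ?_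
  rw [Real.exp_neg, ← div_eq_mul_inv, div_le_one (Real.exp_pos x)]
  linarith [Real.add_one_le_exp x]

private theorem gint75 {σ : ℝ} (hσ : 0 < σ) (τ : ℝ) :
    Integrable (fun t : ℝ => exp (-(π * ((τ - t) / σ) ^ 2))) ∧
      ∫ t : ℝ, exp (-(π * ((τ - t) / σ) ^ 2)) = σ := by
  have hb : 0 < π / σ ^ 2 := by positivity
  have e : (fun t : ℝ => exp (-(π * ((τ - t) / σ) ^ 2))) =
      fun t : ℝ => exp (-(π / σ ^ 2) * (τ - t) ^ 2) := by
    funext t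
    congr 1
    rw [div_pow]
    ring
  rw [e]
  refine ⟨(integrable_exp_neg_mul_sq hb).comp_sub_left τ, ?_⟩
  rw [integral_sub_left_eq_self (fun x : ℝ => exp (-(π / σ ^ 2) * x ^ 2)) volume τ,
    integral_gaussian]
  have h1 : π / (π / σ ^ 2) = σ ^ 2 := by
    field_simp
  rw [h1, Real.sqrt_sq hσ.le]

theorem wab_nonneg {β H σ a b : ℝ} {p : ℕ} {k : ℤ × ℤ} (hH : 0 < H) (hσ : 0 < σ) (hab : a ≤ b) (hk : 0 < uu β k) :
    0 ≤ wab β H σ a b p k := by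
  have h1 := (core75 (div_nonneg hk.le hH.le) p).1
  have h2 : 0 ≤ ∫ t in a..b, exp (-(π * ((tt β k - t) / σ) ^ 2)) :=
    intervalIntegral.integral_nonneg hab fun t _ => (Real.exp_pos _).le
  unfold wab
  exact mul_nonneg h1 (mul_nonneg (by positivity) h2)

theorem wab_le {β H σ a b : ℝ} {p : ℕ} {k : ℤ × ℤ} (hH : 0 < H) (hσ : 0 < σ) (hab : a ≤ b) (hk : 0 < uu β k) :
    wab β H σ a b p k ≤ 1 := by
  have h1 := core75 (div_nonneg hk.le hH.le) p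
  obtain ⟨h2, h3⟩ := gint75 hσ (tt β k)
  have h4 : ∫ t in a..b, exp (-(π * ((tt β k - t) / σ) ^ 2)) ≤ σ := by
    rw [intervalIntegral.integral_of_le hab]
    refine le_trans ?_ h3.le
    exact setIntegral_le_integral h2 (Filter.Eventually.of_forall fun t => (Real.exp_pos _).le)
  have h5 : 0 ≤ ∫ t in a..b, exp (-(π * ((tt β k - t) / σ) ^ 2)) :=
    intervalIntegral.integral_nonneg hab fun t _ => (Real.exp_pos _).le
  have h6 : 1 / σ * ∫ t in a..b, exp (-(π * ((tt β k - t) / σ) ^ 2)) ≤ 1 := by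
    rw [one_div, inv_mul_le_iff₀ hσ, mul_one]
    exact h4
  unfold wab
  calc _ ≤ 1 * 1 := mul_le_mul h1.2 h6 (mul_nonneg (by positivity) h5) (by norm_num)
    _ = 1 := one_mul 1

private theorem Fw_eq75 (β H ε σ : ℝ) (p N i : ℕ) {a b : ℝ} (ha : -6 + 12 * (i : ℝ) / N = a)
    (hb : -6 + 12 * ((i : ℝ) + 1) / N = b) :
    Fw β H ε σ p N i = ofS (frq β H ε) (fun k => ((wab β H σ a b p k : ℝ) : ℂ)) (ph β) := by
  rw [Fw, ha, hb]

private theorem of_add75 (β H ε σ a b c : ℝ) (p : ℕ) :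
    ofS (frq β H ε) (fun k => ((wab β H σ a b p k : ℝ) : ℂ)) (ph β) +
      ofS (frq β H ε) (fun k => ((wab β H σ b c p k : ℝ) : ℂ)) (ph β) =
      ofS (frq β H ε) (fun k => ((wab β H σ a c p k : ℝ) : ℂ)) (ph β) := by
  rw [← ofS_add]
  congr 1
  funext k
  rw [← Complex.ofReal_add, wab_add]

theorem Fw_split (β H ε σ : ℝ) (p : ℕ) {N : ℕ} (hN : 1 ≤ N) (i : ℕ) :
    Fw β H ε σ p N i = Fw β H ε σ p (2 * N) (2 * i) + Fw β H ε σ p (2 * N) (2 * i + 1) := by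
  have hN0 : (N : ℝ) ≠ 0 := by
    have : (1 : ℝ) ≤ N := by exact_mod_cast hN
    intro h
    linarith
  rw [Fw_eq75 β H ε σ p N i rfl rfl,
    Fw_eq75 β H ε σ p (2 * N) (2 * i) (a := -6 + 12 * (i : ℝ) / N)
      (b := -6 + 12 * ((i : ℝ) + 1 / 2) / N) (by push_cast; field_simp)
      (by push_cast; field_simp),
    Fw_eq75 β H ε σ p (2 * N) (2 * i + 1) (a := -6 + 12 * ((i : ℝ) + 1 / 2) / N)
      (b := -6 + 12 * ((i : ℝ) + 1) / N) (by push_cast; field_simp)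
      (by push_cast; field_simp; ring), of_add75]

theorem Fw_sum (β H ε σ : ℝ) (p : ℕ) {N : ℕ} (hN : 1 ≤ N) : ∑ i ∈ Finset.range N, Fw β H ε σ p N i =
    ofS (frq β H ε) (fun k => ((wab β H σ (-6) 6 p k : ℝ) : ℂ)) (ph β) := by
  have hN0 : (N : ℝ) ≠ 0 := by
    have : (1 : ℝ) ≤ N := by exact_mod_cast hN
    intro h
    linarith
  have key : ∀ n : ℕ, ∑ i ∈ Finset.range n, Fw β H ε σ p N i =
      ofS (frq β H ε) (fun k => ((wab β H σ (-6) (-6 + 12 * (n : ℝ) / N) p k : ℝ) : ℂ)) (ph β) := by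
    intro n
    induction n with
    | zero =>
      rw [Finset.sum_range_zero]
      have e : (fun k => ((wab β H σ (-6) (-6 + 12 * ((0 : ℕ) : ℝ) / N) p k : ℝ) : ℂ)) =
          fun _ => 0 := by
        funext k
        have e1 : -6 + 12 * ((0 : ℕ) : ℝ) / N = -6 := by simp
        rw [e1]
        unfold wab
        rw [intervalIntegral.integral_same]
        simp
      rw [e]
      unfold ofS
      rw [Finset.sum_eq_zero]
      intro k _
      exact Finsupp.single_zero _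
    | succ n ih =>
      rw [Finset.sum_range_succ, ih, Fw_eq75 β H ε σ p N n (a := -6 + 12 * (n : ℝ) / N)
        (b := -6 + 12 * ((n + 1 : ℕ) : ℝ) / N) rfl (by push_cast; rfl), of_add75]
  rw [key N]
  have e : -6 + 12 * (N : ℝ) / N = 6 := by
    field_simp
    norm_num
  rw [e]

theorem Fw_supp {β H ε σ : ℝ} {p N i : ℕ} {x : (ℤ × ℤ) × ℝ} (h : x ∈ (Fw β H ε σ p N i).support) :
    x.1 ∈ frq β H ε ∧ x.2 = ph β x.1 := ofS_supp h

private theorem ab75 {N : ℕ} (hN : 1 ≤ N) (i : ℕ) :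
    (-6 + 12 * (i : ℝ) / N) ≤ -6 + 12 * ((i : ℝ) + 1) / N := by
  have h0 : (0 : ℝ) < N := by exact_mod_cast hN
  have : 12 * (i : ℝ) / N ≤ 12 * ((i : ℝ) + 1) / N := by
    refine div_le_div_of_nonneg_right ?_ h0.le
    linarith
  linarith

theorem Fw_l1 {ε : ℝ} (hε : 0 < ε) (hε1 : ε ≤ 1 / 4) {β H σ : ℝ} (hH : 1 ≤ H) (hσ : 0 < σ) (p : ℕ) {N : ℕ} (hN : 1 ≤ N) (i : ℕ) :
    l1 (Fw β H ε σ p N i) ≤ 10 ^ 4 * H ^ 3 := by
  have hH0 : 0 < H := by linarith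
  refine (l1_ofS_le _ _ _).trans (le_trans ?_ (frq_card (β := β) hH hε hε1))
  have h1 : ∀ k ∈ frq β H ε, ‖((wab β H σ (-6 + 12 * (i : ℝ) / N) (-6 + 12 * ((i : ℝ) + 1) / N) p k : ℝ) : ℂ)‖ ≤ 1 := by
    intro k hk
    have hu := frq_pos75 hH0 hk
    rw [Complex.norm_real, Real.norm_of_nonneg (wab_nonneg hH0 hσ (ab75 hN i) hu)]
    exact wab_le hH0 hσ (ab75 hN i) hu
  refine (Finset.sum_le_card_nsmul _ _ _ h1).trans ?_
  rw [nsmul_eq_mul, mul_one]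

private theorem wab_far75 {β H σ a b : ℝ} {p : ℕ} {k : ℤ × ℤ} (hH : 0 < H) (hσ : 0 < σ)
    (hab : a ≤ b) (hk : 0 < uu β k) {δ : ℝ} (hδ : 0 ≤ δ) (hfar : ∀ t ∈ Icc a b, δ ≤ |tt β k - t|) :
    wab β H σ a b p k ≤ (b - a) / σ * exp (-(π * (δ / σ) ^ 2)) := by
  have h1 := core75 (div_nonneg hk.le hH.le) p
  have h4 : ∫ t in a..b, exp (-(π * ((tt β k - t) / σ) ^ 2)) ≤
      ∫ _ in a..b, exp (-(π * (δ / σ) ^ 2)) := by
    refine intervalIntegral.integral_mono_on hab ((gcont75 β σ k).intervalIntegrable a b)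
      (continuous_const.intervalIntegrable a b) fun t ht => ?_
    refine Real.exp_le_exp.2 (neg_le_neg (mul_le_mul_of_nonneg_left ?_ Real.pi_pos.le))
    rw [div_pow, div_pow]
    refine div_le_div_of_nonneg_right ?_ (by positivity)
    rw [← sq_abs (tt β k - t)]
    exact pow_le_pow_left₀ hδ (hfar t ht) 2
  rw [intervalIntegral.integral_const, smul_eq_mul] at h4
  have h5 : 0 ≤ ∫ t in a..b, exp (-(π * ((tt β k - t) / σ) ^ 2)) :=
    intervalIntegral.integral_nonneg hab fun t _ => (Real.exp_pos _).le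
  have h6 : 1 / σ * ∫ t in a..b, exp (-(π * ((tt β k - t) / σ) ^ 2)) ≤
      (b - a) / σ * exp (-(π * (δ / σ) ^ 2)) := by
    calc _ ≤ 1 / σ * ((b - a) * exp (-(π * (δ / σ) ^ 2))) :=
          mul_le_mul_of_nonneg_left h4 (by positivity)
      _ = _ := by ring
  unfold wab
  calc _ ≤ 1 * ((b - a) / σ * exp (-(π * (δ / σ) ^ 2))) :=
        mul_le_mul h1.2 h6 (mul_nonneg (by positivity) h5) (by norm_num)
    _ = _ := one_mul _

private theorem y_exp75 {y : ℝ} : y * exp (-(π * (3 / 2 * y) ^ 2)) ≤ exp (-(y ^ 2)) := by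
  have h1 : y ≤ exp (y ^ 2) := by
    have := Real.add_one_le_exp (y ^ 2)
    nlinarith [sq_nonneg (y - 1 / 2)]
  have h2 : exp (-(π * (3 / 2 * y) ^ 2)) ≤ exp (-(2 * y ^ 2)) := by
    refine Real.exp_le_exp.2 ?_
    have h3 := Real.pi_gt_three
    have h4 := sq_nonneg y
    have e : π * (3 / 2 * y) ^ 2 = 9 / 4 * (π * y ^ 2) := by ring
    rw [e]
    nlinarith
  calc y * exp (-(π * (3 / 2 * y) ^ 2)) ≤ exp (y ^ 2) * exp (-(2 * y ^ 2)) :=
        mul_le_mul h1 h2 (Real.exp_pos _).le (Real.exp_pos _).le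
    _ = exp (-(y ^ 2)) := by
        rw [← Real.exp_add]
        congr 1
        ring

private theorem decay75 {ε B : ℝ} (hε : 0 < ε) : ∃ C : ℝ, 0 < C ∧ ∀ H y : ℝ, 1 ≤ H → H ^ ε ≤ y →
    exp (-(y ^ 2)) ≤ C * H ^ (-(B + 3)) := by
  obtain ⟨n, hn⟩ := exists_nat_ge ((B + 3) / (2 * ε))
  refine ⟨(n.factorial : ℝ), by positivity, fun H y hH hy => ?_⟩
  have hH0 : 0 < H := by linarith
  have hHe : 0 < H ^ ε := Real.rpow_pos_of_pos hH0 _
  have hy0 : 0 < y := hHe.trans_le hy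
  have h1 := Real.pow_div_factorial_le_exp (y ^ 2) (sq_nonneg y) n
  have h2 : H ^ (B + 3) ≤ (y ^ 2) ^ n := by
    have h3 : ((H ^ ε) ^ 2) ^ n ≤ (y ^ 2) ^ n :=
      pow_le_pow_left₀ (by positivity) (pow_le_pow_left₀ hHe.le hy 2) n
    refine le_trans ?_ h3
    rw [← pow_mul, ← Real.rpow_natCast (H ^ ε), ← Real.rpow_mul hH0.le]
    refine Real.rpow_le_rpow_of_exponent_le hH ?_
    rw [div_le_iff₀ (by positivity)] at hn
    push_cast
    linarith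
  have hpos : 0 < H ^ (B + 3) := Real.rpow_pos_of_pos hH0 _
  rw [Real.rpow_neg hH0.le, Real.exp_neg, ← div_eq_mul_inv, inv_eq_one_div,
    div_le_div_iff₀ (Real.exp_pos _) hpos, one_mul]
  rw [div_le_iff₀ (by positivity)] at h1
  linarith

private theorem filt75 (S : Finset (ℤ × ℤ)) (P : ℤ × ℤ → Prop) {inst : DecidablePred P}
    (w : ℤ × ℤ → ℂ) {b : ℝ} (hb : 0 ≤ b) (h : ∀ k ∈ S, P k → ‖w k‖ ≤ b) :
    ∑ k ∈ @Finset.filter _ P inst S, ‖w k‖ ≤ (S.card : ℝ) * b := by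
  refine (Finset.sum_le_card_nsmul _ _ b fun k hk =>
    h k (Finset.mem_filter.1 hk).1 (Finset.mem_filter.1 hk).2).trans ?_
  rw [nsmul_eq_mul]
  refine mul_le_mul_of_nonneg_right ?_ hb
  exact Nat.cast_le.2 (Finset.card_filter_le _ _)

theorem Fw_far {ε B : ℝ} (hε : 0 < ε) (hε1 : ε ≤ 1 / 4) : ∃ C : ℝ, 0 < C ∧ ∀ (β H σ : ℝ) (p N i : ℕ), 1 ≤ H → 0 < σ → 1 ≤ N →
    σ * H ^ ε ≤ 12 / (N : ℝ) → l1 (res (fun k => ¬ |tt β k - tc N i| ≤ 2 * (12 / (N : ℝ))) (Fw β H ε σ p N i)) ≤ C * H ^ (-B) := by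
  classical
  obtain ⟨C, hC, hdec⟩ := decay75 (ε := ε) (B := B) hε
  refine ⟨10 ^ 4 * C, by positivity, fun β H σ p N i hH hσ hN hw => ?_⟩
  have hH0 : 0 < H := by linarith
  have hN0 : (0 : ℝ) < N := by exact_mod_cast hN
  have hwpos : 0 < 12 / (N : ℝ) := by positivity
  rw [Fw, res_ofS]
  refine (l1_ofS_le _ _ _).trans ?_
  have hba : (-6 + 12 * ((i : ℝ) + 1) / N) - (-6 + 12 * (i : ℝ) / N) = 12 / N := by
    field_simp
    ring
  have hy : H ^ ε ≤ 12 / (N : ℝ) / σ := by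
    rw [le_div_iff₀ hσ]
    linarith
  have h1 : ∀ k ∈ frq β H ε, ¬ |tt β k - tc N i| ≤ 2 * (12 / (N : ℝ)) →
      ‖((wab β H σ (-6 + 12 * (i : ℝ) / N) (-6 + 12 * ((i : ℝ) + 1) / N) p k : ℝ) : ℂ)‖ ≤
        C * H ^ (-(B + 3)) := by
    intro k hk1 hk2
    have hu := frq_pos75 hH0 hk1
    rw [Complex.norm_real, Real.norm_of_nonneg (wab_nonneg hH0 hσ (ab75 hN i) hu)]
    have h2 := wab_far75 (p := p) hH0 hσ (ab75 hN i) hu (δ := 3 / 2 * (12 / (N : ℝ)))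
      (by positivity) (fun t ht => by
        have e1 : |t - tc N i| ≤ 1 / 2 * (12 / (N : ℝ)) := by
          have e2 : -6 + 12 * (i : ℝ) / N = tc N i - 1 / 2 * (12 / (N : ℝ)) := by
            unfold tc
            field_simp
            ring
          have e3 : -6 + 12 * ((i : ℝ) + 1) / N = tc N i + 1 / 2 * (12 / (N : ℝ)) := by
            unfold tc
            field_simp
            ring
          rw [abs_le]
          have h5 := ht.1
          have h6 := ht.2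
          rw [e2] at h5
          rw [e3] at h6
          constructor <;> linarith
        have h5 := not_le.1 hk2
        have h6 : |tt β k - tc N i| ≤ |tt β k - t| + |t - tc N i| := abs_sub_le _ _ _
        linarith)
    rw [hba] at h2
    refine h2.trans ?_
    have h3 : 3 / 2 * (12 / (N : ℝ)) / σ = 3 / 2 * (12 / (N : ℝ) / σ) := by ring
    rw [h3]
    refine y_exp75.trans ?_
    exact hdec H _ hH hy
  refine (filt75 (frq β H ε) _ _ (b := C * H ^ (-(B + 3))) (by positivity) h1).trans ?_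
  have h2 := frq_card (β := β) hH hε hε1
  have hpos : 0 < H ^ (-(B + 3)) := Real.rpow_pos_of_pos hH0 _
  have h3 : H ^ 3 * H ^ (-(B + 3)) = H ^ (-B) := by
    rw [← Real.rpow_natCast H 3, ← Real.rpow_add hH0]
    congr 1
    push_cast
    ring
  calc _ ≤ 10 ^ 4 * H ^ 3 * (C * H ^ (-(B + 3))) := mul_le_mul_of_nonneg_right h2 (by positivity)
    _ = 10 ^ 4 * C * (H ^ 3 * H ^ (-(B + 3))) := by ring
    _ = 10 ^ 4 * C * H ^ (-B) := by rw [h3]

end Pool.Agent.Helper76.GS
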