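import Pool.Agent.Helper76.GS.A2
import Pool.Agent.Helper76.GS.B1
import Pool.Agent.Helper92.GC.L1

/-!
# GS-B5: windows near rational directions with small denominators

PROOF. `w = 12/N`, `d = H^(ε-1)`. For `i ∈ J`: `Fw i = res near + res far` (`res_split`, `near k := |tt β k - tc N i| ≤ 2w`), `n6 (Fw i) ≤ 4 (n6 (near) + n6 (far))` (`n6_sum_xp`); `n6 (far) ≤ l1² ≤ C` (`Fw_far` with `B = 0`, `n6_le_l1`), and there are at
most `N ≤ 10^4 H²` windows. `near`: `res_ofS`, `xp_ofS`, `n6_gs_card` (GC.T1; the weights are in `[0, 1]`: `wab_nonneg`, `wab_le`; modify the weights outside the set to be `0`): `n6 ≤ card_i^(5/3)`, `card_i` the number of `k ∈ frq` with `|tt β k - tc N i| ≤ 2w`.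
Count (as `ltype`, GC.L1): for `g = g_i` (`DirT`), `z = zz β g ≤ d/w`, `τ = tg β g`: `sp k g = k.1 g.1 + k.2 g.2 = u z (t - τ)` (`u = uu β k`, `t = tt β k`, `k.2 = u t`, `zz β g = g.2 - β g.1`, `τ = -g.1/z`), so
`|sp k g| ≤ H^(1+ε) z (2w + 2w + 2d/z) ≤ H^(1+ε) 6d = 6 H^(2ε)`. `frq_strip` (as `line_arc`, GC.L1): for each integer value of `sp k g` the solutions `k` differ by multiples of `(-g.2, g.1)`, for which `u` changes by `z` in absolute value: at most `1 + U/z`.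
`z ≤ d/w ≤ 834 H^(1+ε)`, so `1 + H^(1+ε)/z ≤ 835 H^(1+ε)/z`. So for each `g` the set `K_g` of all frequencies of all `i ∈ J` with `g_i = g` has at most `C H^(1+3ε)/z` elements, each belonging to at most `5` windows (`tc_card` of A8 or directly).
`∑_{i : g_i = g} card_i^(5/3) ≤ (∑ card_i)^(5/3) ≤ C (H^(1+3ε)/z)^(5/3)`. Sum over the different `g`: `dir_sum` (GC.N7) with `Z₀ = d/w`: `∑_g z^(-5/3) ≤ C (d/w)^(1/3)` (`|g.1| ≤ 7 z` from `|τ - tc| ≤ 2w + 2d/z`, `|tc| ≤ 6`: `|g.1| ≤ (6 + 2w) z + 2d`, and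
`z ≥ 1/8`, because otherwise `|g.1| < 1`, so `g.1 = 0`, `z = g.2 ≥ 1`; as in the proof of `ltype`). Total `C H^(5/3 + 5ε) (834 H^(1+ε))^(1/3) ≤ C H^(2 + 6ε)`.
-/

open MeasureTheory Real Set Filter Topology

set_option autoImplicit false

namespace Pool.Agent.Helper76.GS

open Pool.Agent.Helper22.AE
open Pool.Agent.Helper22.AC (n6 IsWt mu)
open Pool.Agent.Helper92.GC

/-- windows of direction type -/
def DirT (β w d t : ℝ) : Prop := ∃ g : ℤ × ℤ, IsCoprime g.1 g.2 ∧ 0 < zz β g ∧ zz β g ≤ d / w ∧ |tg β g - t| ≤ 2 * w + 2 * d / zz β g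

private theorem sep78 {ι : Type} (S : Finset ι) (f : ι → ℝ) {a L δ : ℝ} (hL : 0 ≤ L) (hδ : 0 < δ)
    (hf : ∀ i ∈ S, a ≤ f i ∧ f i ≤ a + L) (hs : ∀ i ∈ S, ∀ j ∈ S, i ≠ j → δ ≤ |f i - f j|) :
    (S.card : ℝ) ≤ 1 + L / δ := by
  have key : ∀ i ∈ S, ∀ j ∈ S, f j ≤ f i → ⌊(f i - a) / δ⌋ = ⌊(f j - a) / δ⌋ → i = j := by
    intro i hi j hj hij h
    by_contra hne
    have h1 := hs i hi j hj hne
    rw [abs_of_nonneg (by linarith)] at h1
    have h2 : (f j - a) / δ + 1 ≤ (f i - a) / δ := by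
      rw [← sub_nonneg]
      have h3 : (f i - a) / δ - ((f j - a) / δ + 1) = (f i - f j - δ) / δ := by
        field_simp
        ring
      rw [h3]
      exact div_nonneg (by linarith) hδ.le
    have h3 := Int.floor_le_floor h2
    rw [Int.floor_add_one] at h3
    omega
  have hinj : Set.InjOn (fun i => ⌊(f i - a) / δ⌋) (S : Set ι) := by
    intro i hi j hj h
    rcases le_total (f j) (f i) with h1 | h1
    · exact key i hi j hj h1 h
    · exact (key j hj i hi h1 h.symm).symm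
  have hmap : ∀ i ∈ S, (fun i => ⌊(f i - a) / δ⌋) i ∈ Finset.Icc (0 : ℤ) ⌊L / δ⌋ := by
    intro i hi
    obtain ⟨h1, h2⟩ := hf i hi
    rw [Finset.mem_Icc]
    constructor
    · exact Int.floor_nonneg.2 (div_nonneg (by linarith) hδ.le)
    · exact Int.floor_le_floor (div_le_div_of_nonneg_right (by linarith) hδ.le)
  have hcard := Finset.card_le_card_of_injOn _ hmap hinj
  rw [Int.card_Icc] at hcard
  have h0 : (0 : ℤ) ≤ ⌊L / δ⌋ := Int.floor_nonneg.2 (by positivity)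
  have h2 : (S.card : ℤ) ≤ ⌊L / δ⌋ + 1 := by omega
  have h3 : (S.card : ℝ) ≤ (⌊L / δ⌋ : ℝ) + 1 := by exact_mod_cast h2
  have h4 := Int.floor_le (L / δ)
  linarith

/-- the number of frequencies in a strip -/
theorem frq_strip {β H L U : ℝ} (hL : 0 ≤ L) (hU : 0 < U) {g : ℤ × ℤ} (hg : IsCoprime g.1 g.2) (hz : 0 < zz β g) (S : Finset (ℤ × ℤ))
    (hS : ∀ k ∈ S, 0 ≤ uu β k ∧ uu β k ≤ U ∧ |((sp k g : ℤ) : ℝ)| ≤ L) : (S.card : ℝ) ≤ (2 * L + 1) * (1 + U / zz β g) := by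
  classical
  have hmap : (S : Set (ℤ × ℤ)).MapsTo (fun k => sp k g) (Finset.Icc (-⌊L⌋) ⌊L⌋ : Finset ℤ) := by
    intro k hk
    have h1 := abs_le.1 (hS k hk).2.2
    rw [Finset.mem_coe, Finset.mem_Icc]
    constructor
    · have h2 : ((-(sp k g) : ℤ) : ℝ) ≤ L := by
        push_cast
        linarith
      have h3 : -(sp k g) ≤ ⌊L⌋ := Int.le_floor.2 h2
      change -⌊L⌋ ≤ sp k g
      omega
    · exact Int.le_floor.2 h1.2
  rw [Finset.card_eq_sum_card_fiberwise hmap]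
  push_cast
  have hfib : ∀ ν ∈ Finset.Icc (-⌊L⌋) ⌊L⌋, ((S.filter (fun k => sp k g = ν)).card : ℝ) ≤ 1 + U / zz β g := by
    intro ν _
    refine sep78 (S.filter (fun k => sp k g = ν)) (uu β) (a := 0) hU.le hz ?_ ?_
    · intro k hk
      rw [Finset.mem_filter] at hk
      obtain ⟨h1, h2, h3⟩ := hS k hk.1
      exact ⟨h1, by linarith⟩
    · intro k hk k' hk' hne
      rw [Finset.mem_filter] at hk hk'
      have h1 : sp k g = sp k' g := by rw [hk.2, hk'.2]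
      unfold sp at h1
      obtain ⟨x, y, hxy⟩ := hg
      have h2 : (k.1 - k'.1) * g.1 = -(k.2 - k'.2) * g.2 := by linear_combination h1
      set m : ℤ := x * (k.2 - k'.2) - y * (k.1 - k'.1) with hm
      have h3 : k.2 - k'.2 = m * g.1 := by
        rw [hm]
        linear_combination (-(k.2 - k'.2)) * hxy + y * h2
      have h4 : k.1 - k'.1 = -(m * g.2) := by
        rw [hm]
        linear_combination (-(k.1 - k'.1)) * hxy + x * h2
      have hm0 : m ≠ 0 := by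
        intro h0
        rw [h0] at h3 h4
        apply hne
        refine Prod.ext ?_ ?_
        · linarith
        · linarith
      have h3' : (k.2 : ℝ) - k'.2 = m * g.1 := by exact_mod_cast h3
      have h4' : (k.1 : ℝ) - k'.1 = -(m * g.2) := by exact_mod_cast h4
      have e1 : uu β k - uu β k' = -(m * zz β g) := by
        unfold uu zz
        linear_combination h4' + β * h3'
      rw [e1, abs_neg, abs_mul, abs_of_pos hz]
      have h5 : (1 : ℝ) ≤ |(m : ℝ)| := by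
        have := Int.one_le_abs hm0
        exact_mod_cast this
      nlinarith
  have h0 : (0 : ℤ) ≤ ⌊L⌋ := Int.floor_nonneg.2 hL
  have hpos : 0 ≤ 1 + U / zz β g := by positivity
  calc ∑ ν ∈ Finset.Icc (-⌊L⌋) ⌊L⌋, ((S.filter (fun k => sp k g = ν)).card : ℝ) ≤
        ∑ _ν ∈ Finset.Icc (-⌊L⌋) ⌊L⌋, (1 + U / zz β g) := Finset.sum_le_sum hfib
    _ = ((Finset.Icc (-⌊L⌋) ⌊L⌋).card : ℝ) * (1 + U / zz β g) := by
        rw [Finset.sum_const, nsmul_eq_mul]
    _ ≤ (2 * L + 1) * (1 + U / zz β g) := by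
        refine mul_le_mul_of_nonneg_right ?_ hpos
        rw [Int.card_Icc]
        have h2 : (((⌊L⌋ + 1 - -⌊L⌋).toNat : ℕ) : ℤ) = 2 * ⌊L⌋ + 1 := by
          rw [Int.toNat_of_nonneg (by omega)]
          ring
        have h3 : (((⌊L⌋ + 1 - -⌊L⌋).toNat : ℕ) : ℝ) = 2 * (⌊L⌋ : ℝ) + 1 := by exact_mod_cast h2
        rw [h3]
        have := Int.floor_le L
        linarith

private theorem sumrpow78 {ι : Type*} (S : Finset ι) {x : ι → ℝ} (hx : ∀ i ∈ S, 0 ≤ x i) :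
    ∑ i ∈ S, x i ^ (5 / 3 : ℝ) ≤ (∑ i ∈ S, x i) ^ (5 / 3 : ℝ) := by
  have h0 : 0 ≤ ∑ i ∈ S, x i := Finset.sum_nonneg hx
  have h1 : ∀ y : ℝ, 0 ≤ y → y ^ (5 / 3 : ℝ) = y * y ^ (2 / 3 : ℝ) := by
    intro y hy
    rcases hy.eq_or_lt with h | h
    · rw [← h, Real.zero_rpow (by norm_num), zero_mul]
    · rw [show (5 / 3 : ℝ) = 1 + 2 / 3 by norm_num, Real.rpow_add h, Real.rpow_one]
  rw [h1 _ h0, Finset.sum_mul]
  refine Finset.sum_le_sum fun i hi => ?_
  rw [h1 _ (hx i hi)]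
  refine mul_le_mul_of_nonneg_left ?_ (hx i hi)
  exact Real.rpow_le_rpow (hx i hi) (Finset.single_le_sum hx hi) (by norm_num)

/-- the vector `k` of the window is nearly orthogonal to `g` -/
private theorem sp78 {β U d w tj : ℝ} {k g : ℤ × ℤ} (hu1 : 0 < uu β k) (hu2 : uu β k ≤ U)
    (ht : |tt β k - tj| ≤ 2 * w) (hw : 0 < w) (hd : 0 < d) (hz : 0 < zz β g) (hz2 : zz β g ≤ d / w)
    (hg : |tg β g - tj| ≤ 2 * w + 2 * d / zz β g) : |((sp k g : ℤ) : ℝ)| ≤ U * (6 * d) := by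
  have hk : (k.2 : ℝ) = uu β k * tt β k := by
    unfold tt
    rw [mul_div_cancel₀ _ hu1.ne']
  have hg1 : (g.1 : ℝ) = -(zz β g * tg β g) := by
    unfold tg
    field_simp
  have e1 : ((sp k g : ℤ) : ℝ) = uu β k * zz β g * (tt β k - tg β g) := by
    have e2 : ((sp k g : ℤ) : ℝ) = uu β k * g.1 + k.2 * zz β g := by
      unfold sp uu zz
      push_cast
      ring
    rw [e2, hk, hg1]
    ring
  have h1 : |tt β k - tg β g| ≤ 2 * w + (2 * w + 2 * d / zz β g) := by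
    have e2 : tt β k - tg β g = (tt β k - tj) - (tg β g - tj) := by ring
    rw [e2]
    exact (abs_sub _ _).trans (by linarith)
  have h2 : zz β g * (2 * w + (2 * w + 2 * d / zz β g)) ≤ 6 * d := by
    have e2 : zz β g * (2 * w + (2 * w + 2 * d / zz β g)) = 4 * (zz β g * w) + 2 * d := by
      field_simp
      ring
    have h3 : zz β g * w ≤ d := by rwa [le_div_iff₀ hw] at hz2
    rw [e2]
    linarith
  rw [e1, abs_mul, abs_of_pos (by positivity)]
  calc uu β k * zz β g * |tt β k - tg β g| ≤ uu β k * zz β g * (2 * w + (2 * w + 2 * d / zz β g)) :=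
        mul_le_mul_of_nonneg_left h1 (by positivity)
    _ = uu β k * (zz β g * (2 * w + (2 * w + 2 * d / zz β g))) := by ring
    _ ≤ U * (6 * d) := mul_le_mul hu2 h2 (by positivity) (by linarith)

/-- the centres are separated -/
private theorem tcsep78 {N : ℕ} (hN : (0 : ℝ) < N) {i j : ℕ} (h : i ≠ j) : 12 / (N : ℝ) ≤ |tc N i - tc N j| := by
  have e : tc N i - tc N j = 12 / (N : ℝ) * ((i : ℝ) - j) := by
    unfold tc
    field_simp
    ring
  have h1 : (1 : ℝ) ≤ |(i : ℝ) - j| := by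
    have h2 : (1 : ℤ) ≤ |(i : ℤ) - j| := Int.one_le_abs (by omega)
    exact_mod_cast h2
  rw [e, abs_mul, abs_of_pos (by positivity)]
  exact le_mul_of_one_le_right (by positivity) h1

private theorem tcabs78 {N i : ℕ} (hi : i < N) : |tc N i| ≤ 6 := by
  have hi' : (i : ℝ) + 1 ≤ N := by exact_mod_cast hi
  have hN0 : (0 : ℝ) < N := by
    have : (0 : ℝ) ≤ i := Nat.cast_nonneg _
    linarith
  have a1 : 0 ≤ 12 * ((i : ℝ) + 1 / 2) / N := by positivity
  have a2 : 12 * ((i : ℝ) + 1 / 2) / N ≤ 12 := by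
    rw [div_le_iff₀ hN0]
    linarith
  unfold tc
  rw [abs_le]
  constructor <;> linarith

/-- the size of the direction -/
private theorem gsize78 {β w d t : ℝ} {g : ℤ × ℤ} (hw : 0 < w) (hw1 : w ≤ 1 / 1000) (hd : 0 < d) (hd1 : d ≤ 1 / 1000)
    (ht : |t| ≤ 6) (hz : 0 < zz β g) (hg : |tg β g - t| ≤ 2 * w + 2 * d / zz β g) : |(g.1 : ℝ)| ≤ 7 * zz β g := by
  have h1 : |(g.1 : ℝ)| = zz β g * |tg β g| := by
    unfold tg
    rw [abs_div, abs_neg, abs_of_pos hz]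
    field_simp
  have h2 : |tg β g| ≤ 6 + (2 * w + 2 * d / zz β g) := by
    have e : tg β g = t + (tg β g - t) := by ring
    rw [e]
    exact (abs_add_le _ _).trans (by linarith)
  have h3 : |(g.1 : ℝ)| ≤ zz β g * (6 + 2 * w) + 2 * d := by
    rw [h1]
    refine (mul_le_mul_of_nonneg_left h2 hz.le).trans (le_of_eq ?_)
    field_simp
    ring
  have h4 : 1 / 8 ≤ zz β g := by
    by_contra hcon
    push Not at hcon
    have h5 : |(g.1 : ℝ)| < 1 := by nlinarith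
    have h6 : g.1 = 0 := by
      have : |g.1| < 1 := by exact_mod_cast h5
      exact Int.abs_lt_one_iff.1 this
    have h7 : zz β g = g.2 := by
      unfold zz
      rw [h6]
      simp
    rw [h7] at hz hcon
    have h8 : (0 : ℤ) < g.2 := by exact_mod_cast hz
    have h9 : (1 : ℝ) ≤ g.2 := by exact_mod_cast h8
    linarith
  nlinarith

open Classical in
/-- the part of the window near its centre -/
private theorem near78 {β H ε σ X : ℝ} {v : ℝ → ℝ} (hv : IsWt X v) (hH : 1 ≤ H) (hσ : 0 < σ) (p : ℕ) {N : ℕ} (hN : 1 ≤ N)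
    (hβ : |β| ≤ 1 / 2) (i : ℕ) (P : ℤ × ℤ → Prop) :
    n6 (mu v) (xp (res P (Fw β H ε σ p N i))) ≤ (((frq β H ε).filter P).card : ℝ) ^ (5 / 3 : ℝ) := by
  have hN0 : (0 : ℝ) < N := by exact_mod_cast hN
  unfold Fw
  rw [res_ofS]
  have e1 : xp (ofS ((frq β H ε).filter P)
      (fun k => ((wab β H σ (-6 + 12 * (i : ℝ) / N) (-6 + 12 * ((i : ℝ) + 1) / N) p k : ℝ) : ℂ)) (ph β)) =
      gs ((frq β H ε).filter P) (fun k => if k ∈ frq β H ε then
        ((wab β H σ (-6 + 12 * (i : ℝ) / N) (-6 + 12 * ((i : ℝ) + 1) / N) p k : ℝ) : ℂ) else 0) (ph β) := by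
    rw [xp_ofS]
    funext q
    unfold gs
    refine Finset.sum_congr rfl fun k hk => ?_
    beta_reduce
    rw [if_pos (Finset.mem_filter.1 hk).1]
  rw [e1]
  refine n6_gs_card hv _ (fun k => ?_) (ph β)
  split_ifs with hk
  · have hu : 0 < uu β k := lt_of_lt_of_le (by positivity) ((mem_frq hβ).1 hk).1
    have hab : -6 + 12 * (i : ℝ) / N ≤ -6 + 12 * ((i : ℝ) + 1) / N := by
      have : 12 * (i : ℝ) / N ≤ 12 * ((i : ℝ) + 1) / N := div_le_div_of_nonneg_right (by linarith) hN0.le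
      linarith
    have h0 := wab_nonneg (p := p) (by linarith : 0 < H) hσ hab hu
    have h1 := wab_le (p := p) (by linarith : 0 < H) hσ hab hu
    rw [Complex.norm_real, Real.norm_of_nonneg h0]
    exact h1
  · rw [norm_zero]
    exact zero_le_one

private theorem two78 {X : ℝ} {v : ℝ → ℝ} (hv : IsWt X v) (a b : Xp) :
    n6 (mu v) (xp (a + b)) ≤ 4 * (n6 (mu v) (xp a) + n6 (mu v) (xp b)) := by
  have h := n6_sum_xp hv (Finset.univ : Finset Bool) (fun c => if c then a else b)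
  simp only [Fintype.sum_bool, Finset.card_univ, Fintype.card_bool, if_true] at h
  norm_num at h
  exact h

open Classical in
/-- the number of the frequencies of all the windows of one direction -/
private theorem dirc78 {β H ε w d : ℝ} {N : ℕ} (hN : (0 : ℝ) < N) (hβ : |β| ≤ 1 / 2) (hH : 1 ≤ H) (hw : w = 12 / (N : ℝ))
    (hw0 : 0 < w) (hd : d = H ^ (ε - 1)) (hdw : d / w ≤ 834 * H ^ (1 + ε)) {g : ℤ × ℤ} (hε : 0 < ε)
    (hg : IsCoprime g.1 g.2) (hz : 0 < zz β g) (hz2 : zz β g ≤ d / w) (I : Finset ℕ)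
    (hI : ∀ i ∈ I, |tg β g - tc N i| ≤ 2 * w + 2 * d / zz β g) :
    ∑ i ∈ I, (((frq β H ε).filter (fun k => |tt β k - tc N i| ≤ 2 * w)).card : ℝ) ≤
      54275 * H ^ (1 + 3 * ε) / zz β g := by
  have hH0 : 0 < H := by linarith
  have hd0 : 0 < d := by rw [hd]; positivity
  have e1 : ∀ i, (((frq β H ε).filter (fun k => |tt β k - tc N i| ≤ 2 * w)).card : ℝ) =
      ∑ k ∈ frq β H ε, if |tt β k - tc N i| ≤ 2 * w then (1 : ℝ) else 0 := by
    intro i
    rw [Finset.card_filter]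
    push_cast
    rfl
  simp only [e1]
  rw [Finset.sum_comm]
  set L : ℝ := H ^ (1 + ε) * (6 * d) with hL
  have hLe : L = 6 * H ^ (2 * ε) := by
    rw [hL, hd]
    have : H ^ (2 * ε) = H ^ (1 + ε) * H ^ (ε - 1) := by
      rw [← Real.rpow_add hH0]
      congr 1
      ring
    rw [this]
    ring
  have h1 : ∀ k ∈ frq β H ε, (∑ i ∈ I, if |tt β k - tc N i| ≤ 2 * w then (1 : ℝ) else 0) ≤
      if |((sp k g : ℤ) : ℝ)| ≤ L then 5 else 0 := by
    intro k hk
    have hkf := (mem_frq hβ).1 hk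
    have hu : 0 < uu β k := lt_of_lt_of_le (by positivity) hkf.1
    rw [← Finset.sum_filter, Finset.sum_const, nsmul_eq_mul, mul_one]
    split_ifs with h
    · have h2 := sep78 (I.filter (fun i => |tt β k - tc N i| ≤ 2 * w)) (tc N) (a := tt β k - 2 * w) (L := 4 * w)
        (δ := w) (by positivity) hw0 (fun i hi => by
          have h3 := abs_le.1 (Finset.mem_filter.1 hi).2
          constructor <;> linarith) (fun i _ j _ hij => by
          rw [hw]
          exact tcsep78 hN hij)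
      refine h2.trans (le_of_eq ?_)
      field_simp
      norm_num
    · have h3 : I.filter (fun i => |tt β k - tc N i| ≤ 2 * w) = ∅ := by
        rw [Finset.filter_eq_empty_iff]
        intro i hi hcon
        exact h (sp78 hu hkf.2.1 hcon hw0 hd0 hz hz2 (hI i hi))
      rw [h3, Finset.card_empty, Nat.cast_zero]
  refine (Finset.sum_le_sum h1).trans ?_
  rw [← Finset.sum_filter, Finset.sum_const, nsmul_eq_mul]
  have h2 := frq_strip (β := β) (H := H) (L := L) (U := H ^ (1 + ε)) (by positivity) (by positivity) hg hz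
    ((frq β H ε).filter (fun k => |((sp k g : ℤ) : ℝ)| ≤ L)) (fun k hk => by
      rw [Finset.mem_filter] at hk
      have hkf := (mem_frq hβ).1 hk.1
      exact ⟨(lt_of_lt_of_le (by positivity) hkf.1).le, hkf.2.1, hk.2⟩)
  have h3 : 1 ≤ H ^ (2 * ε) := Real.one_le_rpow hH (by positivity)
  have h4 : 2 * L + 1 ≤ 13 * H ^ (2 * ε) := by rw [hLe]; linarith
  have h5 : 1 + H ^ (1 + ε) / zz β g ≤ 835 * H ^ (1 + ε) / zz β g := by
    have h6 : 1 ≤ 834 * H ^ (1 + ε) / zz β g := by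
      rw [le_div_iff₀ hz]
      linarith
    have h7 : 835 * H ^ (1 + ε) / zz β g = 834 * H ^ (1 + ε) / zz β g + H ^ (1 + ε) / zz β g := by ring
    rw [h7]
    linarith
  have h6 : H ^ (1 + 3 * ε) = H ^ (2 * ε) * H ^ (1 + ε) := by
    rw [← Real.rpow_add hH0]
    congr 1
    ring
  calc (((frq β H ε).filter (fun k => |((sp k g : ℤ) : ℝ)| ≤ L)).card : ℝ) * 5
      ≤ ((2 * L + 1) * (1 + H ^ (1 + ε) / zz β g)) * 5 := mul_le_mul_of_nonneg_right h2 (by norm_num)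
    _ ≤ ((13 * H ^ (2 * ε)) * (835 * H ^ (1 + ε) / zz β g)) * 5 := by
        refine mul_le_mul_of_nonneg_right (mul_le_mul h4 h5 (by positivity) (by positivity)) (by norm_num)
    _ = 54275 * H ^ (1 + 3 * ε) / zz β g := by
        rw [h6]
        ring

theorem Fw_dir {ε : ℝ} (hε : 0 < ε) (hε1 : ε ≤ 1 / 100) : ∃ C : ℝ, 0 < C ∧
    ∀ (β H σ X : ℝ) (v : ℝ → ℝ) (p N : ℕ) (J : Finset ℕ), |β| ≤ 1 / 2 → 1 ≤ H → 0 < σ → σ ≤ 1 → IsWt X v → 1 ≤ N →
      (N : ℝ) ≤ 10 ^ 4 * H ^ 2 → 12 / (N : ℝ) ≤ 1 / 1000 → H ^ (ε - 1) ≤ 1 / 1000 → σ * H ^ ε ≤ 12 / (N : ℝ) →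
      (∀ i ∈ J, i < N ∧ DirT β (12 / (N : ℝ)) (H ^ (ε - 1)) (tc N i)) →
        ∑ i ∈ J, n6 (mu v) (xp (Fw β H ε σ p N i)) ≤ C * H ^ (10 * ε) * H ^ 2 := by
  classical
  obtain ⟨C', hC', hdir⟩ := dir_sum
  obtain ⟨C₁, hC₁, hfar⟩ := Fw_far (ε := ε) (B := 0) hε (by linarith)
  refine ⟨4 * (54275 ^ (5 / 3 : ℝ) * C' * 834 ^ (1 / 3 : ℝ) + 10 ^ 4 * C₁ ^ 2), by positivity, ?_⟩
  intro β H σ X v p N J hβ hH hσ hσ1 hv hN hNH hw1 hd1 hσw hJ
  have hN0 : (0 : ℝ) < N := by exact_mod_cast hN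
  have hH0 : 0 < H := by linarith
  obtain ⟨w, hw⟩ : ∃ w : ℝ, w = 12 / (N : ℝ) := ⟨_, rfl⟩
  obtain ⟨d, hd⟩ : ∃ d : ℝ, d = H ^ (ε - 1) := ⟨_, rfl⟩
  rw [← hw] at hw1 hσw hJ
  rw [← hd] at hd1 hJ
  have hw0 : 0 < w := by rw [hw]; positivity
  have hd0 : 0 < d := by rw [hd]; positivity
  have hdw : d / w ≤ 834 * H ^ (1 + ε) := by
    rw [hw, hd, div_le_iff₀ (by positivity)]
    have h1 : H ^ (1 + ε) = H ^ (ε - 1) * H ^ 2 := by
      rw [← Real.rpow_natCast, ← Real.rpow_add hH0]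
      congr 1
      push_cast
      ring
    rw [h1]
    have h2 : 1 ≤ 834 * H ^ 2 * (12 / (N : ℝ)) := by
      rw [mul_div_assoc', le_div_iff₀ hN0]
      nlinarith [sq_nonneg H]
    have h3 := mul_le_mul_of_nonneg_left h2 (by positivity : 0 ≤ H ^ (ε - 1))
    linarith
  have hch : ∀ i : ℕ, ∃ g : ℤ × ℤ, i ∈ J → IsCoprime g.1 g.2 ∧ 0 < zz β g ∧ zz β g ≤ d / w ∧
      |tg β g - tc N i| ≤ 2 * w + 2 * d / zz β g := by
    intro i
    by_cases hi : i ∈ J
    · obtain ⟨g, h⟩ := (hJ i hi).2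
      exact ⟨g, fun _ => h⟩
    · exact ⟨0, fun h => absurd h hi⟩
  choose gg hgg using hch
  obtain ⟨K, hK⟩ : ∃ K : ℕ → Finset (ℤ × ℤ), K = fun i => (frq β H ε).filter (fun k => |tt β k - tc N i| ≤ 2 * w) := ⟨_, rfl⟩
  -- one window
  have hone : ∀ i ∈ J, n6 (mu v) (xp (Fw β H ε σ p N i)) ≤ 4 * (((K i).card : ℝ) ^ (5 / 3 : ℝ) + C₁ ^ 2) := by
    intro i hi
    have h1 := two78 hv (res (fun k => |tt β k - tc N i| ≤ 2 * w) (Fw β H ε σ p N i))
      (res (fun k => ¬ |tt β k - tc N i| ≤ 2 * w) (Fw β H ε σ p N i))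
    rw [← res_split] at h1
    refine h1.trans (mul_le_mul_of_nonneg_left (add_le_add ?_ ?_) (by norm_num))
    · rw [hK]
      exact near78 hv hH hσ p hN hβ i _
    · refine (n6_le_l1 hv _).trans (pow_le_pow_left₀ (l1_nonneg _) ?_ 2)
      have h2 := hfar β H σ p N i hH hσ hN (by rw [← hw]; exact hσw)
      rw [neg_zero, Real.rpow_zero, mul_one, ← hw] at h2
      exact h2
  have hJN : (J.card : ℝ) ≤ N := by
    have h1 : J.card ≤ (Finset.range N).card :=
      Finset.card_le_card fun i hi => Finset.mem_range.2 (hJ i hi).1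
    rw [Finset.card_range] at h1
    exact_mod_cast h1
  have hG : ∀ g ∈ J.image gg, 0 < zz β g ∧ zz β g ≤ d / w ∧ |(g.1 : ℝ)| ≤ 7 * zz β g := by
    intro g hgJ
    rw [Finset.mem_image] at hgJ
    obtain ⟨j, hj, rfl⟩ := hgJ
    obtain ⟨c1, c2, c3, c4⟩ := hgg j hj
    exact ⟨c2, c3, gsize78 hw0 hw1 hd0 hd1 (tcabs78 (hJ j hj).1) c2 c4⟩
  have hsum := hdir β (d / w) (J.image gg) hβ (by positivity) hG
  have hK1 : ∑ i ∈ J, ((K i).card : ℝ) ^ (5 / 3 : ℝ) ≤
      54275 ^ (5 / 3 : ℝ) * C' * 834 ^ (1 / 3 : ℝ) * (H ^ (10 * ε) * H ^ 2) := by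
    rw [← Finset.sum_fiberwise_of_maps_to (s := J) (t := J.image gg) (g := gg)
      (fun j hj => Finset.mem_image_of_mem gg hj)]
    calc ∑ g ∈ J.image gg, ∑ j ∈ J.filter (fun j => gg j = g), ((K j).card : ℝ) ^ (5 / 3 : ℝ)
        ≤ ∑ g ∈ J.image gg, (54275 * H ^ (1 + 3 * ε)) ^ (5 / 3 : ℝ) * zz β g ^ (-(5 / 3) : ℝ) := by
          refine Finset.sum_le_sum fun g hgJ => ?_
          have hz := (hG g hgJ).1
          refine (sumrpow78 _ fun j _ => Nat.cast_nonneg _).trans ?_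
          refine (Real.rpow_le_rpow (y := 54275 * H ^ (1 + 3 * ε) / zz β g)
            (Finset.sum_nonneg fun j _ => Nat.cast_nonneg _) ?_ (by norm_num)).trans (le_of_eq ?_)
          · have hcop : IsCoprime g.1 g.2 := by
              rw [Finset.mem_image] at hgJ
              obtain ⟨j, hj, rfl⟩ := hgJ
              exact (hgg j hj).1
            rw [hK]
            refine dirc78 hN0 hβ hH hw hw0 hd hdw hε hcop hz (hG g hgJ).2.1 _ fun i hi => ?_
            rw [Finset.mem_filter] at hi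
            have h4 := (hgg i hi.1).2.2.2
            rw [hi.2] at h4
            exact h4
          · rw [Real.div_rpow (by positivity) hz.le, Real.rpow_neg hz.le, div_eq_mul_inv]
      _ = (54275 * H ^ (1 + 3 * ε)) ^ (5 / 3 : ℝ) * ∑ g ∈ J.image gg, zz β g ^ (-(5 / 3) : ℝ) := by
          rw [Finset.mul_sum]
      _ ≤ (54275 * H ^ (1 + 3 * ε)) ^ (5 / 3 : ℝ) * (C' * (834 * H ^ (1 + ε)) ^ (1 / 3 : ℝ)) := by
          refine mul_le_mul_of_nonneg_left (hsum.trans ?_) (by positivity)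
          exact mul_le_mul_of_nonneg_left (Real.rpow_le_rpow (by positivity) hdw (by norm_num)) hC'.le
      _ = 54275 ^ (5 / 3 : ℝ) * C' * 834 ^ (1 / 3 : ℝ) * (H ^ ((1 + 3 * ε) * (5 / 3) + (1 + ε) * (1 / 3))) := by
          rw [Real.mul_rpow (by norm_num) (by positivity), Real.mul_rpow (by norm_num) (by positivity),
            ← Real.rpow_mul hH0.le, ← Real.rpow_mul hH0.le, Real.rpow_add hH0]
          ring
      _ ≤ 54275 ^ (5 / 3 : ℝ) * C' * 834 ^ (1 / 3 : ℝ) * (H ^ (10 * ε) * H ^ 2) := by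
          refine mul_le_mul_of_nonneg_left ?_ (by positivity)
          rw [← Real.rpow_natCast, ← Real.rpow_add hH0]
          refine Real.rpow_le_rpow_of_exponent_le hH ?_
          push_cast
          linarith
  have hH1 : 1 ≤ H ^ (10 * ε) := Real.one_le_rpow hH (by positivity)
  calc ∑ i ∈ J, n6 (mu v) (xp (Fw β H ε σ p N i)) ≤ ∑ i ∈ J, 4 * (((K i).card : ℝ) ^ (5 / 3 : ℝ) + C₁ ^ 2) :=
        Finset.sum_le_sum hone
    _ = 4 * (∑ i ∈ J, ((K i).card : ℝ) ^ (5 / 3 : ℝ) + J.card * C₁ ^ 2) := by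
        rw [← Finset.mul_sum, Finset.sum_add_distrib, Finset.sum_const, nsmul_eq_mul]
    _ ≤ 4 * (54275 ^ (5 / 3 : ℝ) * C' * 834 ^ (1 / 3 : ℝ) * (H ^ (10 * ε) * H ^ 2) +
        10 ^ 4 * C₁ ^ 2 * (H ^ (10 * ε) * H ^ 2)) := by
        refine mul_le_mul_of_nonneg_left (add_le_add hK1 ?_) (by norm_num)
        have h1 : (J.card : ℝ) ≤ 10 ^ 4 * (H ^ (10 * ε) * H ^ 2) := by
          refine (hJN.trans hNH).trans ?_
          have : H ^ 2 ≤ H ^ (10 * ε) * H ^ 2 := le_mul_of_one_le_left (by positivity) hH1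
          linarith
        calc (J.card : ℝ) * C₁ ^ 2 ≤ 10 ^ 4 * (H ^ (10 * ε) * H ^ 2) * C₁ ^ 2 :=
              mul_le_mul_of_nonneg_right h1 (by positivity)
          _ = _ := by ring
    _ = 4 * (54275 ^ (5 / 3 : ℝ) * C' * 834 ^ (1 / 3 : ℝ) + 10 ^ 4 * C₁ ^ 2) * H ^ (10 * ε) * H ^ 2 := by ring

end Pool.Agent.Helper76.GS
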