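import Pool.Agent.Helper76.GS.A7

/-!
# GS-A8: decoupling into windows

PROOF of `win_dec` (`K = 20`). Let `κ ≤ 1/100`, `M, N₁, C₁` from `dec_xp` with `ε = κ`. `A = res (In5 β) (∑ a i)`; `S = ∑ n6 (xp (a i))`.
Trivial bound: `n6 (xp A) ≤ 14^4 N² S` (`n6_res_In5`, `n6_sum_xp`); it suffices if `N ≤ 4 M^(N₁) H^κ · 4` or if `H` is bounded (`N ≤ H^(5/2)`). So let `H` be large and `N' := M^(N₁ m)` with `m` the largest natural number with
`M^(N₁ m) ≤ N H^(-κ)/8`: `N H^(-κ)/(8 M^N₁) < N' ≤ N H^(-κ)/8`.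
Dyadic pieces: for `n ∈ ℕ` put `U_n = {2^n ≤ uu < 2^(n+1)}`; all `x ∈ A.support` have `H^(1-κ) ≤ u ≤ H^(1+κ)`, so `A = ∑_{n < L} res U_n A` with `L = ⌈2 log₂ H⌉ + 2 ≤ C H^κ`, only `2^(n+1) > H^(1-κ)` occur. `n6 (xp A) ≤ L² ∑_n n6 (xp (res U_n A))`.
Fix `n`, `H' = 2^n ≥ H^(1-κ)/2`: `Tol β H' δ (res U_n A)` with `δ = H^(1+κ) (12/N)²` (`Rg`: `H'/4 ≤ u ≤ 8H'`, `In5`). Condition of `dec_xp`: `1/X + 6δ ≤ 7 H^(1+κ) (12/N)² ≤ H' (12/N')²` because `(N/N')² ≥ 64 H^(2κ) ≥ 14 H^(2κ)`.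
`N' ≤ H^(5/2)/8 ≤ H'^3` for large `H` (`3(1-κ) > 5/2`). So `n6 (xp (res U_n A)) ≤ C₁ H'^κ ∑_{r < N'} n6 (xp (res (Ac N' r) (res U_n A)))`.
For `r < N'`: `res (Ac N' r) (res U_n A) = ∑_{i ∈ I_r} res (Ac N' r) (res U_n (res (In5 β) (a i)))`, `I_r = {i < N : |tc N i - tc N' r| ≤ 12 H^κ/N + 6/N'}`: for other `i` the restriction is `0`, because `Ac β N' r k` and `In5` (so
`(tt + 6)/12 ≥ 0`) give `|tt β k - tc N' r| ≤ 6/N'`. `card I_r ≤ 1 + (24 H^κ/N + 12/N') N/12 ≤ 3 + 2H^κ + N/N' ≤ C H^κ`. Conversely for every `i` the number of `r < N'` with `i ∈ I_r` is at most `1 + (24 H^κ/N + 12/N') N'/12 ≤ 3`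
(`H^κ N'/N ≤ 1/8`). Multipliers: `n6 (xp (res (Ac N' r) (res U_n (res In5 (a i))))) ≤ 14^12 n6 (xp (a i))`: on the support `Ac N' r` is the condition `-6 + 12 r/N' ≤ tt < -6 + 12 (r+1)/N'` (`Nat.floor_eq_iff`, `(tt + 6)/12 ≥ 0`):
`n6_res_t`, `n6_res_u`, `n6_res_In5`, `res_congr`. So `∑_r n6 (...) ≤ ∑_r (card I_r)² ∑_{i ∈ I_r} 14^12 n6 (xp (a i)) ≤ C H^(2κ) · 3 · S`. Total exponent of `H`: `κ` (trivial case: `2κ`) ... at most `20 κ`.
-/

open MeasureTheory Real Set Filter Topology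

set_option autoImplicit false

namespace Pool.Agent.Helper76.GS

open Pool.Agent.Helper22.AE
open Pool.Agent.Helper22.AC (n6 IsWt mu)
open Pool.Agent.Helper92.GC

private lemma n6_nonneg_h12 {v : ℝ → ℝ} (f : (ℝ × ℝ) × ℝ → ℂ) : 0 ≤ n6 (mu v) f :=
  Real.rpow_nonneg (integral_nonneg fun _ => by positivity) _

private lemma n6_zero_h12 {v : ℝ → ℝ} : n6 (mu v) (xp 0) = 0 := by
  unfold n6
  simp [xp_zero]

private lemma res_zero_h12 {P : ℤ × ℤ → Prop} {a : Xp} (h : ∀ x ∈ a.support, ¬ P x.1) : res P a = 0 := by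
  refine Finsupp.support_eq_empty.mp (Finset.eq_empty_of_forall_notMem fun x hx => ?_)
  rw [mem_res] at hx
  exact h x hx.1 hx.2

private lemma supp_sum_h12 {s : Finset ℕ} {a : ℕ → Xp} {x : (ℤ × ℤ) × ℝ}
    (hx : x ∈ (∑ i ∈ s, a i).support) : ∃ i ∈ s, x ∈ (a i).support := by
  rw [Finsupp.mem_support_iff, Finsupp.finsetSum_apply] at hx
  obtain ⟨i, hi, h⟩ := Finset.exists_ne_zero_of_sum_ne_zero hx
  exact ⟨i, hi, Finsupp.mem_support_iff.mpr h⟩

private lemma split_h12 {a : Xp} (L : ℕ) (P : ℕ → ℤ × ℤ → Prop)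
    (h : ∀ x ∈ a.support, ∃ n < L, ∀ m, P m x.1 ↔ m = n) :
    a = ∑ n ∈ Finset.range L, res (P n) a := by
  classical
  ext x
  rw [Finsupp.finsetSum_apply]
  by_cases hx : x ∈ a.support
  · obtain ⟨n, hn, hP⟩ := h x hx
    rw [Finset.sum_eq_single n]
    · unfold res
      rw [Finsupp.filter_apply, if_pos ((hP n).mpr rfl)]
    · intro m _ hm
      unfold res
      rw [Finsupp.filter_apply, if_neg fun h => hm ((hP m).mp h)]
    · intro hn'
      exact absurd (Finset.mem_range.mpr hn) hn'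
  · have h0 : a x = 0 := by simpa using hx
    rw [h0]
    symm
    refine Finset.sum_eq_zero fun m _ => ?_
    unfold res
    rw [Finsupp.filter_apply, h0]
    simp

private lemma tt_ge_h12 {β : ℝ} {k : ℤ × ℤ} (hu : 0 < uu β k) (h : In5 β k) : -6 ≤ tt β k := by
  unfold In5 at h
  unfold tt
  rw [le_div_iff₀ hu]
  have := neg_abs_le (k.2 : ℝ)
  linarith

/-- the number of integers `i < N` in a window -/
theorem tc_card {N : ℕ} (hN : 1 ≤ N) (x r : ℝ) (hr : 0 ≤ r) (I : Finset ℕ) (hI : ∀ i ∈ I, |tc N i - x| ≤ r) :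
    (I.card : ℝ) ≤ 1 + 2 * r * N / 12 := by
  have hN0 : (0 : ℝ) < N := by exact_mod_cast hN
  rcases I.eq_empty_or_nonempty with rfl | hne
  · simp only [Finset.card_empty, Nat.cast_zero]
    positivity
  · have hp := I.min'_mem hne
    have hq := I.max'_mem hne
    have hpq : I.min' hne ≤ I.max' hne := I.min'_le _ hq
    have h1 : I.card ≤ I.max' hne + 1 - I.min' hne := by
      rw [← Nat.card_Icc]
      exact Finset.card_le_card fun i hi => Finset.mem_Icc.mpr ⟨I.min'_le _ hi, I.le_max' _ hi⟩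
    have h2 : (I.card : ℝ) ≤ (I.max' hne : ℝ) + 1 - (I.min' hne : ℝ) := by
      have h3 : I.card + I.min' hne ≤ I.max' hne + 1 := by omega
      have h4 : (I.card : ℝ) + (I.min' hne : ℝ) ≤ (I.max' hne : ℝ) + 1 := by exact_mod_cast h3
      linarith
    have h3 := hI _ hp
    have h4 := hI _ hq
    rw [abs_le] at h3 h4
    have h5 : tc N (I.max' hne) - tc N (I.min' hne) ≤ 2 * r := by linarith [h3.1, h4.2]
    have h6 : tc N (I.max' hne) - tc N (I.min' hne) =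
        12 * ((I.max' hne : ℝ) - (I.min' hne : ℝ)) / N := by
      unfold tc
      ring
    rw [h6, div_le_iff₀ hN0] at h5
    linarith

theorem Ac_iff {β : ℝ} {N r : ℕ} (hN : 1 ≤ N) {k : ℤ × ℤ} (ht : -6 ≤ tt β k) :
    Ac β N r k ↔ -6 + 12 * (r : ℝ) / N ≤ tt β k ∧ tt β k < -6 + 12 * ((r : ℝ) + 1) / N := by
  have hN0 : (0 : ℝ) < N := by exact_mod_cast hN
  unfold Ac
  rw [Nat.floor_eq_iff (mul_nonneg hN0.le (div_nonneg (by linarith) (by norm_num)))]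
  have e1 : (r : ℝ) ≤ N * ((tt β k + 6) / 12) ↔ -6 + 12 * (r : ℝ) / N ≤ tt β k := by
    constructor
    · intro h
      have h1 : 12 * (r : ℝ) / N ≤ tt β k + 6 := by
        rw [div_le_iff₀ hN0]
        linarith
      linarith
    · intro h
      have h1 : 12 * (r : ℝ) / N ≤ tt β k + 6 := by linarith
      rw [div_le_iff₀ hN0] at h1
      linarith
  have e2 : (N : ℝ) * ((tt β k + 6) / 12) < (r : ℝ) + 1 ↔ tt β k < -6 + 12 * ((r : ℝ) + 1) / N := by
    constructor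
    · intro h
      have h1 : tt β k + 6 < 12 * ((r : ℝ) + 1) / N := by
        rw [lt_div_iff₀ hN0]
        linarith
      linarith
    · intro h
      have h1 : tt β k + 6 < 12 * ((r : ℝ) + 1) / N := by linarith
      rw [lt_div_iff₀ hN0] at h1
      linarith
  rw [e1, e2]

/-- the pieces -/
private noncomputable def pc_h12 (β : ℝ) (N r : ℕ) (z z' : ℝ) (a : Xp) : Xp :=
  res (Ac β N r) (res (fun k => z ≤ uu β k ∧ uu β k < z') (res (In5 β) a))

private lemma pc_sum_h12 (β : ℝ) (N r : ℕ) (z z' : ℝ) (s : Finset ℕ) (a : ℕ → Xp) :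
    pc_h12 β N r z z' (∑ i ∈ s, a i) = ∑ i ∈ s, pc_h12 β N r z z' (a i) := by
  unfold pc_h12
  rw [res_sum, res_sum, res_sum]

private lemma mult_h12 {X : ℝ} {v : ℝ → ℝ} (hv : IsWt X v) {β : ℝ} {a : Xp}
    (ha : ∀ x ∈ a.support, 0 < uu β x.1) {N r : ℕ} (hN : 1 ≤ N) (z z' : ℝ) :
    n6 (mu v) (xp (pc_h12 β N r z z' a)) ≤ 14 ^ 12 * n6 (mu v) (xp a) := by
  unfold pc_h12
  have h1 : res (Ac β N r) (res (fun k => z ≤ uu β k ∧ uu β k < z') (res (In5 β) a)) =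
      res (fun k => -6 + 12 * (r : ℝ) / N ≤ tt β k ∧ tt β k < -6 + 12 * ((r : ℝ) + 1) / N)
        (res (fun k => z ≤ uu β k ∧ uu β k < z') (res (In5 β) a)) := by
    refine res_congr fun x hx => ?_
    rw [mem_res, mem_res] at hx
    exact Ac_iff hN (tt_ge_h12 (ha x hx.1.1) hx.1.2)
  rw [h1]
  have h2 := n6_res_t hv (a := res (fun k => z ≤ uu β k ∧ uu β k < z') (res (In5 β) a)) (β := β)
    (fun x hx => by
      rw [mem_res, mem_res] at hx
      exact ha x hx.1.1)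
    (-6 + 12 * (r : ℝ) / N) (-6 + 12 * ((r : ℝ) + 1) / N)
  have h3 := n6_res_u hv (res (In5 β) a) β z z'
  have h4 := n6_res_In5 hv a β
  linarith

private lemma win_mem_h12 {β H κ : ℝ} (hH : 1 ≤ H) {N N' r i : ℕ} (hN' : 1 ≤ N') {a : Xp}
    (ha : Win β H κ (tc N i) (12 / (N : ℝ)) a) {z z' : ℝ} (hne : pc_h12 β N' r z z' a ≠ 0) :
    |tc N i - tc N' r| ≤ 12 * H ^ κ / N + 6 / N' := by
  obtain ⟨x, hx⟩ := Finsupp.support_nonempty_iff.mpr hne
  unfold pc_h12 at hx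
  rw [mem_res, mem_res, mem_res] at hx
  obtain ⟨⟨⟨hx, h5⟩, _⟩, hA⟩ := hx
  obtain ⟨hu, _, ht, _⟩ := ha x hx
  have hu0 : 0 < uu β x.1 := lt_of_lt_of_le (Real.rpow_pos_of_pos (by linarith) _) hu
  rw [Ac_iff hN' (tt_ge_h12 hu0 h5)] at hA
  have e1 : tc N' r = -6 + 12 * (r : ℝ) / N' + 6 / N' := by
    unfold tc
    ring
  have e2 : -6 + 12 * ((r : ℝ) + 1) / N' = -6 + 12 * (r : ℝ) / N' + 6 / N' + 6 / (N' : ℝ) := by ring
  have h1 : |tt β x.1 - tc N' r| ≤ 6 / N' := by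
    rw [e1, abs_le]
    rw [e2] at hA
    constructor
    · linarith [hA.1]
    · linarith [hA.2]
  have e3 : H ^ κ * (12 / (N : ℝ)) = 12 * H ^ κ / N := by ring
  rw [e3] at ht
  calc |tc N i - tc N' r| = |-(tt β x.1 - tc N i) + (tt β x.1 - tc N' r)| := by
        congr 1
        ring
    _ ≤ |-(tt β x.1 - tc N i)| + |tt β x.1 - tc N' r| := abs_add_le _ _
    _ ≤ 12 * H ^ κ / N + 6 / N' := by
        rw [abs_neg]
        exact add_le_add ht h1

/-- the sum over all arcs of one slab -/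
private lemma slab_h12 {β H κ X : ℝ} (hH : 1 ≤ H) {v : ℝ → ℝ} (hv : IsWt X v) {N N' : ℕ} (hN : 1 ≤ N)
    (hN' : 1 ≤ N') {a : ℕ → Xp} (ha : ∀ i < N, Win β H κ (tc N i) (12 / (N : ℝ)) (a i)) (z z' K : ℝ)
    (hK : 1 + 2 * H ^ κ + (N : ℝ) / N' ≤ K) (h8 : (N' : ℝ) * (8 * H ^ κ) ≤ N) :
    ∑ r ∈ Finset.range N', n6 (mu v) (xp (pc_h12 β N' r z z' (∑ i ∈ Finset.range N, a i))) ≤
      K ^ 2 * (14 ^ 12 * (3 * ∑ i ∈ Finset.range N, n6 (mu v) (xp (a i)))) := by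
  classical
  have hN0 : (0 : ℝ) < N := by exact_mod_cast hN
  have hN'0 : (0 : ℝ) < N' := by exact_mod_cast hN'
  have hHk : 0 < H ^ κ := Real.rpow_pos_of_pos (by linarith) _
  set ρ : ℝ := 12 * H ^ κ / N + 6 / N' with hρ
  have hρ0 : 0 ≤ ρ := by positivity
  set I : ℕ → Finset ℕ := fun r => (Finset.range N).filter fun i => |tc N i - tc N' r| ≤ ρ with hI
  have hpos : ∀ i < N, ∀ x ∈ (a i).support, 0 < uu β x.1 := fun i hi x hx =>
    lt_of_lt_of_le (Real.rpow_pos_of_pos (by linarith) _) (ha i hi x hx).1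
  have hcard : ∀ r, ((I r).card : ℝ) ≤ K := by
    intro r
    have h1 := tc_card hN (tc N' r) ρ hρ0 (I r) (fun i hi => (Finset.mem_filter.mp hi).2)
    refine h1.trans (le_trans (le_of_eq ?_) hK)
    rw [hρ]
    field_simp
    ring
  have h1 : ∀ r, pc_h12 β N' r z z' (∑ i ∈ Finset.range N, a i) =
      ∑ i ∈ I r, pc_h12 β N' r z z' (a i) := by
    intro r
    rw [pc_sum_h12]
    symm
    refine Finset.sum_subset (Finset.filter_subset _ _) fun i hi hni => ?_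
    by_contra hne
    exact hni (Finset.mem_filter.mpr ⟨hi, win_mem_h12 hH hN' (ha i (Finset.mem_range.mp hi)) hne⟩)
  have h2 : ∀ r, n6 (mu v) (xp (pc_h12 β N' r z z' (∑ i ∈ Finset.range N, a i))) ≤
      K ^ 2 * (14 ^ 12 * ∑ i ∈ I r, n6 (mu v) (xp (a i))) := by
    intro r
    rw [h1 r]
    refine (n6_sum_xp hv (I r) _).trans ?_
    refine mul_le_mul (pow_le_pow_left₀ (Nat.cast_nonneg _) (hcard r) 2) ?_
      (Finset.sum_nonneg fun i _ => n6_nonneg_h12 _) (sq_nonneg _)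
    rw [Finset.mul_sum]
    refine Finset.sum_le_sum fun i hi => ?_
    exact mult_h12 hv (hpos i (Finset.mem_range.mp (Finset.mem_filter.mp hi).1)) hN' z z'
  refine (Finset.sum_le_sum fun r _ => h2 r).trans ?_
  rw [← Finset.mul_sum]
  refine mul_le_mul_of_nonneg_left ?_ (sq_nonneg _)
  rw [← Finset.mul_sum]
  refine mul_le_mul_of_nonneg_left ?_ (by norm_num)
  have h3 : ∀ r, ∑ i ∈ I r, n6 (mu v) (xp (a i)) =
      ∑ i ∈ Finset.range N, if |tc N i - tc N' r| ≤ ρ then n6 (mu v) (xp (a i)) else 0 := by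
    intro r
    rw [hI]
    exact Finset.sum_filter _ _
  simp_rw [h3]
  rw [Finset.sum_comm, Finset.mul_sum]
  refine Finset.sum_le_sum fun i _ => ?_
  rw [← Finset.sum_filter, Finset.sum_const, nsmul_eq_mul]
  refine mul_le_mul_of_nonneg_right ?_ (n6_nonneg_h12 _)
  have h4 := tc_card hN' (tc N i) ρ hρ0 ((Finset.range N').filter fun r => |tc N i - tc N' r| ≤ ρ)
    (fun r hr => by
      rw [abs_sub_comm]
      exact (Finset.mem_filter.mp hr).2)
  refine h4.trans ?_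
  have h5 : 2 * ρ * N' / 12 = 2 * (N' * H ^ κ / N) + 1 := by
    rw [hρ]
    field_simp
    ring
  have h6 : (N' : ℝ) * H ^ κ / N ≤ 1 / 8 := by
    rw [div_le_iff₀ hN0]
    linarith
  rw [h5]
  linarith

theorem win_dec {κ : ℝ} (hκ : 0 < κ) (hκ1 : κ ≤ 1 / 100) : ∃ C : ℝ, 0 < C ∧
    ∀ (β H X : ℝ) (v : ℝ → ℝ) (N : ℕ) (a : ℕ → Xp), |β| ≤ 1 / 2 → 1 ≤ H → IsWt X v → 1 ≤ N → (N : ℝ) ≤ H ^ (5 / 2 : ℝ) →
      1 / X ≤ H ^ (1 + κ) * (12 / (N : ℝ)) ^ 2 → (∀ i < N, Win β H κ (tc N i) (12 / (N : ℝ)) (a i)) →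
      n6 (mu v) (xp (res (In5 β) (∑ i ∈ Finset.range N, a i))) ≤
        C * H ^ (20 * κ) * ∑ i ∈ Finset.range N, n6 (mu v) (xp (a i)) := by
  obtain ⟨M, N₁, hM, hN₁, C₁, hC₁, hdec⟩ := dec_xp hκ
  have hM0 : (0 : ℝ) < M := by
    have : 0 < M := by omega
    exact_mod_cast this
  have hC1 : (0 : ℝ) < C₁ := by linarith
  have hc : (0 : ℝ) < 4 / κ + 1 := by positivity
  refine ⟨14 ^ 4 * 64 + (4 / κ + 1) ^ 3 * C₁ * (3 + 8 * (M : ℝ) ^ N₁) ^ 2 * (14 ^ 12 * 3), by positivity, ?_⟩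
  intro β H X v N a hβ hH hv hN hNH hX ha
  have hH0 : 0 < H := by linarith
  have hN0 : (0 : ℝ) < N := by exact_mod_cast hN
  set S := ∑ i ∈ Finset.range N, n6 (mu v) (xp (a i)) with hS
  have hS0 : 0 ≤ S := Finset.sum_nonneg fun i _ => n6_nonneg_h12 _
  set Hk : ℝ := H ^ κ with hHk
  have hHk1 : 1 ≤ Hk := Real.one_le_rpow hH hκ.le
  have hHk0 : 0 < Hk := by linarith
  have hHk20 : H ^ (20 * κ) = Hk ^ 20 := by
    rw [hHk, ← Real.rpow_natCast, ← Real.rpow_mul hH0.le]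
    congr 1
    push_cast
    ring
  rw [hHk20]
  have hpow : ∀ p : ℕ, p ≤ 20 → Hk ^ p ≤ Hk ^ 20 := fun p hp => pow_le_pow_right₀ hHk1 hp
  have hB0 : 0 ≤ (4 / κ + 1) ^ 3 * C₁ * (3 + 8 * (M : ℝ) ^ N₁) ^ 2 * (14 ^ 12 * 3) := by positivity
  rcases lt_or_ge (N : ℝ) (8 * Hk) with hsm | hbig
  · -- the trivial bound
    have h1 := n6_res_In5 hv (∑ i ∈ Finset.range N, a i) β
    have h2 := n6_sum_xp hv (Finset.range N) a
    rw [Finset.card_range, ← hS] at h2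
    have h3 : (N : ℝ) ^ 2 ≤ 64 * Hk ^ 20 := by
      calc (N : ℝ) ^ 2 ≤ (8 * Hk) ^ 2 := pow_le_pow_left₀ hN0.le hsm.le 2
        _ = 64 * Hk ^ 2 := by ring
        _ ≤ 64 * Hk ^ 20 := mul_le_mul_of_nonneg_left (hpow 2 (by norm_num)) (by norm_num)
    calc n6 (mu v) (xp (res (In5 β) (∑ i ∈ Finset.range N, a i)))
        ≤ 14 ^ 4 * ((N : ℝ) ^ 2 * S) := h1.trans (mul_le_mul_of_nonneg_left h2 (by norm_num))
      _ ≤ 14 ^ 4 * (64 * Hk ^ 20 * S) :=
          mul_le_mul_of_nonneg_left (mul_le_mul_of_nonneg_right h3 hS0) (by norm_num)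
      _ = (14 ^ 4 * 64 + 0) * Hk ^ 20 * S := by ring
      _ ≤ _ := by
          refine mul_le_mul_of_nonneg_right (mul_le_mul_of_nonneg_right ?_ (by positivity)) hS0
          exact add_le_add le_rfl hB0
  · -- the main case
    have hMN : (1 : ℝ) < (M : ℝ) ^ N₁ := by
      refine one_lt_pow₀ ?_ (by omega)
      have : (36 : ℝ) ≤ M := by exact_mod_cast hM
      linarith
    have hY : 1 ≤ (N : ℝ) / (8 * Hk) := by
      rw [le_div_iff₀ (by positivity)]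
      linarith
    obtain ⟨m, hm1, hm2⟩ := exists_nat_pow_near hY hMN
    rw [le_div_iff₀ (by positivity)] at hm1
    rw [div_lt_iff₀ (by positivity)] at hm2
    have hN'eq : ((M ^ (N₁ * m) : ℕ) : ℝ) = ((M : ℝ) ^ N₁) ^ m := by
      push_cast
      rw [pow_mul]
    set N' : ℕ := M ^ (N₁ * m) with hN'
    have hN'1 : 1 ≤ N' := Nat.one_le_pow _ _ (by omega)
    have hN'0 : (0 : ℝ) < N' := by exact_mod_cast hN'1
    rw [← hN'eq] at hm1
    have hm2' : (N : ℝ) < (N' : ℝ) * (M : ℝ) ^ N₁ * (8 * Hk) := by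
      rw [hN'eq, ← pow_succ]
      exact hm2
    have hMp : (0 : ℝ) < (M : ℝ) ^ N₁ := by positivity
    -- the numbers
    have hG0 : 0 < H ^ (1 - κ) := Real.rpow_pos_of_pos hH0 _
    have hG1 : 1 ≤ H ^ (1 - κ) := Real.one_le_rpow hH (by linarith)
    have hGk : H ^ (1 + κ) = H ^ (1 - κ) * Hk ^ 2 := by
      rw [hHk, ← Real.rpow_natCast, ← Real.rpow_mul hH0.le, ← Real.rpow_add hH0]
      congr 1
      push_cast
      ring
    have hG3 : H ^ (5 / 2 : ℝ) ≤ (H ^ (1 - κ)) ^ 3 := by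
      rw [← Real.rpow_natCast, ← Real.rpow_mul hH0.le]
      refine Real.rpow_le_rpow_of_exponent_le hH ?_
      push_cast
      linarith
    have hKb : 1 + 2 * H ^ κ + (N : ℝ) / N' ≤ (3 + 8 * (M : ℝ) ^ N₁) * Hk := by
      have h1 : (N : ℝ) / N' ≤ 8 * (M : ℝ) ^ N₁ * Hk := by
        rw [div_le_iff₀ hN'0]
        linarith
      rw [← hHk]
      linarith
    set L : ℕ := ⌊2 * (Real.log H / Real.log 2)⌋₊ + 1 with hL
    have hlog2 : (1 : ℝ) / 2 ≤ Real.log 2 := by linarith [Real.log_two_gt_d9]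
    have hlogH : 0 ≤ Real.log H := Real.log_nonneg hH
    have hLle : (L : ℝ) ≤ (4 / κ + 1) * Hk := by
      have h1 : (⌊2 * (Real.log H / Real.log 2)⌋₊ : ℝ) ≤ 2 * (Real.log H / Real.log 2) :=
        Nat.floor_le (by positivity)
      have h2 : Real.log H ≤ Hk / κ := Real.log_le_rpow_div hH0.le hκ
      have h3 : Real.log H / Real.log 2 ≤ 2 * Real.log H := by
        rw [div_le_iff₀ (by linarith)]
        nlinarith
      have h4 : 2 * (Real.log H / Real.log 2) ≤ 4 * (Hk / κ) := by linarith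
      have h5 : (4 / κ + 1) * Hk = 4 * (Hk / κ) + Hk := by ring
      rw [hL, h5]
      push_cast
      linarith
    have hL2 : ∀ n < L, (2 : ℝ) ^ n ≤ H ^ 2 := by
      intro n hn
      have h1 : n ≤ ⌊2 * (Real.log H / Real.log 2)⌋₊ := by omega
      rw [Nat.le_floor_iff (by positivity)] at h1
      have h2 : (n : ℝ) * Real.log 2 ≤ 2 * Real.log H := by
        have h3 : (n : ℝ) * Real.log 2 ≤ 2 * (Real.log H / Real.log 2) * Real.log 2 :=
          mul_le_mul_of_nonneg_right h1 (by linarith)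
        rw [mul_assoc, div_mul_cancel₀ _ (by linarith : Real.log 2 ≠ 0)] at h3
        exact h3
      have h4 : Real.log ((2 : ℝ) ^ n) ≤ Real.log (H ^ 2) := by
        rw [Real.log_pow, Real.log_pow]
        push_cast
        exact h2
      exact (Real.log_le_log_iff (by positivity) (by positivity)).mp h4
    have hLlt : ∀ (u : ℝ) (n : ℕ), u ≤ H ^ (1 + κ) → (2 : ℝ) ^ n ≤ u → n < L := by
      intro u n hu hn
      have h1 : (2 : ℝ) ^ n ≤ H ^ (2 : ℝ) :=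
        (hn.trans hu).trans (Real.rpow_le_rpow_of_exponent_le hH (by linarith))
      have h2 : (n : ℝ) * Real.log 2 ≤ 2 * Real.log H := by
        have h3 := Real.log_le_log (by positivity) h1
        rw [Real.log_pow, Real.log_rpow hH0] at h3
        exact h3
      have h4 : (n : ℝ) ≤ 2 * (Real.log H / Real.log 2) := by
        rw [← mul_div_assoc, le_div_iff₀ (by linarith)]
        exact h2
      have h5 : n ≤ ⌊2 * (Real.log H / Real.log 2)⌋₊ := Nat.le_floor h4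
      omega
    -- the facts about the support
    set A : Xp := res (In5 β) (∑ i ∈ Finset.range N, a i) with hA
    have hsupp : ∀ x ∈ A.support, H ^ (1 - κ) ≤ uu β x.1 ∧ uu β x.1 ≤ H ^ (1 + κ) ∧
        |(x.1.2 : ℝ)| ≤ 11 / 2 * uu β x.1 ∧ |x.2 - ph β x.1| ≤ H ^ (1 + κ) * (12 / (N : ℝ)) ^ 2 := by
      intro x hx
      rw [hA, mem_res] at hx
      obtain ⟨i, hi, hxi⟩ := supp_sum_h12 hx.1
      obtain ⟨h1, h2, _, h4⟩ := ha i (Finset.mem_range.mp hi) x hxi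
      exact ⟨h1, h2, hx.2, h4⟩
    set P : ℕ → ℤ × ℤ → Prop := fun n k => (2 : ℝ) ^ n ≤ uu β k ∧ uu β k < 2 ^ (n + 1) with hP
    have hsplit : A = ∑ n ∈ Finset.range L, res (P n) A := by
      refine split_h12 L P fun x hx => ?_
      obtain ⟨h1, h2, _, _⟩ := hsupp x hx
      obtain ⟨n, hn1, hn2⟩ := exists_nat_pow_near (hG1.trans h1) (one_lt_two : (1 : ℝ) < 2)
      refine ⟨n, hLlt _ n h2 hn1, fun q => ⟨fun hq => ?_, fun hq => ?_⟩⟩
      · have hq' : (2 : ℝ) ^ q ≤ uu β x.1 ∧ uu β x.1 < 2 ^ (q + 1) := hq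
        by_contra hne
        rcases Nat.lt_or_gt_of_ne hne with h | h
        · have h3 : (2 : ℝ) ^ (q + 1) ≤ 2 ^ n := pow_le_pow_right₀ (by norm_num) h
          linarith [hq'.2]
        · have h3 : (2 : ℝ) ^ (n + 1) ≤ 2 ^ q := pow_le_pow_right₀ (by norm_num) h
          linarith [hq'.1]
      · rw [hq]
        exact ⟨hn1, hn2⟩
    -- one slab
    have hone : ∀ n < L, n6 (mu v) (xp (res (P n) A)) ≤
        C₁ * Hk ^ 2 * (((3 + 8 * (M : ℝ) ^ N₁) * Hk) ^ 2 * (14 ^ 12 * (3 * S))) := by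
      intro n hn
      have hRn : 0 ≤ C₁ * Hk ^ 2 * (((3 + 8 * (M : ℝ) ^ N₁) * Hk) ^ 2 * (14 ^ 12 * (3 * S))) := by
        positivity
      rcases le_or_gt ((2 : ℝ) ^ (n + 1)) (H ^ (1 - κ)) with hsm | hlg
      · have h0 : res (P n) A = 0 := by
          refine res_zero_h12 fun x hx hPx => ?_
          have h1 : (2 : ℝ) ^ n ≤ uu β x.1 ∧ uu β x.1 < 2 ^ (n + 1) := hPx
          linarith [(hsupp x hx).1, h1.2]
        rw [h0, n6_zero_h12]
        exact hRn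
      · have hH'1 : (1 : ℝ) ≤ 2 ^ n := one_le_pow₀ (by norm_num)
        have hH'G : H ^ (1 - κ) / 2 ≤ (2 : ℝ) ^ n := by
          rw [pow_succ] at hlg
          linarith
        have hδ0 : 0 ≤ H ^ (1 + κ) * (12 / (N : ℝ)) ^ 2 := by positivity
        have hTol : Tol β ((2 : ℝ) ^ n) (H ^ (1 + κ) * (12 / (N : ℝ)) ^ 2) (res (P n) A) := by
          intro x hx
          rw [mem_res] at hx
          obtain ⟨h1, h2, h3, h4⟩ := hsupp x hx.1
          have h5 : (2 : ℝ) ^ n ≤ uu β x.1 ∧ uu β x.1 < 2 ^ (n + 1) := hx.2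
          have h6 : (0 : ℝ) < 2 ^ n := by positivity
          refine ⟨⟨by linarith [h5.1], ?_, h3⟩, h4⟩
          have h7 := h5.2
          rw [pow_succ] at h7
          linarith
        have hcond : 1 / X + 6 * (H ^ (1 + κ) * (12 / (N : ℝ)) ^ 2) ≤
            (2 : ℝ) ^ n * (12 / (M : ℝ) ^ (N₁ * m)) ^ 2 := by
          have e1 : (M : ℝ) ^ (N₁ * m) = (N' : ℝ) := by
            rw [hN'eq, pow_mul]
          rw [e1]
          have h1 : 8 * Hk * (12 / (N : ℝ)) ≤ 12 / (N' : ℝ) := by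
            rw [← mul_div_assoc, div_le_div_iff₀ hN0 hN'0]
            nlinarith
          have h2 : (8 * Hk * (12 / (N : ℝ))) ^ 2 ≤ (12 / (N' : ℝ)) ^ 2 :=
            pow_le_pow_left₀ (by positivity) h1 2
          have h3 : H ^ (1 - κ) / 2 * (8 * Hk * (12 / (N : ℝ))) ^ 2 ≤
              (2 : ℝ) ^ n * (12 / (N' : ℝ)) ^ 2 :=
            mul_le_mul hH'G h2 (by positivity) (by positivity)
          have h4 : H ^ (1 - κ) / 2 * (8 * Hk * (12 / (N : ℝ))) ^ 2 =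
              32 * (H ^ (1 + κ) * (12 / (N : ℝ)) ^ 2) := by
            rw [hGk]
            ring
          linarith
        have hcub : (M : ℝ) ^ (N₁ * m) ≤ ((2 : ℝ) ^ n) ^ 3 := by
          have e1 : (M : ℝ) ^ (N₁ * m) = (N' : ℝ) := by
            rw [hN'eq, pow_mul]
          rw [e1]
          have h1 : (N' : ℝ) * 8 ≤ N := by nlinarith
          have h2 : (H ^ (1 - κ) / 2) ^ 3 ≤ ((2 : ℝ) ^ n) ^ 3 :=
            pow_le_pow_left₀ (by positivity) hH'G 3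
          have h3 : (H ^ (1 - κ) / 2) ^ 3 = (H ^ (1 - κ)) ^ 3 / 8 := by ring
          linarith
        have h1 := hdec m β ((2 : ℝ) ^ n) X _ v (res (P n) A) hH'1 hδ0 hv hTol hcond hcub
        have h2 := slab_h12 hH hv hN hN'1 ha ((2 : ℝ) ^ n) ((2 : ℝ) ^ (n + 1)) _ hKb hm1
        have h3 : ∑ r ∈ Finset.range (M ^ (N₁ * m)),
            n6 (mu v) (xp (res (Ac β (M ^ (N₁ * m)) r) (res (P n) A))) =
            ∑ r ∈ Finset.range N', n6 (mu v)
              (xp (pc_h12 β N' r ((2 : ℝ) ^ n) ((2 : ℝ) ^ (n + 1)) (∑ i ∈ Finset.range N, a i))) := rfl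
        rw [h3] at h1
        have h4 : ((2 : ℝ) ^ n) ^ κ ≤ Hk ^ 2 := by
          calc ((2 : ℝ) ^ n) ^ κ ≤ (H ^ 2) ^ κ :=
                Real.rpow_le_rpow (by positivity) (hL2 n hn) hκ.le
            _ = Hk ^ 2 := by
                rw [hHk, ← Real.rpow_natCast, ← Real.rpow_natCast, ← Real.rpow_mul hH0.le,
                  ← Real.rpow_mul hH0.le]
                congr 1
                ring
        refine h1.trans ?_
        refine mul_le_mul (mul_le_mul_of_nonneg_left h4 hC1.le) h2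
          (Finset.sum_nonneg fun i _ => n6_nonneg_h12 _) (by positivity)
    -- assembly
    have h1 : n6 (mu v) (xp A) ≤ (L : ℝ) ^ 2 * ∑ n ∈ Finset.range L, n6 (mu v) (xp (res (P n) A)) := by
      have h2 := n6_sum_xp hv (Finset.range L) fun n => res (P n) A
      rw [← hsplit, Finset.card_range] at h2
      exact h2
    have h2 : ∑ n ∈ Finset.range L, n6 (mu v) (xp (res (P n) A)) ≤
        L * (C₁ * Hk ^ 2 * (((3 + 8 * (M : ℝ) ^ N₁) * Hk) ^ 2 * (14 ^ 12 * (3 * S)))) := by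
      have h3 := Finset.sum_le_card_nsmul (Finset.range L) _ _
        (fun n hn => hone n (Finset.mem_range.mp hn))
      rw [Finset.card_range, nsmul_eq_mul] at h3
      exact h3
    have hT0 : 0 ≤ C₁ * Hk ^ 2 * (((3 + 8 * (M : ℝ) ^ N₁) * Hk) ^ 2 * (14 ^ 12 * (3 * S))) := by
      positivity
    calc n6 (mu v) (xp A)
        ≤ (L : ℝ) ^ 2 * (L * (C₁ * Hk ^ 2 *
            (((3 + 8 * (M : ℝ) ^ N₁) * Hk) ^ 2 * (14 ^ 12 * (3 * S))))) :=
          h1.trans (mul_le_mul_of_nonneg_left h2 (sq_nonneg _))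
      _ = (L : ℝ) ^ 3 * (C₁ * Hk ^ 2 *
            (((3 + 8 * (M : ℝ) ^ N₁) * Hk) ^ 2 * (14 ^ 12 * (3 * S)))) := by ring
      _ ≤ ((4 / κ + 1) * Hk) ^ 3 * (C₁ * Hk ^ 2 *
            (((3 + 8 * (M : ℝ) ^ N₁) * Hk) ^ 2 * (14 ^ 12 * (3 * S)))) :=
          mul_le_mul_of_nonneg_right (pow_le_pow_left₀ (Nat.cast_nonneg _) hLle 3) hT0
      _ = (4 / κ + 1) ^ 3 * C₁ * (3 + 8 * (M : ℝ) ^ N₁) ^ 2 * (14 ^ 12 * 3) * Hk ^ 7 * S := by ring
      _ ≤ (14 ^ 4 * 64 + (4 / κ + 1) ^ 3 * C₁ * (3 + 8 * (M : ℝ) ^ N₁) ^ 2 * (14 ^ 12 * 3)) *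
            Hk ^ 20 * S := by
          refine mul_le_mul_of_nonneg_right (mul_le_mul ?_ (hpow 7 (by norm_num)) (by positivity)
            (by positivity)) hS0
          linarith

end Pool.Agent.Helper76.GS
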