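import Pool.Agent.Helper76.GS.A1
import Pool.Agent.Helper76.GS.B1

/-!
# GS-B4: frequencies of a window times a cutoff

PROOF. Let `x ∈ (mx a b).support`, `x = y + z` (`mx_supp`), `y = (k, ph β k)`, `z = (l, τ)`. Write `u = uu β k`, `t = tt β k`, `K = k + l`, `U = uu β K = u + uu β l`, `T = tt β K`. `|uu β l| ≤ H^(1-2ε) ≤ u/2` (`u ≥ H^(1-ε)`, `H^ε ≥ 2`),
so `u/2 ≤ U ≤ 2u` and `H^(1-10ε) ≤ U ≤ H^(1+10ε)`. `K.2 = u t + l.2`, `l.2 = t₀ uu β l + y'`, `|y'| ≤ H^(1-2ε) s`: `T - t₀ = (u (t - t₀) + y')/U`, `|T - t₀| ≤ 2 |t - t₀| + 2 H^(1-2ε) s/H^(1-ε) ≤ 2 (5 s) + s = 11 s`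
(`|t - t₀| ≤ |t - t₁| + |t₁ - t₀| ≤ 5s`), `|T - t₁| ≤ 12 s ≤ H^(10ε) s`. Phase: `Lin(k) := 2 t₀ k.2 - t₀² uu β k` is additive and `ph β k = Lin k + u (t - t₀)²` (for `u ≠ 0`: `k.2² / u = u t²`), so
`x.2 - ph β K = u (t - t₀)² + (τ - Lin l) - U (T - t₀)²`, absolute value `≤ H^(1+ε) 25 s² + H^(1-2ε) s² + 2 H^(1+ε) 121 s² ≤ H^(1+10ε) s²`.
-/

open MeasureTheory Real Set Filter Topology

set_option autoImplicit false

namespace Pool.Agent.Helper76.GS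

open Pool.Agent.Helper22.AE
open Pool.Agent.Helper22.AC (n6 IsWt mu)
open Pool.Agent.Helper92.GC

private lemma core_h17 {u kk ul l2 τ t₀ t₁ s A B D A' B' h : ℝ} (hA : 0 < A) (hB : 0 ≤ B) (hs : 0 < s)
    (hu1 : A ≤ u) (hu2 : u ≤ B) (hD : D ≤ A / 2) (hA' : A' ≤ A / 2) (hB' : 210 * B ≤ B') (hh : 12 ≤ h)
    (ht : |kk / u - t₁| ≤ 4 * s) (h01 : |t₀ - t₁| ≤ s) (hl : |ul| ≤ D) (hl2 : |l2 - t₀ * ul| ≤ D * s)
    (hτ : |τ - (2 * t₀ * l2 - t₀ ^ 2 * ul)| ≤ D * s ^ 2) :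
    A' ≤ u + ul ∧ u + ul ≤ B' ∧ |(kk + l2) / (u + ul) - t₁| ≤ h * s ∧
      |kk ^ 2 / u + τ - (kk + l2) ^ 2 / (u + ul)| ≤ B' * s ^ 2 := by
  have hu0 : 0 < u := by linarith
  have hDu : D ≤ u / 2 := by linarith
  have hul := abs_le.1 (hl.trans hDu)
  have hU1 : u / 2 ≤ u + ul := by linarith [hul.1]
  have hU2 : u + ul ≤ 3 / 2 * u := by linarith [hul.2]
  have hU0 : 0 < u + ul := by linarith
  have htt : |kk / u - t₀| ≤ 5 * s := by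
    have e1 : kk / u - t₀ = (kk / u - t₁) - (t₀ - t₁) := by ring
    rw [e1]
    refine (abs_sub _ _).trans ?_
    linarith
  have hT : |(kk + l2) / (u + ul) - t₀| ≤ 11 * s := by
    have e1 : (kk + l2) / (u + ul) - t₀ = (u * (kk / u - t₀) + (l2 - t₀ * ul)) / (u + ul) := by
      field_simp
      ring
    rw [e1, abs_div, abs_of_pos hU0, div_le_iff₀ hU0]
    refine (abs_add_le _ _).trans ?_
    rw [abs_mul, abs_of_pos hu0]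
    have e2 : u * |kk / u - t₀| ≤ u * (5 * s) := mul_le_mul_of_nonneg_left htt hu0.le
    have e3 : D * s ≤ u / 2 * s := mul_le_mul_of_nonneg_right hDu hs.le
    have e4 : 11 * s * (u / 2) ≤ 11 * s * (u + ul) := mul_le_mul_of_nonneg_left hU1 (by positivity)
    linarith
  refine ⟨by linarith, by linarith, ?_, ?_⟩
  · have e1 : (kk + l2) / (u + ul) - t₁ = ((kk + l2) / (u + ul) - t₀) + (t₀ - t₁) := by ring
    rw [e1]
    refine (abs_add_le _ _).trans ?_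
    have e2 : 12 * s ≤ h * s := mul_le_mul_of_nonneg_right hh hs.le
    linarith
  · have e1 : kk ^ 2 / u + τ - (kk + l2) ^ 2 / (u + ul) = u * (kk / u - t₀) ^ 2 +
        (τ - (2 * t₀ * l2 - t₀ ^ 2 * ul)) - (u + ul) * ((kk + l2) / (u + ul) - t₀) ^ 2 := by
      field_simp
      ring
    rw [e1]
    have s0 : 0 ≤ s ^ 2 := sq_nonneg s
    have n1 : (kk / u - t₀) ^ 2 ≤ 25 * s ^ 2 := by
      rw [← sq_abs]
      calc |kk / u - t₀| ^ 2 ≤ (5 * s) ^ 2 := pow_le_pow_left₀ (abs_nonneg _) htt 2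
        _ = 25 * s ^ 2 := by ring
    have n2 : ((kk + l2) / (u + ul) - t₀) ^ 2 ≤ 121 * s ^ 2 := by
      rw [← sq_abs]
      calc |(kk + l2) / (u + ul) - t₀| ^ 2 ≤ (11 * s) ^ 2 := pow_le_pow_left₀ (abs_nonneg _) hT 2
        _ = 121 * s ^ 2 := by ring
    have m1 : u * (kk / u - t₀) ^ 2 ≤ B * (25 * s ^ 2) := mul_le_mul hu2 n1 (sq_nonneg _) hB
    have m1' : 0 ≤ u * (kk / u - t₀) ^ 2 := by positivity
    have m2 : (u + ul) * ((kk + l2) / (u + ul) - t₀) ^ 2 ≤ (3 / 2 * B) * (121 * s ^ 2) :=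
      mul_le_mul (by linarith) n2 (sq_nonneg _) (by positivity)
    have m2' : 0 ≤ (u + ul) * ((kk + l2) / (u + ul) - t₀) ^ 2 := by positivity
    have m3 := abs_le.1 hτ
    have m4 : D * s ^ 2 ≤ B * s ^ 2 := mul_le_mul_of_nonneg_right (by linarith) s0
    have m5 : 210 * B * s ^ 2 ≤ B' * s ^ 2 := mul_le_mul_of_nonneg_right hB' s0
    have m6 : 0 ≤ B * s ^ 2 := by positivity
    rw [abs_le]
    constructor <;> linarith [m3.1, m3.2]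

private lemma exps_h17 {ε H : ℝ} (hH0 : 0 < H) (hHε : 2 ≤ H ^ ε) :
    H ^ (1 - 2 * ε) ≤ H ^ (1 - ε) / 2 ∧ H ^ (1 - 10 * ε) ≤ H ^ (1 - ε) / 2 ∧
      210 * H ^ (1 + ε) ≤ H ^ (1 + 10 * ε) ∧ 12 ≤ H ^ (10 * ε) := by
  have hA : 0 < H ^ (1 - 10 * ε) := rpow_pos_of_pos hH0 _
  have hA2 : 0 < H ^ (1 - 2 * ε) := rpow_pos_of_pos hH0 _
  have hB : 0 < H ^ (1 + ε) := rpow_pos_of_pos hH0 _
  have e1 : H ^ (1 - ε) = H ^ ε * H ^ (1 - 2 * ε) := by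
    rw [← rpow_add hH0]
    congr 1
    ring
  have e9 : H ^ (9 * ε) = (H ^ ε) ^ 9 := by
    rw [← rpow_natCast, ← rpow_mul hH0.le]
    congr 1
    push_cast
    ring
  have e10 : H ^ (10 * ε) = (H ^ ε) ^ 10 := by
    rw [← rpow_natCast, ← rpow_mul hH0.le]
    congr 1
    push_cast
    ring
  have n9 : 512 ≤ H ^ (9 * ε) := by
    rw [e9]
    calc (512 : ℝ) = 2 ^ 9 := by norm_num
      _ ≤ (H ^ ε) ^ 9 := pow_le_pow_left₀ (by norm_num) hHε 9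
  have n10 : 12 ≤ H ^ (10 * ε) := by
    rw [e10]
    calc (12 : ℝ) ≤ 2 ^ 10 := by norm_num
      _ ≤ (H ^ ε) ^ 10 := pow_le_pow_left₀ (by norm_num) hHε 10
  have e2 : H ^ (1 - ε) = H ^ (9 * ε) * H ^ (1 - 10 * ε) := by
    rw [← rpow_add hH0]
    congr 1
    ring
  have e3 : H ^ (1 + 10 * ε) = H ^ (9 * ε) * H ^ (1 + ε) := by
    rw [← rpow_add hH0]
    congr 1
    ring
  refine ⟨?_, ?_, ?_, n10⟩
  · rw [e1]
    have := mul_le_mul_of_nonneg_right hHε hA2.le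
    linarith
  · rw [e2]
    have := mul_le_mul_of_nonneg_right n9 hA.le
    linarith
  · rw [e3]
    exact mul_le_mul_of_nonneg_right (by linarith) hB.le

private lemma large_h17 {ε H : ℝ} (hε : 0 < ε) (hH : (2 : ℝ) ^ (1 / ε) ≤ H) : 1 ≤ H ∧ 2 ≤ H ^ ε := by
  have h1 : (1 : ℝ) ≤ 2 ^ (1 / ε) := one_le_rpow (by norm_num) (by positivity)
  refine ⟨h1.trans hH, ?_⟩
  calc (2 : ℝ) = ((2 : ℝ) ^ (1 / ε)) ^ ε := by
        rw [← rpow_mul (by norm_num), one_div_mul_cancel hε.ne', rpow_one]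
    _ ≤ H ^ ε := rpow_le_rpow (by positivity) hH hε.le

theorem mx_win {ε : ℝ} (hε : 0 < ε) (hε1 : ε ≤ 1 / 4) : ∃ H₀ : ℝ, 1 ≤ H₀ ∧ ∀ (β H t₀ t₁ s : ℝ) (a b : Xp), |β| ≤ 1 / 2 → H₀ ≤ H → 0 < s →
    |t₀ - t₁| ≤ s → (∀ x ∈ a.support, x.1 ∈ frq β H ε ∧ x.2 = ph β x.1 ∧ |tt β x.1 - t₁| ≤ 4 * s) → Bx β H (2 * ε) t₀ s b →
      Win β H (10 * ε) t₁ s (mx a b) := by
  refine ⟨(2 : ℝ) ^ (1 / ε), one_le_rpow (by norm_num) (by positivity), ?_⟩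
  intro β H t₀ t₁ s a b hβ hH hs h01 ha hb x hx
  obtain ⟨hH1, hHε⟩ := large_h17 hε hH
  have hH0 : 0 < H := by linarith
  obtain ⟨x1, x2, x3, x4⟩ := exps_h17 hH0 hHε
  obtain ⟨y, hy, z, hz, rfl⟩ := mx_supp hx
  obtain ⟨hy1, hy2, hy3⟩ := ha y hy
  obtain ⟨hz1, hz2, hz3⟩ := hb z hz
  obtain ⟨hf1, hf2, _⟩ := (mem_frq hβ).1 hy1
  have hcore := core_h17 (u := uu β y.1) (kk := (y.1.2 : ℝ)) (ul := uu β z.1) (l2 := (z.1.2 : ℝ)) (τ := z.2)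
    (rpow_pos_of_pos hH0 _) (rpow_pos_of_pos hH0 _).le hs hf1 hf2 x1 x2 x3 x4 hy3 h01 hz1 hz2 hz3
  have e1 : uu β (y + z).1 = uu β y.1 + uu β z.1 := by
    unfold uu
    rw [Prod.fst_add, Prod.fst_add, Prod.snd_add]
    push_cast
    ring
  have e2 : (((y + z).1.2 : ℤ) : ℝ) = (y.1.2 : ℝ) + (z.1.2 : ℝ) := by
    rw [Prod.fst_add, Prod.snd_add]
    push_cast
    ring
  have e3 : (y + z).2 = (y.1.2 : ℝ) ^ 2 / uu β y.1 + z.2 := by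
    rw [Prod.snd_add, hy2]
    rfl
  have e4 : tt β (y + z).1 = ((y.1.2 : ℝ) + (z.1.2 : ℝ)) / (uu β y.1 + uu β z.1) := by
    unfold tt
    rw [e1, e2]
  have e5 : ph β (y + z).1 = ((y.1.2 : ℝ) + (z.1.2 : ℝ)) ^ 2 / (uu β y.1 + uu β z.1) := by
    unfold ph
    rw [e1, e2]
  rw [e1, e3, e4, e5]
  exact hcore

theorem win_self {ε : ℝ} (hε : 0 < ε) : ∃ H₀ : ℝ, 1 ≤ H₀ ∧ ∀ (β H t₁ s : ℝ) (a : Xp), |β| ≤ 1 / 2 → H₀ ≤ H → 0 < s →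
    (∀ x ∈ a.support, x.1 ∈ frq β H ε ∧ x.2 = ph β x.1 ∧ |tt β x.1 - t₁| ≤ 4 * s) → Win β H (10 * ε) t₁ s a := by
  refine ⟨(2 : ℝ) ^ (1 / ε), one_le_rpow (by norm_num) (by positivity), ?_⟩
  intro β H t₁ s a hβ hH hs ha x hx
  obtain ⟨hH1, hHε⟩ := large_h17 hε hH
  have hH0 : 0 < H := by linarith
  obtain ⟨_, x2, x3, x4⟩ := exps_h17 hH0 hHε
  obtain ⟨hy1, hy2, hy3⟩ := ha x hx
  obtain ⟨hf1, hf2, _⟩ := (mem_frq hβ).1 hy1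
  have hA : 0 < H ^ (1 - ε) := rpow_pos_of_pos hH0 _
  have hB : 0 < H ^ (1 + ε) := rpow_pos_of_pos hH0 _
  refine ⟨by linarith, by linarith, ?_, ?_⟩
  · refine hy3.trans ?_
    exact mul_le_mul_of_nonneg_right (by linarith) hs.le
  · rw [hy2, sub_self, abs_zero]
    positivity

end Pool.Agent.Helper76.GS
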