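import Pool.Agent.Helper76.GS.B1

/-!
# GS-B2B: the frequencies outside the finite region

PROOF. Write `x = uu β k/H > 0`, `t = tt β k`, `r(x) = x^p e^(-px) = (x e^(-x))^p`, `G(t) = (1/σ) ∫_a^b exp(-π((t-t')/σ)²) dt'`, `wab = r(x) G(t)`; `0 ≤ G ≤ 1`, and for `|t| ≥ 7`: `|t - t'| ≥ |t| - 6 ≥ (1 + |t|)/8`, so
`G(t) ≤ (12/σ) exp(-π (1+|t|)²/(64 σ²))`; with `σ ≤ 1` and `σ ≤ 12 H^(-ε)` this is `≤ C (1+|t|)^(-4)` and for `|t| ≥ 8` also `≤ C H^(-B-3) (1 + |t|)^(-4)` (`y e^(-y²) ≤ C_n y^(-n)`).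
Base sum: `∑_{k : uu β k > 0} e^(-x/4) (1 + |t|)^(-4) ≤ C H³`: with `k.2 = j`, `u = uu β k`: `(1+|t|)^(-4) ≤ (u/(u + |j|))²`; for fixed `j` the values `u` are `1`-separated and positive, so `∑_u e^(-u/(4H)) (u/(u+|j|))² ≤ ∑_{m ≥ 0} e^(-m/(4H)) ((m+1)/(m+1+|j|))²`
`≤ ∑_m e^(-m/(4H)) (m+1)²/(1+|j|²)·4` `≤ C H³/(1+j²)`. This also gives `Summable`. (Any polynomial bound `C H^n` is fine, adapt `p₀`.)
Three parts of the complement of `frq` (`mem_frq`): (1) `x < H^(-ε)`: `r(x) ≤ x^p ≤ H^(-εp/2)... ` precisely `r(x) ≤ H^(-ε(p-1)) x e^(-px)`, `≤ C H^(-ε(p-1)) e^(-x/4)`; `p₀ ≥ (B + 4)/ε + 1`. (2) `x > H^ε`: `x e^(-x) ≤ e^(-x/2)`,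
`r(x) ≤ e^(-px/2) ≤ e^(-x/4) e^(-H^ε/4)` and `e^(-H^ε/4) ≤ C H^(-B-3)`. (3) `|t| > 8`, `H^(-ε) ≤ x ≤ H^ε`: `r ≤ C e^(-x/4)` and the bound for `G`.
-/

open MeasureTheory Real Set Filter Topology

set_option autoImplicit false

namespace Pool.Agent.Helper76.GS

open Pool.Agent.Helper22.AE
open Pool.Agent.Helper22.AC (n6 IsWt mu)
open Pool.Agent.Helper92.GC

/-- polynomial bounds for the exponential function -/
private theorem pexp67 (m : ℕ) : ∃ C : ℝ, 0 < C ∧ ∀ x : ℝ, 0 ≤ x → (1 + x) ^ m * exp (-(x / 2)) ≤ C := by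
  refine ⟨2 ^ m * m.factorial * exp (1 / 2), by positivity, fun x hx => ?_⟩
  have h1 := Real.pow_div_factorial_le_exp ((1 + x) / 2) (by linarith) m
  have h2 : (1 + x) ^ m = 2 ^ m * m.factorial * (((1 + x) / 2) ^ m / m.factorial) := by
    rw [div_pow]
    have : (m.factorial : ℝ) ≠ 0 := by positivity
    field_simp
  have h3 : exp ((1 + x) / 2) * exp (-(x / 2)) = exp (1 / 2) := by
    rw [← exp_add]
    congr 1
    ring
  calc (1 + x) ^ m * exp (-(x / 2))
      = 2 ^ m * m.factorial * (((1 + x) / 2) ^ m / m.factorial) * exp (-(x / 2)) := by rw [← h2]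
    _ ≤ 2 ^ m * m.factorial * exp ((1 + x) / 2) * exp (-(x / 2)) := by
        refine mul_le_mul_of_nonneg_right ?_ (exp_pos _).le
        exact mul_le_mul_of_nonneg_left h1 (by positivity)
    _ = 2 ^ m * m.factorial * exp (1 / 2) := by rw [mul_assoc, h3]

private theorem rb67 {x : ℝ} (hx : 0 ≤ x) {p : ℕ} (hp : 1 ≤ p) :
    x ^ p * exp (-(p * x)) ≤ exp (-(x / 2)) := by
  have h1 : x ≤ exp (x / 2) := by
    have h2 := Real.add_one_le_exp (x / 4)
    have h3 : exp (x / 2) = exp (x / 4) ^ 2 := by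
      rw [← exp_nat_mul]
      congr 1
      push_cast
      ring
    rw [h3]
    have h4 : (x / 4 + 1) ^ 2 ≤ exp (x / 4) ^ 2 := pow_le_pow_left₀ (by linarith) h2 2
    nlinarith only [h4, sq_nonneg (1 - x / 4)]
  have h2 : x * exp (-x) ≤ exp (-(x / 2)) := by
    have h3 : exp (x / 2) * exp (-x) = exp (-(x / 2)) := by
      rw [← exp_add]
      congr 1
      ring
    rw [← h3]
    exact mul_le_mul_of_nonneg_right h1 (exp_pos _).le
  have h4 : x ^ p * exp (-(p * x)) = (x * exp (-x)) ^ p := by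
    rw [mul_pow, ← exp_nat_mul]
    congr 2
    ring
  rw [h4]
  have h5 : (0 : ℝ) ≤ x * exp (-x) := by positivity
  have h6 : exp (-(x / 2)) ≤ 1 := exp_le_one_iff.2 (by linarith)
  calc (x * exp (-x)) ^ p ≤ exp (-(x / 2)) ^ p := pow_le_pow_left₀ h5 h2 p
    _ ≤ exp (-(x / 2)) := pow_le_of_le_one (exp_pos _).le h6 (by omega)

private theorem gauss67 {σ : ℝ} (hσ : 0 < σ) {a b : ℝ} (hab : a ≤ b) (t : ℝ) :
    0 ≤ (∫ t' in a..b, exp (-(π * ((t - t') / σ) ^ 2))) ∧
      1 / σ * (∫ t' in a..b, exp (-(π * ((t - t') / σ) ^ 2))) ≤ 1 := by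
  have hπ := Real.pi_pos
  have hb : 0 < π / σ ^ 2 := by positivity
  have e : (fun t' : ℝ => exp (-(π * ((t - t') / σ) ^ 2))) =
      fun t' => (fun s => exp (-(π / σ ^ 2) * s ^ 2)) (t - t') := by
    funext t'
    simp only
    congr 1
    rw [div_pow]
    ring
  have hint : Integrable (fun t' : ℝ => exp (-(π * ((t - t') / σ) ^ 2))) := by
    rw [e]
    exact (integrable_exp_neg_mul_sq hb).comp_sub_left t
  have hI : ∫ t' : ℝ, exp (-(π * ((t - t') / σ) ^ 2)) = σ := by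
    rw [e, integral_sub_left_eq_self (fun s : ℝ => exp (-(π / σ ^ 2) * s ^ 2)) volume t,
      integral_gaussian]
    have : π / (π / σ ^ 2) = σ ^ 2 := by field_simp
    rw [this, Real.sqrt_sq hσ.le]
  refine ⟨intervalIntegral.integral_nonneg hab fun _ _ => (exp_pos _).le, ?_⟩
  rw [intervalIntegral.integral_of_le hab]
  have h1 := setIntegral_le_integral (s := Ioc a b) hint (ae_of_all _ fun _ => (exp_pos _).le)
  rw [hI] at h1
  rw [one_div, inv_mul_le_iff₀ hσ, mul_one]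
  exact h1

private theorem far67 (n : ℕ) : ∃ C : ℝ, 0 < C ∧ ∀ σ a b t : ℝ, 0 < σ → σ ≤ 1 → -6 ≤ a → a ≤ b → b ≤ 6 →
    7 ≤ |t| → 1 / σ * (∫ t' in a..b, exp (-(π * ((t - t') / σ) ^ 2))) * (1 + |t|) ^ 4 ≤ C * σ ^ n := by
  obtain ⟨C, hC, h⟩ := pexp67 (n + 3)
  refine ⟨12 * 8 ^ 4 * C, by positivity, fun σ a b t hσ hσ1 ha hab hb ht => ?_⟩
  obtain ⟨y, hy⟩ : ∃ y, y = (|t| - 6) / σ := ⟨_, rfl⟩
  have hy1 : 1 ≤ y := by
    rw [hy, le_div_iff₀ hσ]
    linarith
  have hy2 : σ * y = |t| - 6 := by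
    rw [hy]
    field_simp
  have h1 : (∫ t' in a..b, exp (-(π * ((t - t') / σ) ^ 2))) ≤ 12 * exp (-(y ^ 2 / 2)) := by
    have h2 : (∫ t' in a..b, exp (-(π * ((t - t') / σ) ^ 2))) ≤ ∫ _ in a..b, exp (-(y ^ 2 / 2)) := by
      refine intervalIntegral.integral_mono_on hab (Continuous.intervalIntegrable (by fun_prop) _ _)
        (Continuous.intervalIntegrable (by fun_prop) _ _) fun s hs => ?_
      rw [exp_le_exp]
      have h3 : |t| - 6 ≤ |t - s| := by
        have h4 := abs_sub_abs_le_abs_sub t s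
        have hs' : |s| ≤ 6 := abs_le.2 ⟨by linarith [hs.1], by linarith [hs.2]⟩
        linarith
      have h4 : y ≤ |(t - s) / σ| := by
        rw [abs_div, abs_of_pos hσ, hy]
        exact div_le_div_of_nonneg_right h3 hσ.le
      have h5 : y ^ 2 ≤ ((t - s) / σ) ^ 2 := by
        rw [← sq_abs ((t - s) / σ)]
        exact pow_le_pow_left₀ (by linarith) h4 2
      have h6 : (1 : ℝ) ≤ π := by linarith [Real.pi_gt_three]
      have h7 : 1 * ((t - s) / σ) ^ 2 ≤ π * ((t - s) / σ) ^ 2 :=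
        mul_le_mul_of_nonneg_right h6 (sq_nonneg _)
      have h8 := sq_nonneg y
      linarith only [h5, h7, h8]
    refine h2.trans ?_
    rw [intervalIntegral.integral_const, smul_eq_mul]
    exact mul_le_mul_of_nonneg_right (by linarith) (exp_pos _).le
  have h7 := h (y ^ 2) (sq_nonneg y)
  have h8 : (1 + |t|) ^ 4 ≤ 8 ^ 4 * (σ * y) ^ 4 := by
    rw [← mul_pow]
    refine pow_le_pow_left₀ (by positivity) ?_ 4
    rw [hy2]
    linarith
  have h9 : (1 : ℝ) ≤ (σ * y) ^ n := one_le_pow₀ (by rw [hy2]; linarith)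
  have h10 : y ^ (n + 4) ≤ (1 + y ^ 2) ^ (n + 3) := by
    calc y ^ (n + 4) ≤ y ^ (2 * (n + 3)) := pow_le_pow_right₀ hy1 (by omega)
      _ = (y ^ 2) ^ (n + 3) := by rw [pow_mul]
      _ ≤ (1 + y ^ 2) ^ (n + 3) := pow_le_pow_left₀ (sq_nonneg y) (by linarith) _
  have h11 : σ ^ 3 ≤ 1 := pow_le_one₀ hσ.le hσ1
  obtain ⟨e, he⟩ : ∃ e, e = exp (-(y ^ 2 / 2)) := ⟨_, rfl⟩
  have he0 : 0 < e := by rw [he]; exact exp_pos _
  rw [← he] at h1 h7
  have hy0 : 0 < y := by linarith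
  calc 1 / σ * (∫ t' in a..b, exp (-(π * ((t - t') / σ) ^ 2))) * (1 + |t|) ^ 4
      ≤ 1 / σ * (12 * e) * (8 ^ 4 * (σ * y) ^ 4) := by
        refine mul_le_mul ?_ h8 (by positivity) (by positivity)
        exact mul_le_mul_of_nonneg_left h1 (by positivity)
    _ = 12 * 8 ^ 4 * (σ ^ 3 * (y ^ 4 * e)) := by
        field_simp
    _ ≤ 12 * 8 ^ 4 * ((σ * y) ^ n * (y ^ 4 * e)) := by
        refine mul_le_mul_of_nonneg_left ?_ (by positivity)
        exact mul_le_mul_of_nonneg_right (h11.trans h9) (by positivity)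
    _ = 12 * 8 ^ 4 * (σ ^ n * (y ^ (n + 4) * e)) := by
        rw [mul_pow, pow_add]
        ring
    _ ≤ 12 * 8 ^ 4 * (σ ^ n * C) := by
        refine mul_le_mul_of_nonneg_left ?_ (by positivity)
        refine mul_le_mul_of_nonneg_left ?_ (by positivity)
        exact (mul_le_mul_of_nonneg_right h10 he0.le).trans h7
    _ = 12 * 8 ^ 4 * C * σ ^ n := by ring

/-- the summable majorant -/
private noncomputable def D67 (k : ℤ × ℤ) : ℝ := (1 / (1 + |(k.1 : ℝ)|) ^ 2) * (1 / (1 + |(k.2 : ℝ)|) ^ 2)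

private theorem D67_summable : Summable D67 := by
  have h1 : Summable fun n : ℤ => 1 / (1 + |(n : ℝ)|) ^ 2 := by
    have h2 : Summable fun n : ℤ => 1 / (n : ℝ) ^ 2 + (if n = 0 then (1 : ℝ) else 0) :=
      (Real.summable_one_div_int_pow.2 (by norm_num)).add (hasSum_ite_eq 0 1).summable
    refine Summable.of_nonneg_of_le (fun n => by positivity) (fun n => ?_) h2
    by_cases hn : n = 0
    · subst hn
      simp
    · rw [if_neg hn, add_zero]
      have h3 : 0 < |(n : ℝ)| := abs_pos.2 (by exact_mod_cast hn)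
      refine one_div_le_one_div_of_le ?_ ?_
      · rw [← sq_abs]
        positivity
      · rw [← sq_abs]
        exact pow_le_pow_left₀ h3.le (by linarith) 2
  exact h1.mul_of_nonneg h1 (fun n => by positivity) fun n => by positivity

private theorem base67 {β H : ℝ} (hβ : |β| ≤ 1 / 2) (hH : 1 ≤ H) {k : ℤ × ℤ} (hu : 0 < uu β k) {w K : ℝ}
    (hw0 : 0 ≤ w)
    (hw : w * ((1 + uu β k / H) ^ 4 * (1 + |tt β k|) ^ 4) ≤ K) : w ≤ K * H ^ 4 * D67 k := by
  obtain ⟨u, hu'⟩ : ∃ u, u = uu β k := ⟨_, rfl⟩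
  obtain ⟨t, ht'⟩ : ∃ t, t = tt β k := ⟨_, rfl⟩
  rw [← hu'] at hu hw
  rw [← ht'] at hw
  have hH0 : 0 < H := by linarith
  have hj : |(k.2 : ℝ)| = |t| * u := by
    rw [ht', tt, ← hu', abs_div, abs_of_pos hu]
    field_simp
  have hk1 : |(k.1 : ℝ)| ≤ u + |t| * u := by
    have h1 : (k.1 : ℝ) = u - β * k.2 := by
      rw [hu', uu]
      ring
    rw [h1]
    have h2 := abs_sub u (β * k.2)
    rw [abs_mul, abs_of_pos hu] at h2
    have h3 := mul_le_mul_of_nonneg_right hβ (abs_nonneg (k.2 : ℝ))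
    have h4 := abs_nonneg (k.2 : ℝ)
    rw [← hj]
    linarith only [h2, h3, h4]
  have ht0 := abs_nonneg t
  obtain ⟨Q, hQ⟩ : ∃ Q, Q = H * ((1 + u / H) * (1 + |t|)) := ⟨_, rfl⟩
  have hQ2 : Q = (H + u) * (1 + |t|) := by
    rw [hQ]
    field_simp
  have hQ0 : 0 ≤ Q := by
    rw [hQ2]
    positivity
  have hut : 0 ≤ |t| * u := by positivity
  have hHt : 0 ≤ (H - 1) * (1 + |t|) := mul_nonneg (by linarith) (by linarith)
  have a1 : 1 + |(k.1 : ℝ)| ≤ Q := by
    rw [hQ2]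
    nlinarith only [hk1, ht0, hHt]
  have a2 : 1 + |(k.2 : ℝ)| ≤ Q := by
    rw [hQ2, hj]
    nlinarith only [hu, ht0, hHt]
  have a3 : (1 + |(k.1 : ℝ)|) ^ 2 * (1 + |(k.2 : ℝ)|) ^ 2 ≤ Q ^ 4 := by
    have b1 := pow_le_pow_left₀ (by positivity) a1 2
    have b2 := pow_le_pow_left₀ (by positivity) a2 2
    have b3 := mul_le_mul b1 b2 (by positivity) (by positivity)
    calc _ ≤ Q ^ 2 * Q ^ 2 := b3
      _ = Q ^ 4 := by ring
  have a4 : w * ((1 + |(k.1 : ℝ)|) ^ 2 * (1 + |(k.2 : ℝ)|) ^ 2) ≤ K * H ^ 4 := by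
    refine (mul_le_mul_of_nonneg_left a3 hw0).trans ?_
    rw [hQ]
    have := mul_le_mul_of_nonneg_right hw (by positivity : 0 ≤ H ^ 4)
    calc w * (H * ((1 + u / H) * (1 + |t|))) ^ 4 = w * ((1 + u / H) ^ 4 * (1 + |t|) ^ 4) * H ^ 4 := by
          ring
      _ ≤ K * H ^ 4 := this
  have a5 : D67 k = 1 / ((1 + |(k.1 : ℝ)|) ^ 2 * (1 + |(k.2 : ℝ)|) ^ 2) := by
    unfold D67
    rw [one_div_mul_one_div]
  rw [a5, mul_one_div, le_div_iff₀ (by positivity)]
  exact a4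

open Classical in
theorem wab_tail {ε : ℝ} (hε : 0 < ε) (hε1 : ε ≤ 1 / 4) (B : ℝ) : ∃ p₀ : ℕ, 1 ≤ p₀ ∧ ∀ p : ℕ, p₀ ≤ p → ∃ C : ℝ, 0 < C ∧
    ∀ β H σ a b : ℝ, |β| ≤ 1 / 2 → 1 ≤ H → 0 < σ → σ ≤ 1 → σ * H ^ ε ≤ 12 → -6 ≤ a → a ≤ b → b ≤ 6 →
      Summable (fun k : ℤ × ℤ => if 0 < uu β k then wab β H σ a b p k else 0) ∧
      ∑' k : ℤ × ℤ, (if 0 < uu β k ∧ k ∉ frq β H ε then wab β H σ a b p k else 0) ≤ C * H ^ (-B) := by
  obtain ⟨n, hn⟩ := exists_nat_ge ((B + 4) / ε)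
  have hn' : B + 4 ≤ ε * n := by
    rw [div_le_iff₀ hε] at hn
    linarith
  refine ⟨n + 1, by omega, fun p hp => ?_⟩
  obtain ⟨C1, hC1, h1⟩ := pexp67 4
  obtain ⟨C2, hC2, h2⟩ := pexp67 (n + 4)
  obtain ⟨C3, hC3, h3⟩ := far67 n
  have hS0 : 0 ≤ ∑' k, D67 k := tsum_nonneg fun k => by
    unfold D67
    positivity
  obtain ⟨K0, hK0⟩ : ∃ K0 : ℝ, K0 = C1 * (8 ^ 4 + C3) := ⟨_, rfl⟩
  obtain ⟨K1, hK1⟩ : ∃ K1 : ℝ, K1 = (16 + C2) * (8 ^ 4 + C3) + C1 * (C3 * 12 ^ n) := ⟨_, rfl⟩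
  have hK1' : 0 < K1 := by
    rw [hK1]
    positivity
  refine ⟨K1 * (∑' k, D67 k) + 1, by positivity, fun β H σ a b hβ hH hσ hσ1 hσH ha hab hb => ?_⟩
  have hH0 : 0 < H := by linarith only [hε, hε1, hH]
  have hHε : 0 < H ^ ε := rpow_pos_of_pos hH0 ε
  have hHε1 : 1 ≤ H ^ ε := one_le_rpow hH hε.le
  obtain ⟨E, hE⟩ : ∃ E : ℝ, E = H ^ (-(B + 4)) := ⟨_, rfl⟩
  have hE0 : 0 < E := by
    rw [hE]
    exact rpow_pos_of_pos hH0 _
  -- `1 ≤ E (H ^ ε) ^ n`
  have hEn : 1 ≤ E * (H ^ ε) ^ n := by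
    rw [hE, ← rpow_mul_natCast hH0.le, ← rpow_add hH0]
    exact one_le_rpow hH (by linarith only [hn'])
  have hEH : E * H ^ 4 = H ^ (-B) := by
    rw [hE, ← rpow_natCast, ← rpow_add hH0]
    congr 1
    push_cast
    ring
  -- pointwise facts
  have key : ∀ k : ℤ × ℤ, 0 < uu β k → 0 ≤ wab β H σ a b p k ∧
      wab β H σ a b p k * ((1 + uu β k / H) ^ 4 * (1 + |tt β k|) ^ 4) ≤ K0 ∧
      (k ∉ frq β H ε →
        wab β H σ a b p k * ((1 + uu β k / H) ^ 4 * (1 + |tt β k|) ^ 4) ≤ K1 * E) := by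
    intro k hk
    obtain ⟨x, hx⟩ : ∃ x, x = uu β k / H := ⟨_, rfl⟩
    obtain ⟨t, ht⟩ : ∃ t, t = tt β k := ⟨_, rfl⟩
    have hx0 : 0 < x := by
      rw [hx]
      exact div_pos hk hH0
    obtain ⟨r, hr⟩ : ∃ r, r = x ^ p * exp (-(p * x)) := ⟨_, rfl⟩
    obtain ⟨g, hg⟩ : ∃ g, g = 1 / σ * (∫ t' in a..b, exp (-(π * ((t - t') / σ) ^ 2))) := ⟨_, rfl⟩
    have hwab : wab β H σ a b p k = r * g := by
      rw [hr, hg, hx, ht]
      rfl
    obtain ⟨hI0, hI1⟩ := gauss67 hσ hab t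
    have hg0 : 0 ≤ g := by
      rw [hg]
      exact mul_nonneg (by positivity) hI0
    have hg1 : g ≤ 1 := by
      rw [hg]
      exact hI1
    have hr0 : 0 ≤ r := by
      rw [hr]
      positivity
    have hr1 : r ≤ exp (-(x / 2)) := by
      rw [hr]
      exact rb67 hx0.le (by omega)
    have hx4 : 0 ≤ (1 + x) ^ 4 := by positivity
    have ht4 : 0 ≤ (1 + |t|) ^ 4 := by positivity
    have R0 : r * (1 + x) ^ 4 ≤ C1 := by
      have := mul_le_mul_of_nonneg_right hr1 hx4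
      rw [mul_comm (exp _)] at this
      exact this.trans (h1 x hx0.le)
    have hσn : σ ^ n ≤ 1 := pow_le_one₀ hσ.le hσ1
    have G0 : g * (1 + |t|) ^ 4 ≤ 8 ^ 4 + C3 := by
      rcases le_total |t| 7 with h7 | h7
      · have e1 : (1 + |t|) ^ 4 ≤ 8 ^ 4 := pow_le_pow_left₀ (by positivity) (by linarith only [h7]) 4
        have e2 := mul_le_mul hg1 e1 ht4 zero_le_one
        linarith only [hC3, e2]
      · have e1 := h3 σ a b t hσ hσ1 ha hab hb h7
        rw [← hg] at e1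
        have e2 := mul_le_mul_of_nonneg_left hσn hC3.le
        have e3 : (0 : ℝ) ≤ 8 ^ 4 := by positivity
        linarith only [hε, hε1, e1, e2]
    refine ⟨by rw [hwab]; exact mul_nonneg hr0 hg0, ?_, fun hkf => ?_⟩
    · rw [hwab, ← hx, ← ht, hK0]
      calc r * g * ((1 + x) ^ 4 * (1 + |t|) ^ 4) = (r * (1 + x) ^ 4) * (g * (1 + |t|) ^ 4) := by ring
        _ ≤ C1 * (8 ^ 4 + C3) := mul_le_mul R0 G0 (mul_nonneg hg0 ht4) hC1.le
    · rw [hwab, ← hx, ← ht]
      have h4 : r * g * ((1 + x) ^ 4 * (1 + |t|) ^ 4) = (r * (1 + x) ^ 4) * (g * (1 + |t|) ^ 4) := by ring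
      rw [h4]
      have hrx0 : 0 ≤ r * (1 + x) ^ 4 := mul_nonneg hr0 hx4
      have hgt0 : 0 ≤ g * (1 + |t|) ^ 4 := mul_nonneg hg0 ht4
      rw [mem_frq hβ] at hkf
      have hux : uu β k = H * x := by
        rw [hx]
        field_simp
      have R1 : r * (1 + x) ^ 4 ≤ (16 + C2) * E →
          (r * (1 + x) ^ 4) * (g * (1 + |t|) ^ 4) ≤ K1 * E := by
        intro h5
        have h6 := mul_le_mul h5 G0 hgt0 (by positivity)
        refine h6.trans ?_
        rw [hK1]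
        have h7 : 0 ≤ C1 * (C3 * 12 ^ n) * E := by positivity
        nlinarith only [h7]
      by_cases c1 : H ^ (1 - ε) ≤ uu β k
      · by_cases c2 : uu β k ≤ H ^ (1 + ε)
        · -- large slope
          have c3 : ¬ |(k.2 : ℝ)| ≤ 8 * uu β k := fun c3 => hkf ⟨c1, c2, c3⟩
          have h5 : 8 < |t| := by
            rw [ht, tt, abs_div, abs_of_pos hk, lt_div_iff₀ hk]
            exact not_le.1 c3
          have e1 := h3 σ a b t hσ hσ1 ha hab hb (by linarith only [hε, hε1, h5])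
          rw [← hg] at e1
          have e2 : σ ^ n ≤ 12 ^ n * E := by
            have e3 : (σ * H ^ ε) ^ n ≤ 12 ^ n := pow_le_pow_left₀ (by positivity) hσH n
            rw [mul_pow] at e3
            have e4 : σ ^ n * 1 ≤ σ ^ n * (E * (H ^ ε) ^ n) :=
              mul_le_mul_of_nonneg_left hEn (by positivity)
            have e5 := mul_le_mul_of_nonneg_right e3 hE0.le
            calc σ ^ n = σ ^ n * 1 := (mul_one _).symm
              _ ≤ σ ^ n * (E * (H ^ ε) ^ n) := e4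
              _ = σ ^ n * (H ^ ε) ^ n * E := by ring
              _ ≤ 12 ^ n * E := e5
          have e6 : g * (1 + |t|) ^ 4 ≤ C3 * (12 ^ n * E) :=
            e1.trans (mul_le_mul_of_nonneg_left e2 hC3.le)
          have e7 := mul_le_mul R0 e6 hgt0 hC1.le
          refine e7.trans ?_
          rw [hK1]
          have h7 : 0 ≤ (16 + C2) * (8 ^ 4 + C3) * E := by positivity
          nlinarith only [h7]
        · -- large `x`
          refine R1 ?_
          have d1 : H ^ ε ≤ x := by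
            have d2 := (not_le.1 c2).le
            rw [hux, rpow_add hH0, rpow_one] at d2
            exact le_of_mul_le_mul_left d2 hH0
          have d3 : (H ^ ε) ^ n ≤ (1 + x) ^ n := pow_le_pow_left₀ hHε.le (by linarith only [hε, hε1, d1]) n
          have d4 : 1 ≤ E * (1 + x) ^ n := hEn.trans (mul_le_mul_of_nonneg_left d3 hE0.le)
          have d5 := h2 x hx0.le
          calc r * (1 + x) ^ 4 ≤ r * (1 + x) ^ 4 * (E * (1 + x) ^ n) := by
                have := mul_le_mul_of_nonneg_left d4 hrx0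
                rwa [mul_one] at this
            _ = r * ((1 + x) ^ (n + 4)) * E := by
                rw [pow_add]
                ring
            _ ≤ exp (-(x / 2)) * ((1 + x) ^ (n + 4)) * E := by
                refine mul_le_mul_of_nonneg_right ?_ hE0.le
                exact mul_le_mul_of_nonneg_right hr1 (by positivity)
            _ ≤ C2 * E := by
                rw [mul_comm (exp _)]
                exact mul_le_mul_of_nonneg_right d5 hE0.le
            _ ≤ (16 + C2) * E := mul_le_mul_of_nonneg_right (by linarith only [hε, hε1]) hE0.le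
      · -- small `x`
        refine R1 ?_
        have d1 : x * H ^ ε ≤ 1 := by
          have d2 := (not_le.1 c1).le
          rw [hux, rpow_sub hH0, rpow_one] at d2
          rw [div_eq_mul_inv] at d2
          have d3 : x ≤ (H ^ ε)⁻¹ := le_of_mul_le_mul_left d2 hH0
          have d4 := mul_le_mul_of_nonneg_right d3 hHε.le
          rwa [inv_mul_cancel₀ hHε.ne'] at d4
        have d2 : x ≤ 1 := by
          have := mul_le_mul_of_nonneg_left hHε1 hx0.le
          linarith only [d1, this]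
        have d3 : x ^ n ≤ E := by
          have e3 : (x * H ^ ε) ^ n ≤ 1 := pow_le_one₀ (by positivity) d1
          rw [mul_pow] at e3
          have e4 : x ^ n * 1 ≤ x ^ n * (E * (H ^ ε) ^ n) :=
            mul_le_mul_of_nonneg_left hEn (by positivity)
          have e5 := mul_le_mul_of_nonneg_right e3 hE0.le
          calc x ^ n = x ^ n * 1 := (mul_one _).symm
            _ ≤ x ^ n * (E * (H ^ ε) ^ n) := e4
            _ = x ^ n * (H ^ ε) ^ n * E := by ring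
            _ ≤ 1 * E := e5
            _ = E := one_mul _
        have d4 : r ≤ E := by
          have e1 : exp (-(p * x)) ≤ 1 := exp_le_one_iff.2 (by
            have : 0 ≤ (p : ℝ) * x := by positivity
            linarith only [this])
          have e2 : x ^ p ≤ x ^ n := pow_le_pow_of_le_one hx0.le d2 (by omega)
          rw [hr]
          calc x ^ p * exp (-(p * x)) ≤ x ^ p * 1 := mul_le_mul_of_nonneg_left e1 (by positivity)
            _ = x ^ p := mul_one _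
            _ ≤ x ^ n := e2
            _ ≤ E := d3
        have d5 : (1 + x) ^ 4 ≤ 16 := by
          have := pow_le_pow_left₀ (by positivity : 0 ≤ 1 + x) (by linarith only [d2] : 1 + x ≤ 2) 4
          norm_num at this
          exact this
        calc r * (1 + x) ^ 4 ≤ E * 16 := mul_le_mul d4 d5 hx4 hE0.le
          _ ≤ (16 + C2) * E := by nlinarith only [hε, hε1, hC2, hE0]
  have hsum1 : Summable (fun k : ℤ × ℤ => K0 * H ^ 4 * D67 k) := D67_summable.mul_left _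
  have hsum2 : Summable (fun k : ℤ × ℤ => K1 * E * H ^ 4 * D67 k) := D67_summable.mul_left _
  have hD0 : ∀ k, 0 ≤ D67 k := fun k => by
    unfold D67
    positivity
  have hK0' : 0 ≤ K0 := by
    rw [hK0]
    positivity
  refine ⟨Summable.of_nonneg_of_le (fun k => ?_) (fun k => ?_) hsum1, ?_⟩
  · split_ifs with hk
    · exact (key k hk).1
    · exact le_rfl
  · split_ifs with hk
    · exact base67 hβ hH hk (key k hk).1 (key k hk).2.1
    · exact mul_nonneg (by positivity) (hD0 k)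
  · have hle : ∀ k : ℤ × ℤ, (if 0 < uu β k ∧ k ∉ frq β H ε then wab β H σ a b p k else 0) ≤
        K1 * E * H ^ 4 * D67 k := by
      intro k
      split_ifs with hk
      · exact base67 hβ hH hk.1 (key k hk.1).1 ((key k hk.1).2.2 hk.2)
      · exact mul_nonneg (by positivity) (hD0 k)
    have hnn : ∀ k : ℤ × ℤ, 0 ≤ (if 0 < uu β k ∧ k ∉ frq β H ε then wab β H σ a b p k else 0) := by
      intro k
      split_ifs with hk
      · exact (key k hk.1).1
      · exact le_rfl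
    have hs := Summable.of_nonneg_of_le hnn hle hsum2
    have h4 := hs.tsum_le_tsum hle hsum2
    refine h4.trans ?_
    rw [tsum_mul_left, mul_assoc K1 E, hEH]
    have h5 : 0 ≤ H ^ (-B) := (rpow_pos_of_pos hH0 _).le
    nlinarith only [h5]

end Pool.Agent.Helper76.GS
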