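import Pool.Agent.Helper76.GS.B2a
import Pool.Agent.Helper76.GS.B2b

/-!
# GS-B2: the amplitude of a window

PROOF. `p₀` from `wab_tail` (with `B`), `p ≥ p₀` from `wp_near_B` (with `B + 3`). Let `a, b = -6 + 12 i/N, -6 + 12 (i+1)/N` be the ends of the window, `w = b - a = 12/N`, `F(c) = (1/σ) ∫_{t in a..b} Ft β H σ t p R c dt`.
(1) Since `0 < uu β k → wab β H σ a b p k = (1/σ) ∫_a^b wt β H σ t p k dt`, and `∑_k ∫ |..| < ∞` (the `Summable` of `wab_tail`): interchange of sum and integral (`hasSum_integral_of_summable_integral_norm`, or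
`MeasureTheory.integral_tsum`): `F(c) = ∑'_k [0 < uu β k] wab k ee(R ph k) ee(dt k c)`. (Measurability in `t`: each term is continuous in `t`.)
(2) `xp (Fw ..) (c, R)` is the part of this series over `k ∈ frq` (`xp_ofS`; `uu β k > 0` on `frq` as `H ≥ 1`), so `‖F(c) - xp (Fw ..) (c, R)‖ ≤ C H^(-B)` by `wab_tail`.
(3) `‖F(c)‖ ≤ (1/σ) ∫_a^b ‖Ft‖ dt ≤ (1/σ) ∫_a^b (C √(H³/R) ncard near(t, σH^ε, d) + C H^(-B-3)) dt`, `d = H^(ε-1)`. `near(t, σ H^ε, d) ⊆ near(tc, w/2 + σH^ε, d) ⊆ near(tc, 2w, d)` for `t ∈ [a, b]` (finite: `near_fin`, GC), and for each `m` of the last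
set the measure of the `t` with `m ∈ near(t, σH^ε, d)` is at most `2σH^ε`: `ncard near(t, ..) = ∑_{m ∈ near(tc, 2w, d)} 1[|Del β R t c m| ≤ σH^ε]`, so `(1/σ) ∫ ncard ≤ 2H^ε ncard near(tc, 2w, d)`. `w/σ ≤ 36 H²` because
`2RHσ² ≥ 1`, `R ≤ 4H³` give `σ ≥ H^(-2)/3`. (Integrability of `t ↦ ‖Ft‖` in (3): it is continuous or use `norm_integral_le_lintegral_norm`-type bounds with the measurable majorant.)
-/

open MeasureTheory Real Set Filter Topology

set_option autoImplicit false

namespace Pool.Agent.Helper76.GS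

open Pool.Agent.Helper22.AE
open Pool.Agent.Helper22.AC (n6 IsWt mu)
open Pool.Agent.Helper92.GC

private lemma cont_wt77 (β H σ : ℝ) (p : ℕ) (k : ℤ × ℤ) : Continuous fun t : ℝ => wt β H σ t p k := by
  unfold wt
  by_cases h : 0 < uu β k
  · simp only [h, if_true]
    fun_prop
  · simp only [h, if_false]
    exact continuous_const

private lemma wt_nonneg77 {β H σ : ℝ} {p : ℕ} {k : ℤ × ℤ} (hH : 0 < H) (t : ℝ) : 0 ≤ wt β H σ t p k := by
  unfold wt
  split_ifs with h
  · have : 0 ≤ uu β k / H := by positivity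
    positivity
  · exact le_rfl

private lemma int_wt77 {β H σ a b : ℝ} {p : ℕ} (k : ℤ × ℤ) (hσ : 0 < σ) :
    ∫ t in a..b, wt β H σ t p k = σ * (if 0 < uu β k then wab β H σ a b p k else 0) := by
  unfold wt wab
  split_ifs with h
  · rw [intervalIntegral.integral_const_mul]
    field_simp
  · simp

/-- the integral of the smooth sum over the window -/
private lemma int_Ft77 {β H σ a b R : ℝ} {p : ℕ} (hH : 0 < H) (hσ : 0 < σ) (hab : a ≤ b) (c : ℝ × ℝ)
    (hs : Summable (fun k : ℤ × ℤ => if 0 < uu β k then wab β H σ a b p k else 0)) :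
    ∫ t in a..b, Ft β H σ t p R c =
      ∑' k : ℤ × ℤ, ((σ * (if 0 < uu β k then wab β H σ a b p k else 0) : ℝ) : ℂ) * (ee (R * ph β k) * ee (dt k c)) := by
  have hF : ∀ k : ℤ × ℤ, Integrable (fun t : ℝ => (wt β H σ t p k : ℂ) * ee (R * ph β k) * ee (dt k c))
      (volume.restrict (Ioc a b)) := by
    intro k
    have hc : Continuous fun t : ℝ => (wt β H σ t p k : ℂ) * ee (R * ph β k) * ee (dt k c) :=
      ((Complex.continuous_ofReal.comp (cont_wt77 β H σ p k)).mul continuous_const).mul continuous_const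
    exact (hc.integrableOn_Icc (a := a) (b := b)).mono_set Ioc_subset_Icc_self
  have hn : ∀ k : ℤ × ℤ, ∫ t in Ioc a b, ‖(wt β H σ t p k : ℂ) * ee (R * ph β k) * ee (dt k c)‖ =
      σ * (if 0 < uu β k then wab β H σ a b p k else 0) := by
    intro k
    rw [← int_wt77 k hσ, intervalIntegral.integral_of_le hab]
    refine integral_congr_ae (Eventually.of_forall fun t => ?_)
    simp only
    rw [norm_mul, norm_mul, ee_norm, ee_norm, mul_one, mul_one, Complex.norm_real,
      Real.norm_of_nonneg (wt_nonneg77 hH t)]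
  have hS : Summable fun k : ℤ × ℤ => ∫ t in Ioc a b, ‖(wt β H σ t p k : ℂ) * ee (R * ph β k) * ee (dt k c)‖ := by
    simp_rw [hn]
    exact hs.mul_left σ
  have h1 := (hasSum_integral_of_summable_integral_norm hF hS).tsum_eq
  rw [intervalIntegral.integral_of_le hab]
  have h2 : ∀ t, Ft β H σ t p R c = ∑' k : ℤ × ℤ, (wt β H σ t p k : ℂ) * ee (R * ph β k) * ee (dt k c) := fun t => rfl
  simp_rw [h2]
  rw [← h1]
  refine tsum_congr fun k => ?_
  rw [← int_wt77 k hσ, intervalIntegral.integral_of_le hab, ← integral_complex_ofReal, ← integral_mul_const]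
  refine integral_congr_ae (Eventually.of_forall fun t => ?_)
  simp only
  ring

/-- counting: the average number of near points -/
private lemma ncard77 {β R s s' d : ℝ} {t t' : ℝ} (hR : 0 < R) (c : ℝ × ℝ) (h : s + |t - t'| ≤ s') :
    ((near β R t s d c).ncard : ℝ) =
      ∑ m ∈ (near_fin hR t' s' d c : (near β R t' s' d c).Finite).toFinset,
        (if |zt β c m / (2 * R) - t| ≤ s then (1 : ℝ) else 0) := by
  classical
  rw [← Finset.sum_filter, Finset.sum_const, nsmul_eq_mul, mul_one]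
  congr 1
  rw [← Set.ncard_coe_finset]
  congr 1
  ext m
  simp only [Finset.coe_filter, Set.Finite.mem_toFinset, Set.mem_ofPred_eq, near, Del]
  constructor
  · rintro ⟨h1, h2⟩
    refine ⟨⟨?_, h2⟩, h1⟩
    have h3 : |zt β c m / (2 * R) - t'| ≤ |zt β c m / (2 * R) - t| + |t - t'| := abs_sub_le _ _ _
    linarith
  · rintro ⟨⟨_, h2⟩, h1⟩
    exact ⟨h1, h2⟩

private lemma ind77 {x s a b : ℝ} (hs : 0 ≤ s) (hab : a ≤ b) :
    IntervalIntegrable (fun t : ℝ => if |x - t| ≤ s then (1 : ℝ) else 0) volume a b ∧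
      ∫ t in a..b, (if |x - t| ≤ s then (1 : ℝ) else 0) ≤ 2 * s := by
  have hset : {t : ℝ | |x - t| ≤ s} = Icc (x - s) (x + s) := by
    ext t
    simp only [Set.mem_ofPred_eq, Set.mem_Icc, abs_le]
    constructor
    · rintro ⟨h1, h2⟩
      constructor <;> linarith
    · rintro ⟨h1, h2⟩
      constructor <;> linarith
  have hf : (fun t : ℝ => if |x - t| ≤ s then (1 : ℝ) else 0) = (Icc (x - s) (x + s)).indicator fun _ => (1 : ℝ) := by
    ext t
    rw [Set.indicator_apply]
    have h3 : t ∈ Icc (x - s) (x + s) ↔ |x - t| ≤ s := by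
      rw [← hset]
      rfl
    by_cases h : |x - t| ≤ s
    · rw [if_pos h, if_pos (h3.2 h)]
    · rw [if_neg h, if_neg (fun h4 => h (h3.1 h4))]
  have hI : Integrable ((Icc (x - s) (x + s)).indicator fun _ => (1 : ℝ)) := by
    rw [integrable_indicator_iff measurableSet_Icc]
    exact integrableOn_const (by simp)
  rw [hf]
  refine ⟨hI.intervalIntegrable, ?_⟩
  rw [intervalIntegral.integral_of_le hab]
  calc ∫ t in Ioc a b, (Icc (x - s) (x + s)).indicator (fun _ => (1 : ℝ)) t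
      ≤ ∫ t, (Icc (x - s) (x + s)).indicator (fun _ => (1 : ℝ)) t :=
        setIntegral_le_integral hI (Eventually.of_forall fun t => Set.indicator_nonneg (fun _ _ => zero_le_one) t)
    _ = 2 * s := by
        rw [integral_indicator measurableSet_Icc, setIntegral_const, smul_eq_mul, mul_one, Measure.real,
          Real.volume_Icc, ENNReal.toReal_ofReal (by linarith)]
        ring

theorem Fw_amp {ε : ℝ} (hε : 0 < ε) (hε1 : ε ≤ 1 / 4) (B : ℝ) : ∃ p : ℕ, 1 ≤ p ∧ ∃ C : ℝ, 0 < C ∧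
    ∀ (β H σ R : ℝ) (N i : ℕ), |β| ≤ 1 / 2 → 1 ≤ H → 0 < σ → σ ≤ 1 → 1 ≤ R → R ≤ 4 * H ^ 3 → 1 ≤ 2 * R * H * σ ^ 2 → 1 ≤ N →
      i < N → σ * H ^ ε ≤ 12 / (N : ℝ) → ∀ c : ℝ × ℝ,
        ‖xp (Fw β H ε σ p N i) (c, R)‖ ≤ C * H ^ ε * √(H ^ 3 / R) *
          ((near β R (tc N i) (2 * (12 / (N : ℝ))) (H ^ (ε - 1)) c).ncard : ℝ) + C * H ^ (-B) := by
  obtain ⟨p₀, hp₀, hT⟩ := wab_tail hε hε1 B
  obtain ⟨p, hp, C₁, hC₁, hW⟩ := wp_near_B hε (B + 3) p₀
  obtain ⟨C₂, hC₂, hT2⟩ := hT p hp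
  refine ⟨p, hp₀.trans hp, 2 * C₁ + 36 * C₁ + C₂, by positivity, ?_⟩
  intro β H σ R N i hβ hH hσ hσ1 hR hR4 hY hN hi hs c
  have hH0 : 0 < H := by linarith
  have hR0 : 0 < R := by linarith
  have hN0 : (0 : ℝ) < N := by exact_mod_cast hN
  have hi1 : (i : ℝ) + 1 ≤ N := by exact_mod_cast hi
  have hi0 : (0 : ℝ) ≤ i := Nat.cast_nonneg i
  set w : ℝ := 12 / (N : ℝ) with hw
  have hw0 : 0 < w := by positivity
  have hw12 : w ≤ 12 := by
    rw [hw, div_le_iff₀ hN0]
    have : (1 : ℝ) ≤ N := by exact_mod_cast hN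
    linarith
  set a : ℝ := -6 + 12 * (i : ℝ) / N with ha
  set b : ℝ := -6 + 12 * ((i : ℝ) + 1) / N with hb
  have hba : b - a = w := by
    rw [ha, hb, hw]
    field_simp
    ring
  have hab : a ≤ b := by linarith
  have ha6 : -6 ≤ a := by
    rw [ha]
    have : 0 ≤ 12 * (i : ℝ) / N := by positivity
    linarith
  have hb6 : b ≤ 6 := by
    rw [hb]
    have : 12 * ((i : ℝ) + 1) / N ≤ 12 := by
      rw [div_le_iff₀ hN0]
      linarith
    linarith
  have htc : tc N i = (a + b) / 2 := by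
    rw [ha, hb]
    unfold tc
    field_simp
    ring
  obtain ⟨hsum, htail⟩ := hT2 β H σ a b hβ hH hσ hσ1 (hs.trans hw12) ha6 hab hb6
  set s : ℝ := σ * H ^ ε with hsdef
  have hs0 : 0 ≤ s := by positivity
  set d : ℝ := H ^ (ε - 1) with hd
  set A : ℝ := √(H ^ 3 / R) with hA
  have hA0 : 0 ≤ A := Real.sqrt_nonneg _
  set n : ℝ := ((near β R (tc N i) (2 * w) d c).ncard : ℝ) with hn
  have hn0 : 0 ≤ n := Nat.cast_nonneg _
  -- the integral bound
  have hint : ‖∫ t in a..b, Ft β H σ t p R c‖ ≤ C₁ * A * (n * (2 * s)) + C₁ * H ^ (-(B + 3)) * w := by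
    set F := (near_fin hR0 (tc N i) (2 * w) d c : (near β R (tc N i) (2 * w) d c).Finite).toFinset with hF
    set g : ℝ → ℝ := fun t => C₁ * A * (∑ m ∈ F, (if |zt β c m / (2 * R) - t| ≤ s then (1 : ℝ) else 0)) +
      C₁ * H ^ (-(B + 3)) with hg
    have hsI : IntervalIntegrable (fun t : ℝ => ∑ m ∈ F, (if |zt β c m / (2 * R) - t| ≤ s then (1 : ℝ) else 0))
        volume a b := by
      have h := IntervalIntegrable.sum F (fun m _ =>
        (ind77 (x := zt β c m / (2 * R)) (s := s) (a := a) (b := b) hs0 hab).1)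
      have h2 : (fun t : ℝ => ∑ m ∈ F, (if |zt β c m / (2 * R) - t| ≤ s then (1 : ℝ) else 0)) =
          ∑ m ∈ F, fun t : ℝ => (if |zt β c m / (2 * R) - t| ≤ s then (1 : ℝ) else 0) := by
        funext t
        rw [Finset.sum_apply]
      rw [h2]
      exact h
    have hgI : IntervalIntegrable g volume a b := (hsI.const_mul _).add intervalIntegrable_const
    have hgb : ∀ᵐ t : ℝ, t ∈ Ioc a b → ‖Ft β H σ t p R c‖ ≤ g t := by
      refine Eventually.of_forall fun t ht => ?_
      have ht6 : |t| ≤ 6 := abs_le.2 ⟨by linarith [ht.1], by linarith [ht.2]⟩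
      have h1 := hW β H σ t R hβ hH hσ hσ1 ht6 hR hR4 hY c
      have h2 : s + |t - tc N i| ≤ 2 * w := by
        have h3 : |t - tc N i| ≤ w / 2 := by
          rw [htc]
          exact abs_le.2 ⟨by linarith [ht.1], by linarith [ht.2]⟩
        linarith
      rw [ncard77 hR0 c h2] at h1
      simp only [hg]
      exact h1
    have h1 := intervalIntegral.norm_integral_le_of_norm_le hab hgb hgI
    refine h1.trans ?_
    simp only [hg]
    rw [intervalIntegral.integral_add (hsI.const_mul _) intervalIntegrable_const,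
      intervalIntegral.integral_const_mul, intervalIntegral.integral_finsetSum (fun m _ => (ind77 hs0 hab).1),
      intervalIntegral.integral_const, hba, smul_eq_mul]
    have h2 : ∑ m ∈ F, ∫ t in a..b, (if |zt β c m / (2 * R) - t| ≤ s then (1 : ℝ) else 0) ≤ n * (2 * s) := by
      calc ∑ m ∈ F, ∫ t in a..b, (if |zt β c m / (2 * R) - t| ≤ s then (1 : ℝ) else 0)
          ≤ ∑ _m ∈ F, 2 * s := Finset.sum_le_sum fun m _ => (ind77 hs0 hab).2
        _ = n * (2 * s) := by
            rw [Finset.sum_const, nsmul_eq_mul, hn, hF, ← Set.ncard_eq_toFinset_card _ _]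
    have h3 := mul_le_mul_of_nonneg_left h2 (mul_nonneg hC₁.le hA0)
    linarith
  -- the series
  set u : ℤ × ℤ → ℝ := fun k => if 0 < uu β k then wab β H σ a b p k else 0 with hu
  set e : ℤ × ℤ → ℂ := fun k => ee (R * ph β k) * ee (dt k c) with he
  have hen : ∀ k, ‖e k‖ = 1 := fun k => by
    simp only [he]
    rw [norm_mul, ee_norm, ee_norm, mul_one]
  have hI := int_Ft77 (R := R) hH0 hσ hab c hsum
  have hu0 : ∀ k, 0 ≤ u k := fun k => by
    simp only [hu]
    split_ifs with h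
    · exact wab_nonneg hH0 hσ hab h
    · exact le_rfl
  have hsn : Summable fun k => (u k : ℂ) * e k := by
    refine Summable.of_norm_bounded hsum fun k => ?_
    rw [norm_mul, hen, mul_one, Complex.norm_real, Real.norm_of_nonneg (hu0 k)]
  have hser : (σ : ℂ) * ∑' k, (u k : ℂ) * e k = ∫ t in a..b, Ft β H σ t p R c := by
    rw [hI, ← tsum_mul_left]
    refine tsum_congr fun k => ?_
    simp only [hu, he]
    push_cast
    ring
  -- splitting
  have hfr : xp (Fw β H ε σ p N i) (c, R) = ∑ k ∈ frq β H ε, (u k : ℂ) * e k := by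
    unfold Fw
    rw [xp_ofS]
    unfold gs
    refine Finset.sum_congr rfl fun k hk => ?_
    have hk1 := (mem_frq (ε := ε) (H := H) hβ).1 hk
    have hk2 : 0 < uu β k := lt_of_lt_of_le (by positivity) hk1.1
    simp only [hu, he, hk2, if_true]
    rw [ee_add, mul_comm (ee (dt k c))]
  have hsplit : ∑' k, (u k : ℂ) * e k = ∑ k ∈ frq β H ε, (u k : ℂ) * e k +
      ∑' k, (if k ∈ frq β H ε then 0 else (u k : ℂ) * e k) := by
    classical
    have h1 : ∑ k ∈ frq β H ε, (u k : ℂ) * e k = ∑' k, (if k ∈ frq β H ε then (u k : ℂ) * e k else 0) := by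
      rw [tsum_eq_sum (s := frq β H ε) (fun k hk => if_neg hk)]
      exact Finset.sum_congr rfl fun k hk => (if_pos hk).symm
    have hsA : Summable fun k => (if k ∈ frq β H ε then (u k : ℂ) * e k else 0) :=
      summable_of_ne_finset_zero (s := frq β H ε) (fun k hk => if_neg hk)
    have hsB : Summable fun k => (if k ∈ frq β H ε then 0 else (u k : ℂ) * e k) := by
      have := hsn.sub hsA
      refine this.congr fun k => ?_
      split_ifs <;> simp
    rw [h1, ← hsA.tsum_add hsB]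
    refine tsum_congr fun k => ?_
    split_ifs <;> simp
  have htl : ‖∑' k, (if k ∈ frq β H ε then 0 else (u k : ℂ) * e k)‖ ≤ C₂ * H ^ (-B) := by
    classical
    have hs2 : Summable fun k : ℤ × ℤ => (if 0 < uu β k ∧ k ∉ frq β H ε then wab β H σ a b p k else 0) := by
      refine Summable.of_nonneg_of_le (fun k => ?_) (fun k => ?_) hsum
      · split_ifs with h
        · exact wab_nonneg hH0 hσ hab h.1
        · exact le_rfl
      · by_cases h : 0 < uu β k
        · have h3 := hu0 k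
          have h4 : u k = wab β H σ a b p k := if_pos h
          by_cases h5 : k ∈ frq β H ε
          · rw [if_neg (fun h6 => h6.2 h5)]
            exact h3
          · rw [if_pos ⟨h, h5⟩, h4]
        · rw [if_neg (fun h6 => h h6.1)]
          exact hu0 k
    refine (tsum_of_norm_bounded hs2.hasSum fun k => ?_).trans (by convert htail)
    by_cases h : k ∈ frq β H ε
    · simp only [h, if_true, not_true_eq_false, and_false, if_false, norm_zero, le_refl]
    · simp only [h, if_false, not_false_eq_true, and_true]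
      rw [norm_mul, hen, mul_one, Complex.norm_real, Real.norm_of_nonneg (hu0 k)]
  have h1 : xp (Fw β H ε σ p N i) (c, R) = (1 / σ : ℂ) * (∫ t in a..b, Ft β H σ t p R c) -
      ∑' k, (if k ∈ frq β H ε then 0 else (u k : ℂ) * e k) := by
    rw [hfr, ← hser, hsplit]
    have : (σ : ℂ) ≠ 0 := by exact_mod_cast hσ.ne'
    field_simp
    ring
  have hnorm : ‖xp (Fw β H ε σ p N i) (c, R)‖ ≤
      1 / σ * (C₁ * A * (n * (2 * s)) + C₁ * H ^ (-(B + 3)) * w) + C₂ * H ^ (-B) := by
    rw [h1]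
    refine (norm_sub_le _ _).trans (add_le_add ?_ htl)
    rw [norm_mul, norm_div, norm_one, Complex.norm_real, Real.norm_of_nonneg hσ.le]
    exact mul_le_mul_of_nonneg_left hint (by positivity)
  refine hnorm.trans ?_
  have hHB : 0 < H ^ (-B) := by positivity
  have e1 : 1 / σ * (C₁ * A * (n * (2 * s))) = 2 * C₁ * H ^ ε * A * n := by
    rw [hsdef]
    field_simp
  have e2 : 1 / σ * (C₁ * H ^ (-(B + 3)) * w) ≤ 36 * C₁ * H ^ (-B) := by
    have h2 : 1 / σ ≤ 3 * H ^ 2 := by
      rw [div_le_iff₀ hσ]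
      have h3 : 1 ≤ (3 * H ^ 2 * σ) ^ 2 := by
        have h4 : 2 * R * H * σ ^ 2 ≤ 2 * (4 * H ^ 3) * H * σ ^ 2 := by gcongr
        nlinarith
      have h5 : 0 ≤ 3 * H ^ 2 * σ := by positivity
      nlinarith
    have h3 : H ^ (-(B + 3)) * H ^ 2 ≤ H ^ (-B) := by
      rw [← Real.rpow_natCast, ← Real.rpow_add hH0]
      refine Real.rpow_le_rpow_of_exponent_le hH ?_
      push_cast
      linarith
    have h4 : 0 < H ^ (-(B + 3)) := by positivity
    calc 1 / σ * (C₁ * H ^ (-(B + 3)) * w) ≤ 3 * H ^ 2 * (C₁ * H ^ (-(B + 3)) * 12) := by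
          gcongr
      _ = 36 * C₁ * (H ^ (-(B + 3)) * H ^ 2) := by ring
      _ ≤ 36 * C₁ * H ^ (-B) := by gcongr
  have e3 : 0 ≤ H ^ ε * A * n := by positivity
  rw [mul_add, e1]
  nlinarith [mul_nonneg hC₂.le e3, mul_nonneg hC₁.le e3, mul_nonneg hC₁.le hHB.le]

end Pool.Agent.Helper76.GS
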