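import Pool.Agent.Helper76.GS.A2
import Pool.Agent.Helper76.GS.B1
import Pool.Agent.Helper92.GC.W7

/-!
# GS-B3: reduction to the windows

PROOF. `H ≥ H₀`: `H^ε ≥ 8`, so `reg β H ⊆ frq β H ε`. By `Fw_sum` `∑ Fw = ofS frq w ph`, `w k = r(uu/H) Θ(tt)`, `r(x) = x^p e^(-px)`, `Θ(t) = (1/σ) ∫_{-6}^{6} exp(-π((t-t')/σ)²) dt'`.
On `reg β H` (`1/4 ≤ u/H ≤ 8`, `|t| ≤ 5`): `1 = (1/r(u/H)) (1/Θ(t)) w k`. `1/r` is Lipschitz on `[1/4, 8]` with a constant depending on `p`; `Θ'(t) = (1/σ)(exp(-π((t+6)/σ)²) - exp(-π((t-6)/σ)²))` (in absolute value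
`≤ (2/σ) e^(-π/σ²) ≤ 2` for `|t| ≤ 5`, `σ ≤ 1`), `Θ ≥ ∫_{-1}^{1} e^(-πx²) dx ≥ 1/2` for `|t| ≤ 5`, `σ ≤ 1`: `1/Θ` is Lipschitz with constant `≤ 8`. `mul_lip` (GC.R3) with `cut_u`, `cut_t` (GC.R2), `mul_comp`: so on `S = reg β H`
`n6 (gs reg 1 ph) ≤ C n6 (gs reg w ph)` (`n6_mul`). `reg β H` is obtained from `frq β H ε` and `In5` by the half planes `H/4 ≤ uu`, `uu ≤ 8H`, `|k.2| ≤ 5 uu` (the box is automatic): `gs reg w ph = xp (res (..) (res In5 (∑ Fw)))`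
(`res_ofS`, `res_res`), and `n6_res_half` four times (as `n6_res` with products of multipliers; a condition `uu ≤ 8H` is `-8H ≤ -uu`).
-/

open MeasureTheory Real Set Filter Topology

set_option autoImplicit false

namespace Pool.Agent.Helper76.GS

open Pool.Agent.Helper22.AE
open Pool.Agent.Helper22.AC (n6 IsWt mu)
open Pool.Agent.Helper92.GC

private lemma lipc_h54 (g g' : ℝ → ℝ) {α γ : ℝ} (h12 : α ≤ γ)
    (hg : ∀ x ∈ Icc α γ, HasDerivAt g (g' x) x) (hg' : ContinuousOn g' (Icc α γ)) :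
    ∃ K : ℝ, 0 ≤ K ∧ ∀ x ∈ Icc α γ, ∀ y ∈ Icc α γ, |g x - g y| ≤ K * |x - y| := by
  obtain ⟨K, hK⟩ := isCompact_Icc.exists_bound_of_continuousOn hg'
  refine ⟨K, (norm_nonneg _).trans (hK α (left_mem_Icc.2 h12)), fun x hx y hy => ?_⟩
  exact (convex_Icc α γ).norm_image_sub_le_of_norm_hasDerivWithin_le
    (fun x hx => (hg x hx).hasDerivWithinAt) (fun x hx => hK x hx) hy hx

open Classical in
private lemma mulg_h54 {S : Finset (ℤ × ℤ)} {φ : ℤ × ℤ → ℝ} {A : ℝ}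
    (hcut : ∀ z : ℝ, IsMul S (fun k => if z ≤ φ k then 1 else 0) A) (g : ℝ → ℝ) {α γ K x0 s : ℝ}
    (hs : 0 < s) (h12 : α ≤ γ) (hφ : ∀ k ∈ S, α ≤ (φ k - x0) / s ∧ (φ k - x0) / s ≤ γ)
    (hL : ∀ x ∈ Icc α γ, ∀ y ∈ Icc α γ, |g x - g y| ≤ K * |x - y|) :
    IsMul S (fun k => ((g ((φ k - x0) / s) : ℝ) : ℂ)) (|g α| + 1 + A * (K * (γ - α))) := by
  have h1 := mul_lip (S := S) (φ := φ) (A := A) hcut
    (m := fun x => ((g ((x - x0) / s) : ℝ) : ℂ)) (x₁ := x0 + s * α) (x₂ := x0 + s * γ)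
    (L := K / s) (B := |g α| + 1) (by
      have := mul_le_mul_of_nonneg_left h12 hs.le
      linarith) (fun k hk => by
      obtain ⟨h1, h2⟩ := hφ k hk
      rw [le_div_iff₀ hs] at h1
      rw [div_le_iff₀ hs] at h2
      constructor <;> linarith) (by
      have e1 : (x0 + s * α - x0) / s = α := by
        field_simp
        ring
      simp only [e1]
      rw [Complex.norm_real, Real.norm_eq_abs]
      linarith) (by
      intro x hx y hy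
      have e1 : ∀ v ∈ Icc (x0 + s * α) (x0 + s * γ), (v - x0) / s ∈ Icc α γ := by
        intro v hv
        rw [mem_Icc, le_div_iff₀ hs, div_le_iff₀ hs]
        constructor <;> linarith [hv.1, hv.2]
      have e2 := hL _ (e1 x hx) _ (e1 y hy)
      rw [← Complex.ofReal_sub, Complex.norm_real, Real.norm_eq_abs]
      refine e2.trans (le_of_eq ?_)
      have e3 : (x - x0) / s - (y - x0) / s = (x - y) / s := by ring
      rw [e3, abs_div, abs_of_pos hs]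
      ring)
  refine mul_weaken h1 (le_of_eq ?_)
  have e1 : x0 + s * γ - (x0 + s * α) = s * (γ - α) := by ring
  rw [e1]
  field_simp

private noncomputable def Gs_h54 (x : ℝ) : ℝ := ∫ s in (0 : ℝ)..x, exp (-(π * s ^ 2))

private lemma cont_h54 : Continuous fun s : ℝ => exp (-(π * s ^ 2)) := by fun_prop

private lemma Gs_deriv_h54 (x : ℝ) : HasDerivAt Gs_h54 (exp (-(π * x ^ 2))) x :=
  intervalIntegral.integral_hasDerivAt_right (cont_h54.intervalIntegrable _ _)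
    (cont_h54.stronglyMeasurableAtFilter _ _) cont_h54.continuousAt

private noncomputable def Th_h54 (σ t : ℝ) : ℝ :=
  1 / σ * ∫ s in (-6 : ℝ)..6, exp (-(π * ((t - s) / σ) ^ 2))

private lemma Th_eq_h54 {σ : ℝ} (hσ : 0 < σ) (t : ℝ) :
    Th_h54 σ t = Gs_h54 ((t + 6) / σ) - Gs_h54 ((t - 6) / σ) := by
  unfold Th_h54 Gs_h54
  have h1 : ∀ s : ℝ, exp (-(π * ((t - s) / σ) ^ 2)) = exp (-(π * (t / σ - s / σ) ^ 2)) := by
    intro s
    rw [sub_div]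
  simp only [h1]
  have h2 := intervalIntegral.integral_comp_sub_div (a := (-6 : ℝ)) (b := 6)
    (fun x : ℝ => exp (-(π * x ^ 2))) hσ.ne' (t / σ)
  rw [h2, intervalIntegral.integral_interval_sub_left
    (cont_h54.intervalIntegrable _ _) (cont_h54.intervalIntegrable _ _), smul_eq_mul, ← mul_assoc,
    one_div, inv_mul_cancel₀ hσ.ne', one_mul]
  congr 1 <;> ring

private lemma Th_deriv_h54 {σ : ℝ} (hσ : 0 < σ) (t : ℝ) : HasDerivAt (Th_h54 σ)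
    (exp (-(π * ((t + 6) / σ) ^ 2)) * (1 / σ) - exp (-(π * ((t - 6) / σ) ^ 2)) * (1 / σ)) t := by
  have e : Th_h54 σ = fun t => Gs_h54 ((t + 6) / σ) - Gs_h54 ((t - 6) / σ) := by
    funext t
    exact Th_eq_h54 hσ t
  rw [e]
  have h1 : HasDerivAt (fun t : ℝ => (t + 6) / σ) (1 / σ) t :=
    ((hasDerivAt_id t).add_const 6).div_const σ
  have h2 : HasDerivAt (fun t : ℝ => (t - 6) / σ) (1 / σ) t :=
    ((hasDerivAt_id t).sub_const 6).div_const σ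
  exact ((Gs_deriv_h54 ((t + 6) / σ)).comp t h1).sub ((Gs_deriv_h54 ((t - 6) / σ)).comp t h2)

private lemma small_h54 {y s : ℝ} (h : s ≤ |y|) : exp (-(π * y ^ 2)) * s ≤ 1 := by
  have h1 : |y| ≤ exp (π * y ^ 2) := by
    have h2 := Real.add_one_le_exp (π * y ^ 2)
    have h3 := Real.pi_gt_three
    have h4 : y ^ 2 = |y| ^ 2 := (sq_abs y).symm
    have h5 : 3 * |y| ^ 2 ≤ π * y ^ 2 := by
      rw [h4]
      exact mul_le_mul_of_nonneg_right h3.le (sq_nonneg _)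
    nlinarith [sq_nonneg (|y| - 1)]
  rw [Real.exp_neg, inv_mul_le_iff₀ (Real.exp_pos _), mul_one]
  exact h.trans h1

private lemma Th_lip_h54 {σ : ℝ} (hσ : 0 < σ) {x y : ℝ} (hx : x ∈ Icc (-5 : ℝ) 5)
    (hy : y ∈ Icc (-5 : ℝ) 5) : |Th_h54 σ x - Th_h54 σ y| ≤ 1 * |x - y| := by
  refine (convex_Icc (-5 : ℝ) 5).norm_image_sub_le_of_norm_hasDerivWithin_le
    (fun t _ => (Th_deriv_h54 hσ t).hasDerivWithinAt) (fun t ht => ?_) hy hx
  have hs : 0 < 1 / σ := by positivity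
  have h1 : 1 / σ ≤ |(t + 6) / σ| := by
    rw [abs_div, abs_of_pos hσ]
    apply div_le_div_of_nonneg_right _ hσ.le
    rw [le_abs]
    left
    linarith [ht.1]
  have h2 : 1 / σ ≤ |(t - 6) / σ| := by
    rw [abs_div, abs_of_pos hσ]
    apply div_le_div_of_nonneg_right _ hσ.le
    rw [le_abs]
    right
    linarith [ht.2]
  have h3 := small_h54 h1
  have h4 := small_h54 h2
  have h5 : 0 ≤ exp (-(π * ((t + 6) / σ) ^ 2)) * (1 / σ) := by positivity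
  have h6 : 0 ≤ exp (-(π * ((t - 6) / σ) ^ 2)) * (1 / σ) := by positivity
  rw [Real.norm_eq_abs, abs_le]
  constructor <;> linarith

private lemma Th_low_h54 {σ : ℝ} (hσ : 0 < σ) (hσ1 : σ ≤ 1) {t : ℝ} (ht : t ∈ Icc (-5 : ℝ) 5) :
    2 * exp (-π) ≤ Th_h54 σ t := by
  have ha : (t - 6) / σ ≤ -1 := by
    rw [div_le_iff₀ hσ]
    linarith [ht.2]
  have hb : 1 ≤ (t + 6) / σ := by
    rw [le_div_iff₀ hσ]
    linarith [ht.1]
  rw [Th_eq_h54 hσ]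
  unfold Gs_h54
  rw [intervalIntegral.integral_interval_sub_left
    (cont_h54.intervalIntegrable _ _) (cont_h54.intervalIntegrable _ _)]
  have h1 : ∫ s in (-1 : ℝ)..1, exp (-(π * s ^ 2)) ≤
      ∫ s in ((t - 6) / σ)..((t + 6) / σ), exp (-(π * s ^ 2)) :=
    intervalIntegral.integral_mono_interval ha (by norm_num) hb
      (Eventually.of_forall fun s => (Real.exp_pos _).le) (cont_h54.intervalIntegrable _ _)
  have h2 : ∫ _s in (-1 : ℝ)..1, exp (-π) ≤ ∫ s in (-1 : ℝ)..1, exp (-(π * s ^ 2)) := by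
    refine intervalIntegral.integral_mono_on (by norm_num) (by simp)
      (cont_h54.intervalIntegrable _ _) fun s hs => ?_
    apply Real.exp_le_exp.2
    have h3 : s ^ 2 ≤ 1 := by
      rw [sq_le_one_iff_abs_le_one, abs_le]
      exact ⟨hs.1, hs.2⟩
    have h4 : π * s ^ 2 ≤ π * 1 := mul_le_mul_of_nonneg_left h3 Real.pi_pos.le
    linarith
  rw [intervalIntegral.integral_const, smul_eq_mul] at h2
  linarith

private lemma inv_lip_h54 {σ : ℝ} (hσ : 0 < σ) (hσ1 : σ ≤ 1) : ∀ x ∈ Icc (-5 : ℝ) 5,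
    ∀ y ∈ Icc (-5 : ℝ) 5, |(Th_h54 σ x)⁻¹ - (Th_h54 σ y)⁻¹| ≤ ((2 * exp (-π)) ^ 2)⁻¹ * |x - y| := by
  intro x hx y hy
  obtain ⟨c, hc⟩ : ∃ c, c = 2 * exp (-π) := ⟨_, rfl⟩
  have hc0 : 0 < c := by rw [hc]; positivity
  have h1 := Th_low_h54 hσ hσ1 hx
  have h2 := Th_low_h54 hσ hσ1 hy
  have h3 := Th_lip_h54 hσ hx hy
  rw [← hc] at h1 h2 ⊢
  obtain ⟨a, ha⟩ : ∃ a, a = Th_h54 σ x := ⟨_, rfl⟩
  obtain ⟨b, hb⟩ : ∃ b, b = Th_h54 σ y := ⟨_, rfl⟩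
  rw [← ha] at h1 h3 ⊢
  rw [← hb] at h2 h3 ⊢
  have ha0 : 0 < a := by linarith
  have hb0 : 0 < b := by linarith
  have h4 : a⁻¹ - b⁻¹ = (b - a) / (a * b) := by field_simp
  rw [h4, abs_div, abs_of_pos (mul_pos ha0 hb0), abs_sub_comm, div_eq_inv_mul]
  have h5 : (a * b)⁻¹ ≤ (c ^ 2)⁻¹ := by
    apply inv_anti₀ (by positivity)
    rw [sq]
    exact mul_le_mul h1 h2 hc0.le ha0.le
  rw [one_mul] at h3
  exact mul_le_mul h5 h3 (abs_nonneg _) (by positivity)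

private lemma lem_reg_h54 {ε β H : ℝ} (hβ : |β| ≤ 1 / 2) (hH : 1 ≤ H) (h8 : 8 ≤ H ^ ε) {k : ℤ × ℤ} :
    k ∈ reg β H ↔ k ∈ frq β H ε ∧ In5 β k ∧ H / 4 ≤ uu β k ∧ uu β k ≤ 8 * H ∧
      (k.2 : ℝ) ≤ 5 * uu β k ∧ -(k.2 : ℝ) ≤ 5 * uu β k := by
  have hH0 : 0 < H := by linarith
  rw [mem_frq hβ]
  unfold reg In5
  rw [Finset.mem_filter]
  constructor
  · rintro ⟨_, h2, h3, h4⟩
    have h5 := abs_le.1 h4
    have hu : 0 < uu β k := by linarith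
    refine ⟨⟨?_, ?_, by linarith⟩, by linarith, h2, h3, h5.2, by linarith [h5.1]⟩
    · rw [Real.rpow_sub hH0, Real.rpow_one]
      calc H / H ^ ε ≤ H / 8 := div_le_div_of_nonneg_left hH0.le (by norm_num) h8
        _ ≤ uu β k := by linarith
    · rw [Real.rpow_add hH0, Real.rpow_one]
      have : H * 8 ≤ H * H ^ ε := mul_le_mul_of_nonneg_left h8 hH0.le
      linarith
  · rintro ⟨_, _, h2, h3, h7, h8'⟩
    have h1 : 0 < uu β k := by linarith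
    have h9 : |(k.2 : ℝ)| ≤ 5 * uu β k := abs_le.2 ⟨by linarith, h7⟩
    refine ⟨?_, h2, h3, h9⟩
    have h10 : |(k.2 : ℝ)| ≤ 40 * H := by linarith
    have h11 : |(k.1 : ℝ)| ≤ 40 * H := by
      have e1 : (k.1 : ℝ) = uu β k - β * k.2 := by
        unfold uu
        ring
      have e2 : |β * (k.2 : ℝ)| ≤ 1 / 2 * (40 * H) := by
        rw [abs_mul]
        exact mul_le_mul hβ h10 (abs_nonneg _) (by norm_num)
      rw [e1]
      have e3 := abs_sub (uu β k) (β * (k.2 : ℝ))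
      rw [abs_of_pos h1] at e3
      linarith
    have h12 : (⌈40 * H⌉₊ : ℝ) ≥ 40 * H := Nat.le_ceil _
    unfold box
    rw [Finset.mem_product, Finset.mem_Icc, Finset.mem_Icc]
    have h13 : ∀ j : ℤ, |(j : ℝ)| ≤ 40 * H → -((⌈40 * H⌉₊ : ℕ) : ℤ) ≤ j ∧ j ≤ (⌈40 * H⌉₊ : ℕ) := by
      intro j hj
      rw [← abs_le]
      have : ((|j| : ℤ) : ℝ) ≤ (((⌈40 * H⌉₊ : ℕ) : ℤ) : ℝ) := by
        push_cast
        linarith
      exact_mod_cast this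
    exact ⟨h13 _ h11, h13 _ h10⟩

private lemma four_h54 {X : ℝ} {v : ℝ → ℝ} (hv : IsWt X v) (a : Xp) (β H : ℝ) :
    n6 (mu v) (xp (res (fun k => H / 4 ≤ uu β k ∧ uu β k ≤ 8 * H ∧ (k.2 : ℝ) ≤ 5 * uu β k ∧
      -(k.2 : ℝ) ≤ 5 * uu β k) a)) ≤ (14 ^ 2) ^ 4 * n6 (mu v) (xp a) := by
  have e : res (fun k => H / 4 ≤ uu β k ∧ uu β k ≤ 8 * H ∧ (k.2 : ℝ) ≤ 5 * uu β k ∧
      -(k.2 : ℝ) ≤ 5 * uu β k) a = res (fun k => H / 4 ≤ 1 * (k.1 : ℝ) + β * (k.2 : ℝ))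
      (res (fun k => -(8 * H) ≤ -1 * (k.1 : ℝ) + -β * (k.2 : ℝ))
      (res (fun k => 0 ≤ 5 * (k.1 : ℝ) + (5 * β - 1) * (k.2 : ℝ))
      (res (fun k => 0 ≤ 5 * (k.1 : ℝ) + (5 * β + 1) * (k.2 : ℝ)) a))) := by
    rw [res_res, res_res, res_res]
    apply res_congr
    intro x _
    unfold uu
    constructor
    · rintro ⟨h1, h2, h3, h4⟩
      exact ⟨⟨⟨by linarith, by linarith⟩, by linarith⟩, by linarith⟩
    · rintro ⟨⟨⟨h1, h2⟩, h3⟩, h4⟩
      exact ⟨by linarith, by linarith, by linarith, by linarith⟩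
  rw [e]
  have h1 := n6_res_half hv a 5 (5 * β + 1) 0
  have h2 := n6_res_half hv (res (fun k => 0 ≤ 5 * (k.1 : ℝ) + (5 * β + 1) * (k.2 : ℝ)) a)
    5 (5 * β - 1) 0
  have h3 := n6_res_half hv (res (fun k => 0 ≤ 5 * (k.1 : ℝ) + (5 * β - 1) * (k.2 : ℝ))
    (res (fun k => 0 ≤ 5 * (k.1 : ℝ) + (5 * β + 1) * (k.2 : ℝ)) a)) (-1) (-β) (-(8 * H))
  have h4 := n6_res_half hv (res (fun k => -(8 * H) ≤ -1 * (k.1 : ℝ) + -β * (k.2 : ℝ))
    (res (fun k => 0 ≤ 5 * (k.1 : ℝ) + (5 * β - 1) * (k.2 : ℝ))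
    (res (fun k => 0 ≤ 5 * (k.1 : ℝ) + (5 * β + 1) * (k.2 : ℝ)) a))) 1 β (H / 4)
  linarith

theorem reg_le_Fw {ε : ℝ} (hε : 0 < ε) {p : ℕ} (hp : 1 ≤ p) : ∃ H₀ C : ℝ, 1 ≤ H₀ ∧ 0 < C ∧
    ∀ (β H σ X : ℝ) (v : ℝ → ℝ) (N : ℕ), |β| ≤ 1 / 2 → H₀ ≤ H → 0 < σ → σ ≤ 1 → IsWt X v → 1 ≤ N →
      n6 (mu v) (gs (reg β H) (fun _ => 1) (ph β)) ≤
        C * n6 (mu v) (xp (res (In5 β) (∑ i ∈ Finset.range N, Fw β H ε σ p N i))) := by
  obtain ⟨g₁, hg₁⟩ : ∃ g : ℝ → ℝ, g = fun v => (v ^ p)⁻¹ * exp (p * v) := ⟨_, rfl⟩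
  obtain ⟨K₁, hK₁, hL₁⟩ := lipc_h54 g₁ (fun v => (-(p * v ^ (p - 1)) / (v ^ p) ^ 2) * exp (p * v) +
    (v ^ p)⁻¹ * (exp (p * v) * p)) (α := 1 / 4) (γ := 8) (by norm_num) (by
      intro v hv
      have hv0 : 0 < v := by linarith [hv.1]
      rw [hg₁]
      have h1 : HasDerivAt (fun v : ℝ => v ^ p) (p * v ^ (p - 1)) v := hasDerivAt_pow p v
      have h2 := h1.inv (by positivity)
      have h3 : HasDerivAt (fun v : ℝ => (p : ℝ) * v) p v := by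
        have := (hasDerivAt_id v).const_mul (p : ℝ)
        rw [mul_one] at this
        exact this
      exact h2.mul h3.exp) (by
      have h0 : ∀ v ∈ Icc (1 / 4 : ℝ) 8, v ^ p ≠ 0 := by
        intro v hv
        have hv0 : 0 < v := by linarith [hv.1]
        positivity
      apply ContinuousOn.add
      · apply ContinuousOn.mul
        · apply ContinuousOn.div
          · fun_prop
          · fun_prop
          · intro v hv
            exact pow_ne_zero 2 (h0 v hv)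
        · fun_prop
      · apply ContinuousOn.mul
        · apply ContinuousOn.inv₀
          · fun_prop
          · exact h0
        · fun_prop)
  obtain ⟨C₁, hC₁⟩ : ∃ C, C = |g₁ (1 / 4)| + 1 + 14 * (K₁ * (8 - 1 / 4)) := ⟨_, rfl⟩
  obtain ⟨c, hc⟩ : ∃ c : ℝ, c = 2 * exp (-π) := ⟨_, rfl⟩
  have hc0 : 0 < c := by rw [hc]; positivity
  obtain ⟨C₂, hC₂⟩ : ∃ C, C = c⁻¹ + 1 + 14 * ((c ^ 2)⁻¹ * (5 - -5)) := ⟨_, rfl⟩
  have hC₁0 : 0 < C₁ := by
    rw [hC₁]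
    have e1 : 0 ≤ 14 * (K₁ * (8 - 1 / 4)) := by
      apply mul_nonneg (by norm_num) (mul_nonneg hK₁ (by norm_num))
    have e3 := abs_nonneg (g₁ (1 / 4))
    linarith
  have hC₂0 : 0 < C₂ := by
    rw [hC₂]
    have e1 : 0 ≤ 14 * ((c ^ 2)⁻¹ * ((5 : ℝ) - -5)) := by
      apply mul_nonneg (by norm_num) (mul_nonneg (by positivity) (by norm_num))
    have e3 : 0 < c⁻¹ := by positivity
    linarith
  refine ⟨8 ^ (1 / ε), (C₁ * C₂) ^ 2 * (14 ^ 2) ^ 4, Real.one_le_rpow (by norm_num) (by positivity),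
    by positivity, ?_⟩
  intro β H σ X v N hβ hH hσ hσ1 hv hN
  have hH1 : 1 ≤ H := le_trans (Real.one_le_rpow (by norm_num) (by positivity)) hH
  have hH0 : 0 < H := by linarith
  have h8 : 8 ≤ H ^ ε := by
    have h1 := Real.rpow_le_rpow (by positivity) hH hε.le
    rw [← Real.rpow_mul (by norm_num), one_div, inv_mul_cancel₀ hε.ne', Real.rpow_one] at h1
    exact h1
  rw [Fw_sum β H ε σ p hN]
  obtain ⟨w, hw⟩ : ∃ w : ℤ × ℤ → ℂ, w = fun k => ((wab β H σ (-6) 6 p k : ℝ) : ℂ) := ⟨_, rfl⟩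
  rw [← hw]
  obtain ⟨S, hS⟩ : ∃ S, S = reg β H := ⟨_, rfl⟩
  have hSm : ∀ k ∈ S, (H / 4 ≤ uu β k ∧ uu β k ≤ 8 * H) ∧ -5 ≤ tt β k ∧ tt β k ≤ 5 := by
    intro k hk
    rw [hS, lem_reg_h54 hβ hH1 h8] at hk
    obtain ⟨_, _, h1, h2, h3, h4⟩ := hk
    have hu : 0 < uu β k := by linarith
    refine ⟨⟨h1, h2⟩, ?_, ?_⟩
    · unfold tt
      rw [le_div_iff₀ hu]
      linarith
    · unfold tt
      rw [div_le_iff₀ hu]
      linarith
  have hSpos : ∀ k ∈ S, 0 < uu β k := fun k hk => by linarith [(hSm k hk).1.1]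
  have b1 := mulg_h54 (S := S) (φ := uu β) (A := 14) (cut_u S β) g₁ (α := 1 / 4) (γ := 8) (K := K₁)
    (x0 := 0) (s := H) hH0 (by norm_num) (fun k hk => by
      rw [sub_zero, le_div_iff₀ hH0, div_le_iff₀ hH0]
      have := (hSm k hk).1
      constructor <;> linarith [this.1, this.2]) hL₁
  have b2 := mulg_h54 (S := S) (φ := tt β) (A := 14) (cut_t hSpos) (fun t => (Th_h54 σ t)⁻¹)
    (α := -5) (γ := 5) (K := (c ^ 2)⁻¹) (x0 := 0) (s := 1) one_pos (by norm_num) (fun k hk => by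
      rw [sub_zero, div_one]
      exact (hSm k hk).2) (by
      rw [hc]
      exact inv_lip_h54 hσ hσ1)
  have b2' : IsMul S (fun k => (((fun t => (Th_h54 σ t)⁻¹) ((tt β k - 0) / 1) : ℝ) : ℂ)) C₂ := by
    refine mul_weaken b2 ?_
    rw [hC₂]
    have h1 : |(fun t => (Th_h54 σ t)⁻¹) (-5)| ≤ c⁻¹ := by
      simp only
      have h2 := Th_low_h54 hσ hσ1 (show (-5 : ℝ) ∈ Icc (-5 : ℝ) 5 by constructor <;> norm_num)
      rw [← hc] at h2
      rw [abs_of_nonneg (inv_nonneg.2 (hc0.le.trans h2))]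
      exact inv_anti₀ hc0 h2
    linarith
  rw [← hC₁] at b1
  have hb := mul_comp b1 b2'
  have e1 : gs (reg β H) (fun _ => 1) (ph β) = gs S (fun k => (((g₁ ((uu β k - 0) / H) : ℝ) : ℂ) *
      (((fun t => (Th_h54 σ t)⁻¹) ((tt β k - 0) / 1) : ℝ) : ℂ)) * w k) (ph β) := by
    rw [← hS]
    funext q
    unfold gs
    refine Finset.sum_congr rfl fun k hk => ?_
    congr 1
    have hu : 0 < uu β k / H := div_pos (hSpos k hk) hH0
    have hT := Th_low_h54 hσ hσ1 (show tt β k ∈ Icc (-5 : ℝ) 5 from (hSm k hk).2)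
    rw [← hc] at hT
    have hT0 : 0 < Th_h54 σ (tt β k) := hc0.trans_le hT
    have h1 : g₁ ((uu β k - 0) / H) * (Th_h54 σ ((tt β k - 0) / 1))⁻¹ *
        wab β H σ (-6) 6 p k = 1 := by
      unfold wab
      rw [hg₁, sub_zero, sub_zero, div_one]
      simp only
      have h2 : exp (p * (uu β k / H)) * exp (-(p * (uu β k / H))) = 1 := by
        rw [← Real.exp_add, add_neg_cancel, Real.exp_zero]
      have h3 : (Th_h54 σ (tt β k))⁻¹ * Th_h54 σ (tt β k) = 1 := inv_mul_cancel₀ hT0.ne'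
      have h4 : ((uu β k / H) ^ p)⁻¹ * (uu β k / H) ^ p = 1 := inv_mul_cancel₀ (by positivity)
      have h5 : (1 / σ * ∫ t in (-6 : ℝ)..6, exp (-(π * ((tt β k - t) / σ) ^ 2))) =
        Th_h54 σ (tt β k) := rfl
      rw [h5]
      calc ((uu β k / H) ^ p)⁻¹ * exp (p * (uu β k / H)) * (Th_h54 σ (tt β k))⁻¹ *
            ((uu β k / H) ^ p * exp (-(p * (uu β k / H))) * Th_h54 σ (tt β k)) =
          (((uu β k / H) ^ p)⁻¹ * (uu β k / H) ^ p) *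
          (exp (p * (uu β k / H)) * exp (-(p * (uu β k / H)))) *
          ((Th_h54 σ (tt β k))⁻¹ * Th_h54 σ (tt β k)) := by ring
        _ = 1 := by rw [h2, h3, h4]; norm_num
    rw [hw]
    simp only
    rw [← Complex.ofReal_mul, ← Complex.ofReal_mul, h1, Complex.ofReal_one]
  have e2 : gs S w (ph β) = xp (res (fun k => H / 4 ≤ uu β k ∧ uu β k ≤ 8 * H ∧
      (k.2 : ℝ) ≤ 5 * uu β k ∧ -(k.2 : ℝ) ≤ 5 * uu β k) (res (In5 β) (ofS (frq β H ε) w (ph β)))) := by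
    rw [res_ofS, res_ofS, xp_ofS]
    congr 1
    ext k
    simp only [Finset.mem_filter]
    rw [hS, lem_reg_h54 hβ hH1 h8, and_assoc]
  have h1 := n6_mul hv hb w (ph β)
  have h2 := four_h54 hv (res (In5 β) (ofS (frq β H ε) w (ph β))) β H
  rw [← e2] at h2
  rw [e1]
  calc n6 (mu v) (gs S (fun k => (((g₁ ((uu β k - 0) / H) : ℝ) : ℂ) *
      (((fun t => (Th_h54 σ t)⁻¹) ((tt β k - 0) / 1) : ℝ) : ℂ)) * w k) (ph β))
      ≤ (C₁ * C₂) ^ 2 * n6 (mu v) (gs S w (ph β)) := h1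
    _ ≤ (C₁ * C₂) ^ 2 * ((14 ^ 2) ^ 4 *
        n6 (mu v) (xp (res (In5 β) (ofS (frq β H ε) w (ph β))))) :=
        mul_le_mul_of_nonneg_left h2 (by positivity)
    _ = (C₁ * C₂) ^ 2 * (14 ^ 2) ^ 4 *
        n6 (mu v) (xp (res (In5 β) (ofS (frq β H ε) w (ph β)))) := by ring


end Pool.Agent.Helper76.GS
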