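import Pool.Agent.Helper76.GS.Defs
import Pool.Agent.Helper92.GC.R0
import Pool.Agent.Helper22.AC.B1

/-!
# GS-A1: algebra of exponential polynomials

PROOFS: routine with `Finsupp.sum`: `xp` is additive (`Finsupp.sum_add_index'`), `xp (single x z)`, `xp` of a finite sum (`Finset.induction` or the linear map), `ee_add` (`ee (x + y) = ee x * ee y`), `dt_add` (GC.R0) for
the product; `‖ee‖ = 1` (`ee_norm`). `mx` is biadditive. `l1 a = ∑ x ∈ a.support, ‖a x‖`; `l1` is subadditive (`Finsupp.sum` over a common superset of the supports), `l1_mx_le` from `l1_sum_le`, `l1_single`.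
`l1_res_le`, `res_split`: `Finsupp.filter_pos_add_filter_neg`, `Finsupp.support_filter`. `n6_le_l1`: `n6 = (∫ ‖xp‖^6)^(1/3) ≤ (l1^6)^(1/3)` (`mu v` is a probability measure, `mu_prob` AC.B1).
-/

open MeasureTheory Real Set Filter Topology

set_option autoImplicit false

namespace Pool.Agent.Helper76.GS

open Pool.Agent.Helper22.AE
open Pool.Agent.Helper22.AC (n6 IsWt mu)
open Pool.Agent.Helper92.GC

private theorem l1_of31 {a : Xp} {T : Finset ((ℤ × ℤ) × ℝ)} (h : a.support ⊆ T) : l1 a = ∑ x ∈ T, ‖a x‖ := by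
  unfold l1 Finsupp.sum
  apply Finset.sum_subset h
  intro x _ hx
  show ‖a x‖ = 0
  rw [Finsupp.notMem_support_iff.1 hx, norm_zero]

private theorem l1_zero31 : l1 0 = 0 := by simp [l1]

private theorem l1_single31 (x : (ℤ × ℤ) × ℝ) (z : ℂ) : l1 (Finsupp.single x z) = ‖z‖ := by
  unfold l1
  rw [Finsupp.sum_single_index (by simp)]

private theorem mx_eq31 (a b : Xp) :
    mx a b = ∑ x ∈ a.support, ∑ y ∈ b.support, Finsupp.single (x + y) (a x * b y) := rfl

theorem xp_zero (q : (ℝ × ℝ) × ℝ) : xp 0 q = 0 := by simp [xp]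

theorem xp_single (x : (ℤ × ℤ) × ℝ) (z : ℂ) (q : (ℝ × ℝ) × ℝ) :
    xp (Finsupp.single x z) q = z * ee (dt x.1 q.1 + q.2 * x.2) := by
  unfold xp
  rw [Finsupp.sum_single_index (by simp)]

theorem xp_add (a b : Xp) (q : (ℝ × ℝ) × ℝ) : xp (a + b) q = xp a q + xp b q := by
  unfold xp
  exact Finsupp.sum_add_index' (fun _ => by simp) (fun _ _ _ => by ring)

theorem xp_sub (a b : Xp) (q : (ℝ × ℝ) × ℝ) : xp (a - b) q = xp a q - xp b q := by
  unfold xp
  exact Finsupp.sum_sub_index (fun _ _ _ => by ring)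

theorem xp_sum {ι : Type} (s : Finset ι) (a : ι → Xp) (q : (ℝ × ℝ) × ℝ) :
    xp (∑ i ∈ s, a i) q = ∑ i ∈ s, xp (a i) q := by
  classical
  induction s using Finset.induction_on with
  | empty => simp [xp_zero]
  | insert i s hi ih => rw [Finset.sum_insert hi, Finset.sum_insert hi, xp_add, ih]

theorem xp_eq (a : Xp) (q : (ℝ × ℝ) × ℝ) : xp a q = ∑ x ∈ a.support, a x * ee (dt x.1 q.1 + q.2 * x.2) := rfl

theorem xp_mx (a b : Xp) (q : (ℝ × ℝ) × ℝ) : xp (mx a b) q = xp a q * xp b q := by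
  rw [mx_eq31, xp_sum, xp_eq a, xp_eq b, Finset.sum_mul_sum]
  refine Finset.sum_congr rfl fun x _ => ?_
  rw [xp_sum]
  refine Finset.sum_congr rfl fun y _ => ?_
  rw [xp_single]
  have h : dt (x + y).1 q.1 + q.2 * (x + y).2
      = (dt x.1 q.1 + q.2 * x.2) + (dt y.1 q.1 + q.2 * y.2) := by
    show dt (x.1 + y.1) q.1 + q.2 * (x.2 + y.2) = _
    rw [dt_add]
    ring
  rw [h, ee_add]
  ring

theorem mx_add (a a' b : Xp) : mx (a + a') b = mx a b + mx a' b := by
  unfold mx
  refine Finsupp.sum_add_index' (fun x => ?_) (fun x z z' => ?_)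
  · simp
  · rw [← Finsupp.sum_add]
    refine Finsupp.sum_congr fun y _ => ?_
    rw [add_mul, Finsupp.single_add]

private theorem mx_zero31 (b : Xp) : mx 0 b = 0 := by simp [mx]

theorem mx_sum {ι : Type} (s : Finset ι) (a : ι → Xp) (b : Xp) : mx (∑ i ∈ s, a i) b = ∑ i ∈ s, mx (a i) b := by
  classical
  induction s using Finset.induction_on with
  | empty => simp [mx_zero31]
  | insert i s hi ih => rw [Finset.sum_insert hi, Finset.sum_insert hi, mx_add, ih]

theorem mx_sub (a b b' : Xp) : mx a (b - b') = mx a b - mx a b' := by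
  unfold mx
  rw [← Finsupp.sum_sub]
  refine Finsupp.sum_congr fun x _ => ?_
  refine Finsupp.sum_sub_index (fun y w w' => ?_)
  rw [mul_sub, Finsupp.single_sub]

theorem mx_supp {a b : Xp} {x : (ℤ × ℤ) × ℝ} (h : x ∈ (mx a b).support) :
    ∃ y ∈ a.support, ∃ z ∈ b.support, x = y + z := by
  by_contra hc
  push Not at hc
  rw [Finsupp.mem_support_iff, mx_eq31] at h
  apply h
  rw [Finsupp.finsetSum_apply]
  refine Finset.sum_eq_zero fun y hy => ?_
  rw [Finsupp.finsetSum_apply]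
  refine Finset.sum_eq_zero fun z hz => ?_
  exact Finsupp.single_eq_of_ne (hc y hy z hz)

private theorem dt_cont31 (k : ℤ × ℤ) : Continuous (dt k) := by
  unfold dt
  fun_prop

theorem xp_cont (a : Xp) : Continuous (xp a) := by
  have h : xp a = fun q => ∑ x ∈ a.support, a x * ee (dt x.1 q.1 + q.2 * x.2) := funext fun q => xp_eq a q
  rw [h]
  refine continuous_finsetSum _ fun x _ => ?_
  exact continuous_const.mul (ee_cont.comp (((dt_cont31 x.1).comp continuous_fst).add (continuous_snd.mul continuous_const)))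

theorem xp_norm_le (a : Xp) (q : (ℝ × ℝ) × ℝ) : ‖xp a q‖ ≤ l1 a := by
  rw [xp_eq]
  refine (norm_sum_le _ _).trans (le_of_eq ?_)
  unfold l1 Finsupp.sum
  refine Finset.sum_congr rfl fun x _ => ?_
  rw [norm_mul, ee_norm, mul_one]

theorem l1_nonneg (a : Xp) : 0 ≤ l1 a := by
  unfold l1 Finsupp.sum
  exact Finset.sum_nonneg fun _ _ => norm_nonneg _

theorem l1_add_le (a b : Xp) : l1 (a + b) ≤ l1 a + l1 b := by
  classical
  rw [l1_of31 (Finsupp.support_add (g₁ := a) (g₂ := b)), l1_of31 (Finset.subset_union_left (s₁ := a.support) (s₂ := b.support)),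
    l1_of31 (Finset.subset_union_right (s₁ := a.support) (s₂ := b.support)), ← Finset.sum_add_distrib]
  exact Finset.sum_le_sum fun x _ => norm_add_le _ _

theorem l1_sub_le (a b : Xp) : l1 (a - b) ≤ l1 a + l1 b := by
  classical
  rw [l1_of31 (Finsupp.support_sub (f := a) (g := b)), l1_of31 (Finset.subset_union_left (s₁ := a.support) (s₂ := b.support)),
    l1_of31 (Finset.subset_union_right (s₁ := a.support) (s₂ := b.support)), ← Finset.sum_add_distrib]
  exact Finset.sum_le_sum fun x _ => norm_sub_le _ _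

theorem l1_sum_le {ι : Type} (s : Finset ι) (a : ι → Xp) : l1 (∑ i ∈ s, a i) ≤ ∑ i ∈ s, l1 (a i) := by
  classical
  induction s using Finset.induction_on with
  | empty => simp [l1_zero31]
  | insert i s hi ih =>
    rw [Finset.sum_insert hi, Finset.sum_insert hi]
    exact (l1_add_le _ _).trans (by linarith)

private theorem l1_sum_le31 {ι : Type*} (s : Finset ι) (a : ι → Xp) : l1 (∑ i ∈ s, a i) ≤ ∑ i ∈ s, l1 (a i) := by
  classical
  induction s using Finset.induction_on with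
  | empty => simp [l1_zero31]
  | insert i s hi ih =>
    rw [Finset.sum_insert hi, Finset.sum_insert hi]
    exact (l1_add_le _ _).trans (by linarith)

theorem l1_mx_le (a b : Xp) : l1 (mx a b) ≤ l1 a * l1 b := by
  rw [mx_eq31]
  refine (l1_sum_le31 _ _).trans ?_
  have h : l1 a * l1 b = ∑ x ∈ a.support, ∑ y ∈ b.support, ‖a x‖ * ‖b y‖ := by
    rw [l1_of31 (Finset.Subset.refl a.support), l1_of31 (Finset.Subset.refl b.support), Finset.sum_mul_sum]
  rw [h]
  refine Finset.sum_le_sum fun x _ => ?_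
  refine (l1_sum_le31 _ _).trans (Finset.sum_le_sum fun y _ => ?_)
  rw [l1_single31, norm_mul]

theorem res_add (P : ℤ × ℤ → Prop) (a b : Xp) : res P (a + b) = res P a + res P b := by
  unfold res
  ext x
  simp only [Finsupp.add_apply, Finsupp.filter_apply]
  split_ifs
  · rfl
  · simp

theorem res_sub (P : ℤ × ℤ → Prop) (a b : Xp) : res P (a - b) = res P a - res P b := by
  unfold res
  ext x
  simp only [Finsupp.sub_apply, Finsupp.filter_apply]
  split_ifs
  · rfl
  · simp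

private theorem res_sum31 {ι : Type*} (P : ℤ × ℤ → Prop) (s : Finset ι) (a : ι → Xp) :
    res P (∑ i ∈ s, a i) = ∑ i ∈ s, res P (a i) := by
  classical
  induction s using Finset.induction_on with
  | empty =>
    rw [Finset.sum_empty, Finset.sum_empty]
    unfold res
    ext x
    simp [Finsupp.filter_apply]
  | insert i s hi ih => rw [Finset.sum_insert hi, Finset.sum_insert hi, res_add, ih]

theorem res_sum {ι : Type} (P : ℤ × ℤ → Prop) (s : Finset ι) (a : ι → Xp) :
    res P (∑ i ∈ s, a i) = ∑ i ∈ s, res P (a i) := res_sum31 P s a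

theorem mem_res {P : ℤ × ℤ → Prop} {a : Xp} {x : (ℤ × ℤ) × ℝ} : x ∈ (res P a).support ↔ x ∈ a.support ∧ P x.1 := by
  classical
  unfold res
  rw [Finsupp.support_filter, Finset.mem_filter]

private theorem res_apply31 {P : ℤ × ℤ → Prop} {a : Xp} {x : (ℤ × ℤ) × ℝ} (h : P x.1) : res P a x = a x := by
  classical
  unfold res
  rw [Finsupp.filter_apply, if_pos h]

private theorem res_apply31' {P : ℤ × ℤ → Prop} {a : Xp} {x : (ℤ × ℤ) × ℝ} (h : ¬ P x.1) : res P a x = 0 := by
  classical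
  unfold res
  rw [Finsupp.filter_apply, if_neg h]

theorem res_res (P Q : ℤ × ℤ → Prop) (a : Xp) : res P (res Q a) = res (fun k => P k ∧ Q k) a := by
  ext x
  by_cases hP : P x.1
  · rw [res_apply31 hP]
    by_cases hQ : Q x.1
    · rw [res_apply31 hQ, res_apply31 (P := fun k => P k ∧ Q k) ⟨hP, hQ⟩]
    · rw [res_apply31' hQ, res_apply31' (P := fun k => P k ∧ Q k) (fun h => hQ h.2)]
  · rw [res_apply31' hP, res_apply31' (P := fun k => P k ∧ Q k) (fun h => hP h.1)]

theorem res_split (P : ℤ × ℤ → Prop) (a : Xp) : a = res P a + res (fun k => ¬ P k) a := by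
  ext x
  rw [Finsupp.add_apply]
  by_cases hP : P x.1
  · rw [res_apply31 hP, res_apply31' (P := fun k => ¬ P k) (fun h => h hP), add_zero]
  · rw [res_apply31' hP, res_apply31 (P := fun k => ¬ P k) hP, zero_add]

theorem res_congr {P Q : ℤ × ℤ → Prop} {a : Xp} (h : ∀ x ∈ a.support, (P x.1 ↔ Q x.1)) : res P a = res Q a := by
  ext x
  by_cases hx : x ∈ a.support
  · by_cases hP : P x.1
    · rw [res_apply31 hP, res_apply31 ((h x hx).1 hP)]
    · rw [res_apply31' hP, res_apply31' (fun hQ => hP ((h x hx).2 hQ))]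
  · have h0 : a x = 0 := Finsupp.notMem_support_iff.1 hx
    have key : ∀ R : ℤ × ℤ → Prop, res R a x = 0 := by
      intro R
      by_cases hR : R x.1
      · rw [res_apply31 hR, h0]
      · rw [res_apply31' hR]
    rw [key, key]

theorem l1_res_le (P : ℤ × ℤ → Prop) (a : Xp) : l1 (res P a) ≤ l1 a := by
  have hs : (res P a).support ⊆ a.support := fun x hx => (mem_res.1 hx).1
  rw [l1_of31 hs, l1_of31 (Finset.Subset.refl a.support)]
  refine Finset.sum_le_sum fun x _ => ?_
  by_cases hP : P x.1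
  · rw [res_apply31 hP]
  · rw [res_apply31' hP, norm_zero]
    exact norm_nonneg _

theorem xp_ofS (S : Finset (ℤ × ℤ)) (w : ℤ × ℤ → ℂ) (f : ℤ × ℤ → ℝ) : xp (ofS S w f) = gs S w f := by
  funext q
  unfold ofS gs
  rw [xp_sum]
  exact Finset.sum_congr rfl fun k _ => xp_single _ _ _

theorem ofS_supp {S : Finset (ℤ × ℤ)} {w : ℤ × ℤ → ℂ} {f : ℤ × ℤ → ℝ} {x : (ℤ × ℤ) × ℝ} (h : x ∈ (ofS S w f).support) :
    x.1 ∈ S ∧ x.2 = f x.1 := by
  by_contra hc
  rw [Finsupp.mem_support_iff] at h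
  apply h
  unfold ofS
  rw [Finsupp.finsetSum_apply]
  refine Finset.sum_eq_zero fun k hk => ?_
  apply Finsupp.single_eq_of_ne
  rintro rfl
  exact hc ⟨hk, rfl⟩

open Classical in
theorem res_ofS (P : ℤ × ℤ → Prop) (S : Finset (ℤ × ℤ)) (w : ℤ × ℤ → ℂ) (f : ℤ × ℤ → ℝ) :
    res P (ofS S w f) = ofS (S.filter P) w f := by
  unfold ofS
  rw [res_sum31, Finset.sum_filter]
  refine Finset.sum_congr rfl fun k _ => ?_
  split_ifs with h
  · unfold res
    exact Finsupp.filter_single_of_pos _ h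
  · unfold res
    exact Finsupp.filter_single_of_neg _ h

theorem l1_ofS_le (S : Finset (ℤ × ℤ)) (w : ℤ × ℤ → ℂ) (f : ℤ × ℤ → ℝ) : l1 (ofS S w f) ≤ ∑ k ∈ S, ‖w k‖ := by
  unfold ofS
  refine (l1_sum_le _ _).trans (le_of_eq ?_)
  exact Finset.sum_congr rfl fun k _ => l1_single31 _ _

theorem ofS_add (S : Finset (ℤ × ℤ)) (w w' : ℤ × ℤ → ℂ) (f : ℤ × ℤ → ℝ) :
    ofS S (fun k => w k + w' k) f = ofS S w f + ofS S w' f := by
  unfold ofS
  rw [← Finset.sum_add_distrib]
  exact Finset.sum_congr rfl fun k _ => Finsupp.single_add _ _ _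

theorem n6_le_l1 {X : ℝ} {v : ℝ → ℝ} (hv : IsWt X v) (a : Xp) : n6 (mu v) (xp a) ≤ l1 a ^ 2 := by
  have hp : IsProbabilityMeasure (mu v) := Pool.Agent.Helper22.AC.mu_prob hv
  have h0 := l1_nonneg a
  have h1 : ‖∫ q, ‖xp a q‖ ^ 6 ∂(mu v)‖ ≤ l1 a ^ 6 * (mu v).real univ := by
    apply norm_integral_le_of_norm_le_const
    refine Filter.Eventually.of_forall fun q => ?_
    rw [norm_pow, norm_norm]
    exact pow_le_pow_left₀ (norm_nonneg _) (xp_norm_le a q) 6
  rw [probReal_univ, mul_one] at h1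
  have h2 : ∫ q, ‖xp a q‖ ^ 6 ∂(mu v) ≤ l1 a ^ 6 := (le_norm_self _).trans h1
  have h3 : 0 ≤ ∫ q, ‖xp a q‖ ^ 6 ∂(mu v) := integral_nonneg fun q => by positivity
  unfold n6
  calc (∫ q, ‖xp a q‖ ^ 6 ∂(mu v)) ^ (1 / 3 : ℝ) ≤ (l1 a ^ 6) ^ (1 / 3 : ℝ) :=
        Real.rpow_le_rpow h3 h2 (by norm_num)
    _ = l1 a ^ 2 := by
        rw [← Real.rpow_natCast, ← Real.rpow_mul h0, ← Real.rpow_natCast]
        norm_num

end Pool.Agent.Helper76.GS
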