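import Pool.Agent.Helper76.GS.A1
import Pool.Agent.Helper92.GC.T1

/-!
# GS-A2: slices and multipliers for exponential polynomials

PROOFS. `xp_slice`: `ee (dt k c + R τ) = ee (dt k c) * ee (R τ)`, group by `k`. `sl_res`: termwise. `n6_xp_slice`: as `n6_slice` (GC.T1). `n6_res`: as `n6_le_of_m6`, `n6_mul` (GC.T1): for fixed `R` apply `IsMul`
to the coefficients `sl a R`, `S` = the first components of the support. `n6_res_half`, `n6_res_lt`: `mul_half`, `mul_half_lt` (GC.R2). `n6_res_t`: where `uu β k > 0` the conditions `z ≤ tt β k`, `tt β k < z'` are the half planes `z uu β k ≤ k.2`, `k.2 < z' uu β k` (`res_congr`, `res_res`). `n6_res_and`: `res_res`. `n6_sum_xp`: `n6_sum_le` (AC.A1) with an enumeration of `s` (`Finset.equivFin` or `Finset.sum_range`), `N^(5/3) ≤ N²`.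
-/

open MeasureTheory Real Set Filter Topology

set_option autoImplicit false

namespace Pool.Agent.Helper76.GS

open Pool.Agent.Helper22.AE
open Pool.Agent.Helper22.AC (n6 IsWt mu)
open Pool.Agent.Helper92.GC

open Classical in
/-- the coefficients of the polynomial `c ↦ xp a (c, R)` -/
noncomputable def sl (a : Xp) (R : ℝ) (k : ℤ × ℤ) : ℂ := ∑ x ∈ a.support.filter (fun x => x.1 = k), a x * ee (R * x.2)

theorem xp_slice {a : Xp} {S : Finset (ℤ × ℤ)} (hS : ∀ x ∈ a.support, x.1 ∈ S) (c : ℝ × ℝ) (R : ℝ) :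
    xp a (c, R) = tp S (sl a R) c := by
  classical
  rw [xp_eq]
  unfold tp sl
  rw [← Finset.sum_fiberwise_of_maps_to hS]
  refine Finset.sum_congr rfl fun k _ => ?_
  rw [Finset.sum_mul]
  refine Finset.sum_congr (by ext x; simp) fun x hx => ?_
  have h1 : x.1 = k := (Finset.mem_filter.1 hx).2
  rw [ee_add, h1]
  ring

open Classical in
theorem sl_res (P : ℤ × ℤ → Prop) (a : Xp) (R : ℝ) (k : ℤ × ℤ) : sl (res P a) R k = (if P k then 1 else 0) * sl a R k := by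
  by_cases hP : P k
  · rw [if_pos hP, one_mul]
    unfold sl
    refine Finset.sum_congr ?_ fun x hx => ?_
    · ext x
      rw [Finset.mem_filter, Finset.mem_filter, mem_res]
      constructor
      · rintro ⟨⟨h1, h2⟩, h3⟩
        exact ⟨h1, h3⟩
      · rintro ⟨h1, h3⟩
        exact ⟨⟨h1, h3 ▸ hP⟩, h3⟩
    · have h1 : x.1 = k := (Finset.mem_filter.1 hx).2
      have h2 : res P a x = a x := by
        unfold res
        exact Finsupp.filter_apply_pos _ _ (by rw [h1]; exact hP)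
      rw [h2]
  · rw [if_neg hP, zero_mul]
    unfold sl
    refine Finset.sum_eq_zero fun x hx => ?_
    obtain ⟨h1, h2⟩ := Finset.mem_filter.1 hx
    exact absurd (h2 ▸ (mem_res.1 h1).2) hP

private theorem prob85 {X : ℝ} {v : ℝ → ℝ} (hv : IsWt X v) :
    IsProbabilityMeasure ((volume : Measure ℝ).withDensity fun R => ENNReal.ofReal (v R)) := by
  have hint : Integrable v := by
    by_contra hcon
    have h2 := hv.int_one
    rw [integral_undef hcon] at h2
    exact zero_ne_one h2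
  constructor
  rw [withDensity_apply _ MeasurableSet.univ, Measure.restrict_univ,
    ← ofReal_integral_eq_lintegral_ofReal hint (Eventually.of_forall hv.nonneg), hv.int_one,
    ENNReal.ofReal_one]

private theorem int85 {X : ℝ} {v : ℝ → ℝ} (hv : IsWt X v) (a : Xp) :
    Integrable (fun q => ‖xp a q‖ ^ 6) (mu v) := by
  have := Pool.Agent.Helper22.AC.mu_prob hv
  refine Integrable.of_bound (C := l1 a ^ 6) ((xp_cont a).norm.pow 6).aestronglyMeasurable
    (Eventually.of_forall fun q => ?_)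
  rw [Real.norm_of_nonneg (by positivity)]
  exact pow_le_pow_left₀ (norm_nonneg _) (xp_norm_le a q) 6

private theorem slice85 {X : ℝ} {v : ℝ → ℝ} (hv : IsWt X v) {a : Xp} {S : Finset (ℤ × ℤ)}
    (hS : ∀ x ∈ a.support, x.1 ∈ S) :
    n6 (mu v) (xp a) ^ 3 = ∫ R, m6 S (sl a R)
      ∂((volume : Measure ℝ).withDensity fun R => ENNReal.ofReal (v R)) ∧
    Integrable (fun R => m6 S (sl a R))
      ((volume : Measure ℝ).withDensity fun R => ENNReal.ofReal (v R)) := by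
  have hp := prob85 hv
  have hint := int85 hv a
  have e : (fun R => m6 S (sl a R)) = fun R =>
      ∫ c, ‖xp a (c, R)‖ ^ 6 ∂(volume.restrict (Icc (0 : ℝ) 1 ×ˢ Icc (0 : ℝ) 1)) := by
    funext R
    unfold m6 Tq
    refine integral_congr_ae (Eventually.of_forall fun c => ?_)
    simp only
    rw [xp_slice hS]
  rw [Pool.Agent.Helper22.AC.n6_cube, e]
  unfold mu at hint ⊢
  exact ⟨integral_prod_symm _ hint, hint.integral_prod_right⟩

theorem n6_xp_slice {X : ℝ} {v : ℝ → ℝ} (hv : IsWt X v) {a : Xp} {S : Finset (ℤ × ℤ)} (hS : ∀ x ∈ a.support, x.1 ∈ S) :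
    n6 (mu v) (xp a) ^ 3 = ∫ R, v R * m6 S (sl a R) := by
  rw [(slice85 hv hS).1, integral_withDensity_eq_integral_toReal_smul
    (hv.cont.measurable.ennreal_ofReal) (Filter.Eventually.of_forall fun _ => ENNReal.ofReal_lt_top)]
  refine integral_congr_ae (Eventually.of_forall fun R => ?_)
  simp only
  rw [ENNReal.toReal_ofReal (hv.nonneg R), smul_eq_mul]

open Classical in
theorem n6_res {X : ℝ} {v : ℝ → ℝ} (hv : IsWt X v) {a : Xp} {S : Finset (ℤ × ℤ)} (hS : ∀ x ∈ a.support, x.1 ∈ S)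
    {P : ℤ × ℤ → Prop} {C : ℝ} (hP : IsMul S (fun k => if P k then 1 else 0) C) :
    n6 (mu v) (xp (res P a)) ≤ C ^ 2 * n6 (mu v) (xp a) := by
  have hS' : ∀ x ∈ (res P a).support, x.1 ∈ S := fun x hx => hS x (mem_res.1 hx).1
  obtain ⟨h1, h2⟩ := slice85 hv hS'
  obtain ⟨h3, h4⟩ := slice85 hv hS
  have h : ∀ R : ℝ, m6 S (sl (res P a) R) ≤ C ^ 6 * m6 S (sl a R) := by
    intro R
    have e : m6 S (sl (res P a) R) = m6 S (fun k => (if P k then 1 else 0) * sl a R k) :=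
      m6_congr fun k _ => sl_res P a R k
    rw [e]
    exact hP.2 (sl a R)
  have h5 : n6 (mu v) (xp (res P a)) ^ 3 ≤ (C ^ 2 * n6 (mu v) (xp a)) ^ 3 := by
    have e : (C ^ 2 * n6 (mu v) (xp a)) ^ 3 = C ^ 6 * n6 (mu v) (xp a) ^ 3 := by ring
    rw [e, h1, h3, ← integral_const_mul]
    exact integral_mono h2 (h4.const_mul _) h
  exact (pow_le_pow_iff_left₀ (Pool.Agent.Helper22.AC.n6_nonneg _ _)
    (mul_nonneg (by positivity) (Pool.Agent.Helper22.AC.n6_nonneg _ _)) (by norm_num : (3 : ℕ) ≠ 0)).1 h5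

private theorem fst85 (a : Xp) : ∀ x ∈ a.support, x.1 ∈ a.support.image Prod.fst :=
  fun _ hx => Finset.mem_image_of_mem _ hx

private theorem two85 {X : ℝ} {v : ℝ → ℝ} (hv : IsWt X v) {a : Xp} {P Q : ℤ × ℤ → Prop}
    (hP : ∀ b : Xp, n6 (mu v) (xp (res P b)) ≤ 14 ^ 2 * n6 (mu v) (xp b))
    (hQ : ∀ b : Xp, n6 (mu v) (xp (res Q b)) ≤ 14 ^ 2 * n6 (mu v) (xp b)) {T : ℤ × ℤ → Prop}
    (hT : ∀ x ∈ a.support, (T x.1 ↔ P x.1 ∧ Q x.1)) :
    n6 (mu v) (xp (res T a)) ≤ 14 ^ 4 * n6 (mu v) (xp a) := by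
  have _h0 := hv.nonneg
  have e : res T a = res P (res Q a) := by
    rw [res_res]
    exact res_congr hT
  rw [e]
  have h1 := hP (res Q a)
  have h2 := hQ a
  calc n6 (mu v) (xp (res P (res Q a))) ≤ 14 ^ 2 * n6 (mu v) (xp (res Q a)) := h1
    _ ≤ 14 ^ 2 * (14 ^ 2 * n6 (mu v) (xp a)) := mul_le_mul_of_nonneg_left h2 (by norm_num)
    _ = 14 ^ 4 * n6 (mu v) (xp a) := by ring

theorem n6_res_half {X : ℝ} {v : ℝ → ℝ} (hv : IsWt X v) (a : Xp) (x y z : ℝ) :
    n6 (mu v) (xp (res (fun k => z ≤ x * (k.1 : ℝ) + y * (k.2 : ℝ)) a)) ≤ 14 ^ 2 * n6 (mu v) (xp a) := by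
  refine n6_res hv (fst85 a) (mul_congr (fun k _ => ?_) (mul_half (a.support.image Prod.fst) x y z))
  split_ifs <;> rfl

theorem n6_res_lt {X : ℝ} {v : ℝ → ℝ} (hv : IsWt X v) (a : Xp) (x y z : ℝ) :
    n6 (mu v) (xp (res (fun k => z < x * (k.1 : ℝ) + y * (k.2 : ℝ)) a)) ≤ 14 ^ 2 * n6 (mu v) (xp a) := by
  refine n6_res hv (fst85 a) (mul_congr (fun k _ => ?_) (mul_half_lt (a.support.image Prod.fst) x y z))
  split_ifs <;> rfl

/-- cut in `u`: `z ≤ u < z'` -/
theorem n6_res_u {X : ℝ} {v : ℝ → ℝ} (hv : IsWt X v) (a : Xp) (β z z' : ℝ) :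
    n6 (mu v) (xp (res (fun k => z ≤ uu β k ∧ uu β k < z') a)) ≤ 14 ^ 4 * n6 (mu v) (xp a) := by
  refine two85 hv (fun b => n6_res_half hv b 1 β z) (fun b => n6_res_lt hv b (-1) (-β) (-z'))
    fun x _ => ?_
  unfold uu
  constructor
  · rintro ⟨h1, h2⟩
    exact ⟨by linarith, by linarith⟩
  · rintro ⟨h1, h2⟩
    exact ⟨by linarith, by linarith⟩

/-- cut in `t`: `z ≤ t < z'` -/
theorem n6_res_t {X : ℝ} {v : ℝ → ℝ} (hv : IsWt X v) {a : Xp} {β : ℝ} (ha : ∀ x ∈ a.support, 0 < uu β x.1) (z z' : ℝ) :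
    n6 (mu v) (xp (res (fun k => z ≤ tt β k ∧ tt β k < z') a)) ≤ 14 ^ 4 * n6 (mu v) (xp a) := by
  refine two85 hv (fun b => n6_res_half hv b (-z) (1 - z * β) 0)
    (fun b => n6_res_lt hv b z' (z' * β - 1) 0) fun x hx => ?_
  have h0 := ha x hx
  unfold tt
  rw [le_div_iff₀ h0, div_lt_iff₀ h0]
  unfold uu
  constructor
  · rintro ⟨h1, h2⟩
    exact ⟨by linarith, by linarith⟩
  · rintro ⟨h1, h2⟩
    exact ⟨by linarith, by linarith⟩

theorem n6_res_In5 {X : ℝ} {v : ℝ → ℝ} (hv : IsWt X v) (a : Xp) (β : ℝ) :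
    n6 (mu v) (xp (res (In5 β) a)) ≤ 14 ^ 4 * n6 (mu v) (xp a) := by
  refine two85 hv (fun b => n6_res_half hv b (11 / 2) (11 / 2 * β - 1) 0)
    (fun b => n6_res_half hv b (11 / 2) (11 / 2 * β + 1) 0) fun x _ => ?_
  unfold In5 uu
  rw [abs_le]
  constructor
  · rintro ⟨h1, h2⟩
    exact ⟨by linarith, by linarith⟩
  · rintro ⟨h1, h2⟩
    exact ⟨by linarith, by linarith⟩

theorem n6_sum_xp {X : ℝ} {v : ℝ → ℝ} (hv : IsWt X v) {ι : Type} (s : Finset ι) (a : ι → Xp) :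
    n6 (mu v) (xp (∑ i ∈ s, a i)) ≤ (s.card : ℝ) ^ 2 * ∑ i ∈ s, n6 (mu v) (xp (a i)) := by
  classical
  have hprob := Pool.Agent.Helper22.AC.mu_prob hv
  let b : ℕ → Xp := fun r => if h : r < s.card then a (s.equivFin.symm ⟨r, h⟩ : s) else 0
  have hsum : ∀ g : Xp → ℂ, ∑ r ∈ Finset.range s.card, g (b r) = ∑ i ∈ s, g (a i) := by
    intro g
    rw [Finset.sum_range, ← Finset.sum_coe_sort s, ← Equiv.sum_comp s.equivFin.symm]
    refine Finset.sum_congr rfl fun r _ => ?_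
    simp only [b, r.2, dif_pos]
  have hsumR : ∀ g : Xp → ℝ, ∑ r ∈ Finset.range s.card, g (b r) = ∑ i ∈ s, g (a i) := by
    intro g
    rw [Finset.sum_range, ← Finset.sum_coe_sort s, ← Equiv.sum_comp s.equivFin.symm]
    refine Finset.sum_congr rfl fun r _ => ?_
    simp only [b, r.2, dif_pos]
  have h1 := Pool.Agent.Helper22.AC.n6_sum_le (mu v) s.card (fun r => xp (b r))
    (fun r => (xp_cont (b r)).measurable) (fun r => ⟨l1 (b r), fun q => xp_norm_le (b r) q⟩)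
  have e1 : (fun q => ∑ r ∈ Finset.range s.card, xp (b r) q) = xp (∑ i ∈ s, a i) := by
    funext q
    rw [xp_sum]
    exact hsum fun c => xp c q
  have e2 : ∑ r ∈ Finset.range s.card, n6 (mu v) (xp (b r)) = ∑ i ∈ s, n6 (mu v) (xp (a i)) :=
    hsumR fun c => n6 (mu v) (xp c)
  rw [e1, e2] at h1
  refine h1.trans (mul_le_mul_of_nonneg_right ?_
    (Finset.sum_nonneg fun i _ => Pool.Agent.Helper22.AC.n6_nonneg _ _))
  rcases Nat.eq_zero_or_pos s.card with h0 | h0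
  · rw [h0]
    norm_num
  · have h2 : (1 : ℝ) ≤ s.card := by exact_mod_cast h0
    have h3 := Real.rpow_le_rpow_of_exponent_le h2 (by norm_num : (5 / 3 : ℝ) ≤ 2)
    rwa [Real.rpow_two] at h3

end Pool.Agent.Helper76.GS
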