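import Pool.Agent.Helper76.GS.A1
import Pool.Agent.Helper92.GC.T1

/-!
# GS-A3: orthogonality for exponential polynomials

PROOF: as `orth_gs` (GC.T1, lines 200-400; copy its private lemmas): expand `xp a q * conj (xp b q) * |xp y q|^4` into characters `ee (dt k c + R ξ)` with `k = x.1 - x'.1 + y₁.1 + y₂.1 - y₃.1 - y₄.1`, `ξ` the same with `.2`;
the integral of such a character over `mu v` vanishes if `k ≠ 0` or `|ξ| ≥ 1/X`. All sums are over the supports (`xp_eq`).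
-/

open MeasureTheory Real Set Filter Topology

set_option autoImplicit false

namespace Pool.Agent.Helper76.GS

open Pool.Agent.Helper22.AE
open Pool.Agent.Helper22.AC (n6 IsWt mu)
open Pool.Agent.Helper92.GC

/-- the character -/
private noncomputable def hE46 (k : ℤ × ℤ) (ξ : ℝ) (q : (ℝ × ℝ) × ℝ) : ℂ := ee (dt k q.1 + q.2 * ξ)

private theorem dt_neg46 (k : ℤ × ℤ) (c : ℝ × ℝ) : dt (-k) c = -dt k c := by
  unfold dt
  rw [Prod.fst_neg, Prod.snd_neg]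
  push_cast
  ring

private theorem char46 {X : ℝ} {v : ℝ → ℝ} (hv : IsWt X v) (k : ℤ × ℤ) (ξ : ℝ)
    (h : k ≠ 0 ∨ 1 / X ≤ |ξ|) : ∫ q, hE46 k ξ q ∂(mu v) = 0 := by
  have h0 := Pool.Agent.Helper22.AC.char_int hv (-k) (-ξ)
    (h.imp (fun h1 => neg_ne_zero.2 h1) (fun h1 => by rw [abs_neg]; exact h1))
  rw [← h0]
  refine integral_congr_ae (Eventually.of_forall fun q => ?_)
  simp only
  unfold hE46 dt
  congr 1
  rw [Prod.fst_neg, Prod.snd_neg]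
  push_cast
  ring

/-- bounded continuous -/
private def BC46 (g : (ℝ × ℝ) × ℝ → ℂ) : Prop := Continuous g ∧ ∃ B : ℝ, ∀ q, ‖g q‖ ≤ B

private theorem BC_mul46 {f g : (ℝ × ℝ) × ℝ → ℂ} (hf : BC46 f) (hg : BC46 g) :
    BC46 (fun q => f q * g q) := by
  obtain ⟨hf1, B, hB⟩ := hf
  obtain ⟨hg1, B', hB'⟩ := hg
  refine ⟨hf1.mul hg1, B * B', fun q => ?_⟩
  rw [norm_mul]
  exact mul_le_mul (hB q) (hB' q) (norm_nonneg _) ((norm_nonneg _).trans (hB q))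

private theorem BC_conj46 {f : (ℝ × ℝ) × ℝ → ℂ} (hf : BC46 f) :
    BC46 (fun q => (starRingEnd ℂ) (f q)) := by
  obtain ⟨hf1, B, hB⟩ := hf
  refine ⟨Complex.continuous_conj.comp hf1, B, fun q => ?_⟩
  rw [RCLike.norm_conj]
  exact hB q

private theorem BC_xp46 (a : Xp) : BC46 (xp a) := ⟨xp_cont a, _, xp_norm_le a⟩

private theorem BC_E46 (k : ℤ × ℤ) (ξ : ℝ) : BC46 (hE46 k ξ) := by
  refine ⟨?_, 1, fun q => (ee_norm _).le⟩
  unfold hE46 dt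
  exact ee_cont.comp (by fun_prop)

private theorem BC_int46 {X : ℝ} {v : ℝ → ℝ} (hv : IsWt X v) {f : (ℝ × ℝ) × ℝ → ℂ}
    (hf : BC46 f) : Integrable f (mu v) := by
  have := Pool.Agent.Helper22.AC.mu_prob hv
  obtain ⟨hf1, B, hB⟩ := hf
  exact Integrable.of_bound hf1.aestronglyMeasurable B (Filter.Eventually.of_forall hB)

private theorem E_mul46 (k y : ℤ × ℤ) (ξ η : ℝ) (q : (ℝ × ℝ) × ℝ) :
    hE46 k ξ q * hE46 y η q = hE46 (k + y) (ξ + η) q := by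
  unfold hE46
  rw [← ee_add, dt_add]
  congr 1
  ring

private theorem E_conj46 (y : ℤ × ℤ) (η : ℝ) (q : (ℝ × ℝ) × ℝ) :
    (starRingEnd ℂ) (hE46 y η q) = hE46 (-y) (-η) q := by
  unfold hE46
  rw [← ee_neg, dt_neg46]
  congr 1
  ring

private theorem step46 {X : ℝ} {v : ℝ → ℝ} (hv : IsWt X v) {G : (ℝ × ℝ) × ℝ → ℂ} (hG : BC46 G)
    {C : ℤ × ℤ → ℝ → Prop} (hC : ∀ k ξ, C k ξ → ∫ q, hE46 k ξ q * G q ∂(mu v) = 0)
    (a : Xp) (k : ℤ × ℤ) (ξ : ℝ) (h : ∀ y ∈ a.support, C (k + y.1) (ξ + y.2)) :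
    ∫ q, hE46 k ξ q * (xp a q * G q) ∂(mu v) = 0 := by
  have e1 : (fun q => hE46 k ξ q * (xp a q * G q)) =
      fun q => ∑ y ∈ a.support, a y * (hE46 (k + y.1) (ξ + y.2) q * G q) := by
    funext q
    have h1 : xp a q = ∑ y ∈ a.support, a y * hE46 y.1 y.2 q := rfl
    rw [h1, Finset.sum_mul, Finset.mul_sum]
    refine Finset.sum_congr rfl fun y _ => ?_
    rw [← E_mul46]
    ring
  rw [e1, integral_finsetSum]
  · refine Finset.sum_eq_zero fun y hy => ?_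
    rw [integral_const_mul, hC _ _ (h y hy), mul_zero]
  · intro y _
    exact (BC_int46 hv (BC_mul46 (BC_E46 _ _) hG)).const_mul _

private theorem stepc46 {X : ℝ} {v : ℝ → ℝ} (hv : IsWt X v) {G : (ℝ × ℝ) × ℝ → ℂ} (hG : BC46 G)
    {C : ℤ × ℤ → ℝ → Prop} (hC : ∀ k ξ, C k ξ → ∫ q, hE46 k ξ q * G q ∂(mu v) = 0)
    (a : Xp) (k : ℤ × ℤ) (ξ : ℝ) (h : ∀ y ∈ a.support, C (k - y.1) (ξ - y.2)) :
    ∫ q, hE46 k ξ q * ((starRingEnd ℂ) (xp a q) * G q) ∂(mu v) = 0 := by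
  have e1 : (fun q => hE46 k ξ q * ((starRingEnd ℂ) (xp a q) * G q)) =
      fun q => ∑ y ∈ a.support, (starRingEnd ℂ) (a y) * (hE46 (k - y.1) (ξ - y.2) q * G q) := by
    funext q
    have h1 : xp a q = ∑ y ∈ a.support, a y * hE46 y.1 y.2 q := rfl
    rw [h1, map_sum, Finset.sum_mul, Finset.mul_sum]
    refine Finset.sum_congr rfl fun y _ => ?_
    rw [map_mul, E_conj46, sub_eq_add_neg, sub_eq_add_neg, ← E_mul46]
    ring
  rw [e1, integral_finsetSum]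
  · refine Finset.sum_eq_zero fun y hy => ?_
    rw [integral_const_mul, hC _ _ (h y hy), mul_zero]
  · intro y _
    exact (BC_int46 hv (BC_mul46 (BC_E46 _ _) hG)).const_mul _

theorem orth_xp {X : ℝ} {v : ℝ → ℝ} (hv : IsWt X v) {a b y : Xp}
    (hne : ∀ x ∈ a.support, ∀ x' ∈ b.support, ∀ y₁ ∈ y.support, ∀ y₂ ∈ y.support, ∀ y₃ ∈ y.support, ∀ y₄ ∈ y.support,
      x.1 - x'.1 + y₁.1 + y₂.1 - y₃.1 - y₄.1 = 0 → 1 / X ≤ |x.2 - x'.2 + y₁.2 + y₂.2 - y₃.2 - y₄.2|) :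
    ∫ q, xp a q * (starRingEnd ℂ) (xp b q) * ((‖xp y q‖ ^ 4 : ℝ) : ℂ) ∂(mu v) = 0 := by
  have hJ := BC_xp46 y
  have hJc := BC_conj46 hJ
  have hB2 := BC_conj46 (BC_xp46 b)
  have b0 : BC46 (fun _ => 1) := ⟨continuous_const, 1, fun q => by rw [norm_one]⟩
  have h0 : ∀ (k : ℤ × ℤ) (ξ : ℝ), (k ≠ 0 ∨ 1 / X ≤ |ξ|) →
      ∫ q, hE46 k ξ q * (fun _ => (1 : ℂ)) q ∂(mu v) = 0 := by
    intro k ξ h
    simp only [mul_one]
    exact char46 hv k ξ h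
  have b1 := BC_mul46 hJc b0
  have h1 := stepc46 hv b0 (C := fun k ξ => k ≠ 0 ∨ 1 / X ≤ |ξ|) h0 y
  have b2 := BC_mul46 hJc b1
  have h2 := stepc46 hv b1 h1 y
  have b3 := BC_mul46 hJ b2
  have h3 := step46 hv b2 h2 y
  have b4 := BC_mul46 hJ b3
  have h4 := step46 hv b3 h3 y
  have b5 := BC_mul46 hB2 b4
  have h5 := stepc46 hv b4 h4 b
  have h6 := step46 hv b5 h5 a 0 0
  rw [← h6]
  · congr 1
    funext q
    have hE : hE46 0 0 q = 1 := by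
      unfold hE46 dt
      simp [ee_zero]
    have hz : ((‖xp y q‖ ^ 4 : ℝ) : ℂ) = xp y q * (xp y q *
        ((starRingEnd ℂ) (xp y q) * (starRingEnd ℂ) (xp y q))) := by
      have h7 : xp y q * (starRingEnd ℂ) (xp y q) = ((‖xp y q‖ ^ 2 : ℝ) : ℂ) := by
        rw [Complex.mul_conj, Complex.normSq_eq_norm_sq]
      have h8 : ((‖xp y q‖ ^ 4 : ℝ) : ℂ) =
          ((‖xp y q‖ ^ 2 : ℝ) : ℂ) * ((‖xp y q‖ ^ 2 : ℝ) : ℂ) := by
        push_cast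
        ring
      rw [h8, ← h7]
      ring
    rw [hE, hz]
    ring
  · intro x hx x' hx' y₁ hy₁ y₂ hy₂ y₃ hy₃ y₄ hy₄
    by_cases hk : x.1 - x'.1 + y₁.1 + y₂.1 - y₃.1 - y₄.1 = 0
    · right
      have h9 := hne x hx x' hx' y₁ hy₁ y₂ hy₂ y₃ hy₃ y₄ hy₄ hk
      rw [zero_add]
      exact h9
    · left
      rw [zero_add]
      exact hk

end Pool.Agent.Helper76.GS
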