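import Pool.Agent.Helper76.GS.Defs
import Pool.Agent.Helper92.GC.T2

/-!
# GS-A4: transversality with a tolerance

PROOF: `geo` (GC.T2), whose proof uses of `k ∈ arc β (reg β H) N i` only: `H/4 ≤ uu β k ≤ 8 H`, `-6 ≤ tt β k < 6` and `⌊N (tt β k + 6)/12⌋₊ = i` (copy the proof with `Rg`, `Ac`; in `Rg`: `|k.2| ≤ (11/2) u`, so
`|t| ≤ 11/2`), gives, with `1/X'` (`X' = 1/(1/X + 6δ)`) in place of `1/X`, `1/X + 6δ ≤ |ph x - ph x' + ...|`; every `τ` differs from its `ph` by at most `δ`.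
-/

open MeasureTheory Real Set Filter Topology

set_option autoImplicit false

namespace Pool.Agent.Helper76.GS

open Pool.Agent.Helper22.AE
open Pool.Agent.Helper22.AC (n6 IsWt mu sep)
open Pool.Agent.Helper92.GC

/-- the region `H/4 ≤ u ≤ 8H`, `|t| ≤ 11/2` -/
def Rg (β H : ℝ) (k : ℤ × ℤ) : Prop := H / 4 ≤ uu β k ∧ uu β k ≤ 8 * H ∧ |(k.2 : ℝ)| ≤ 11 / 2 * uu β k

/-- the arc number `j` of `N` equal arcs of `t ∈ [-6, 6)` -/
def Ac (β : ℝ) (N j : ℕ) (k : ℤ × ℤ) : Prop := ⌊(N : ℝ) * ((tt β k + 6) / 12)⌋₊ = j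

private lemma t2_fl65 {m : ℝ} (hm : 0 < m) {s e i : ℕ} {x : ℝ} (hx : 0 ≤ x)
    (h : ⌊m ^ (s + 1 + e) * (x / 12)⌋₊ = i) :
    (i : ℝ) / m ^ e * (12 / m ^ (s + 1)) ≤ x ∧ x < ((i : ℝ) + 1) / m ^ e * (12 / m ^ (s + 1)) := by
  have h0 : 0 ≤ m ^ (s + 1 + e) * (x / 12) := by positivity
  rw [Nat.floor_eq_iff h0] at h
  have hp : 0 < 12 / m ^ (s + 1 + e) := by positivity
  have e1 : (i : ℝ) / m ^ e * (12 / m ^ (s + 1)) = i * (12 / m ^ (s + 1 + e)) := by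
    rw [pow_add m (s + 1) e]
    field_simp
  have e2 : ((i : ℝ) + 1) / m ^ e * (12 / m ^ (s + 1)) = (i + 1) * (12 / m ^ (s + 1 + e)) := by
    rw [pow_add m (s + 1) e]
    field_simp
  have e3 : x = (m ^ (s + 1 + e) * (x / 12)) * (12 / m ^ (s + 1 + e)) := by
    field_simp
  rw [e1, e2]
  constructor
  · rw [e3]
    exact mul_le_mul_of_nonneg_right h.1 hp.le
  · rw [e3]
    exact mul_lt_mul_of_pos_right h.2 hp

private lemma t2_dv65 {M : ℕ} (hM : 1 ≤ M) {e i u : ℕ} (h : i / M ^ e = u) :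
    (u : ℝ) ≤ (i : ℝ) / (M : ℝ) ^ e ∧ ((i : ℝ) + 1) / (M : ℝ) ^ e ≤ u + 1 := by
  have hp : 0 < M ^ e := pow_pos hM e
  have hpr : (0 : ℝ) < (M : ℝ) ^ e := by exact_mod_cast hp
  rw [le_div_iff₀ hpr, div_le_iff₀ hpr]
  constructor
  · have : u * M ^ e ≤ i := by rw [← h]; exact Nat.div_mul_le_self _ _
    exact_mod_cast this
  · have : i + 1 ≤ (u + 1) * M ^ e := by
      exact (Nat.div_lt_iff_lt_mul hp).1 (by omega)
    exact_mod_cast this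

private lemma t2_mem65 {β H : ℝ} {N j : ℕ} {k : ℤ × ℤ} (hH : 0 < H) (hk : Rg β H k ∧ Ac β N j k) :
    H / 4 ≤ uu β k ∧ uu β k ≤ 8 * H ∧ 0 ≤ tt β k + 6 ∧ ⌊(N : ℝ) * ((tt β k + 6) / 12)⌋₊ = j := by
  obtain ⟨⟨h1, h2, h3⟩, h4⟩ := hk
  refine ⟨h1, h2, ?_, h4⟩
  have hu : 0 < uu β k := by linarith
  have h5 : |tt β k| ≤ 11 / 2 := by
    rw [tt, abs_div, abs_of_pos hu, div_le_iff₀ hu]
    exact h3
  linarith [(abs_le.1 h5).1]

/-- the phase after subtraction of a linear form -/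
private lemma t2_ph65 {β : ℝ} {k : ℤ × ℤ} (hu : 0 < uu β k) (t : ℝ) :
    ph β k = uu β k * (tt β k + 6 - t) ^ 2 + 2 * (t - 6) * k.2 - (t - 6) ^ 2 * uu β k := by
  have h1 : tt β k * uu β k = k.2 := by
    rw [tt]; field_simp
  have h2 : ph β k = uu β k * tt β k ^ 2 := by
    rw [ph, tt]; field_simp
  rw [h2, ← h1]
  ring

private theorem geo_core65 {M s b c i i' j : ℕ} {β H W η : ℝ} (hM : 36 ≤ M) (hcb : c + 1 ≤ 2 * b) (hH : 0 < H)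
    (hη : η ≤ (1 / (M : ℝ)) ^ (2 * b + 2)) (hX : W ≤ H * (12 / (M : ℝ) ^ (s + 1 + b)) ^ 2)
    (h1 : j / M ^ (b + 1) = i / M ^ (c + 1)) (h2 : i / M ^ c = i' / M ^ c) (h3 : sep (i / M ^ c) (j / M ^ b))
    (h4 : sep i i') {x x' y₁ y₂ y₃ y₄ : ℤ × ℤ} (hx : Rg β H x ∧ Ac β (M ^ (s + 1 + c)) i x)
    (hx' : Rg β H x' ∧ Ac β (M ^ (s + 1 + c)) i' x') (hy₁ : Rg β H y₁ ∧ Ac β (M ^ (s + 1 + b)) j y₁)
    (hy₂ : Rg β H y₂ ∧ Ac β (M ^ (s + 1 + b)) j y₂) (hy₃ : Rg β H y₃ ∧ Ac β (M ^ (s + 1 + b)) j y₃)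
    (hy₄ : Rg β H y₄ ∧ Ac β (M ^ (s + 1 + b)) j y₄) (hsl : |uu β x - uu β x'| ≤ η * H)
    (hsum : x - x' + y₁ + y₂ - y₃ - y₄ = 0) :
    W ≤ |ph β x - ph β x' + ph β y₁ + ph β y₂ - ph β y₃ - ph β y₄| := by
  have hm36 : (36 : ℝ) ≤ (M : ℝ) := by exact_mod_cast hM
  have hM1 : 1 ≤ M := by omega
  have hm1 : (1 : ℝ) ≤ (M : ℝ) := by linarith
  obtain ⟨xu1, xu2, xt, xf⟩ := t2_mem65 hH hx
  obtain ⟨xu1', xu2', xt', xf'⟩ := t2_mem65 hH hx'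
  push_cast at xf xf'
  -- the integer data
  obtain ⟨u, hu⟩ : ∃ u, i / M ^ c = u := ⟨_, rfl⟩
  obtain ⟨v, hv⟩ : ∃ v, j / M ^ b = v := ⟨_, rfl⟩
  obtain ⟨q, hq⟩ : ∃ q, i / M ^ (c + 1) = q := ⟨_, rfl⟩
  have hq' : i' / M ^ (c + 1) = q := by
    rw [pow_succ, ← Nat.div_div_eq_div_mul, ← h2, Nat.div_div_eq_div_mul, ← pow_succ, hq]
  have hqj : j / M ^ (b + 1) = q := h1.trans hq
  have hu' : i' / M ^ c = u := h2.symm.trans hu
  rw [hu, hv] at h3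
  obtain ⟨u1, u2⟩ := t2_dv65 hM1 hu
  obtain ⟨u1', u2'⟩ := t2_dv65 hM1 hu'
  obtain ⟨v1, v2⟩ := t2_dv65 hM1 hv
  obtain ⟨q1, q2⟩ := t2_dv65 hM1 hq
  obtain ⟨q1', q2'⟩ := t2_dv65 hM1 hq'
  obtain ⟨q1j, q2j⟩ := t2_dv65 hM1 hqj
  set m : ℝ := (M : ℝ) with hm
  have hm0 : 0 < m := by linarith
  obtain ⟨d, hd⟩ : ∃ d, d = 12 / m ^ (s + 1) := ⟨_, rfl⟩
  have hd0 : 0 < d := by rw [hd]; positivity
  have hω : 12 / m ^ (s + 1 + b) = d / m ^ b := by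
    rw [hd, pow_add m (s + 1) b]
    field_simp
  have hmb : 1 ≤ m ^ b := one_le_pow₀ hm1
  -- division by the next power
  have hdiv : ∀ (a : ℝ) (e : ℕ), a / m ^ e = a / m ^ (e + 1) * m := by
    intro a e
    rw [pow_succ]
    field_simp
  have w1 : q * m ≤ i / m ^ c := by rw [hdiv]; exact mul_le_mul_of_nonneg_right q1 hm0.le
  have w2 : ((i : ℝ) + 1) / m ^ c ≤ (q + 1) * m := by
    rw [hdiv]; exact mul_le_mul_of_nonneg_right q2 hm0.le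
  have w1' : q * m ≤ i' / m ^ c := by rw [hdiv]; exact mul_le_mul_of_nonneg_right q1' hm0.le
  have w2' : ((i' : ℝ) + 1) / m ^ c ≤ (q + 1) * m := by
    rw [hdiv]; exact mul_le_mul_of_nonneg_right q2' hm0.le
  have w1j : q * m ≤ j / m ^ b := by rw [hdiv]; exact mul_le_mul_of_nonneg_right q1j hm0.le
  have w2j : ((j : ℝ) + 1) / m ^ b ≤ (q + 1) * m := by
    rw [hdiv]; exact mul_le_mul_of_nonneg_right q2j hm0.le
  -- the slopes
  obtain ⟨f1, f2⟩ := t2_fl65 hm0 xt xf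
  obtain ⟨f1', f2'⟩ := t2_fl65 hm0 xt' xf'
  rw [← hd] at f1 f2 f1' f2'
  obtain ⟨t, ht⟩ : ∃ t, t = (j : ℝ) / m ^ b * d := ⟨_, rfl⟩
  have hjt : ((j : ℝ) + 1) / m ^ b * d = t + d / m ^ b := by rw [ht]; field_simp
  -- the points `y`
  have hyb : ∀ y : ℤ × ℤ, Rg β H y ∧ Ac β (M ^ (s + 1 + b)) j y →
      0 < uu β y ∧ 0 ≤ uu β y * (tt β y + 6 - t) ^ 2 ∧
        uu β y * (tt β y + 6 - t) ^ 2 ≤ 8 * (H * (d / m ^ b) ^ 2) := by
    intro y hy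
    obtain ⟨p1, p2, p3, p4⟩ := t2_mem65 hH hy
    push_cast at p4
    obtain ⟨g1, g2⟩ := t2_fl65 hm0 p3 p4
    rw [← hd, ← ht] at g1
    rw [← hd, hjt] at g2
    have hup : 0 < uu β y := by linarith
    refine ⟨hup, by positivity, ?_⟩
    have h5 : (tt β y + 6 - t) ^ 2 ≤ (d / m ^ b) ^ 2 := by
      apply pow_le_pow_left₀ (by linarith)
      linarith
    calc uu β y * (tt β y + 6 - t) ^ 2 ≤ (8 * H) * (d / m ^ b) ^ 2 :=
          mul_le_mul p2 h5 (by positivity) (by positivity)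
      _ = 8 * (H * (d / m ^ b) ^ 2) := by ring
  obtain ⟨y10, y11, y12⟩ := hyb y₁ hy₁
  obtain ⟨y20, y21, y22⟩ := hyb y₂ hy₂
  obtain ⟨y30, y31, y32⟩ := hyb y₃ hy₃
  obtain ⟨y40, y41, y42⟩ := hyb y₄ hy₄
  have x0 : 0 < uu β x := by linarith
  have x0' : 0 < uu β x' := by linarith
  -- the linear forms cancel
  have hs1 : (x.1 : ℝ) - x'.1 + y₁.1 + y₂.1 - y₃.1 - y₄.1 = 0 := by
    have := congrArg Prod.fst hsum
    simp only [Prod.fst_sub, Prod.fst_add, Prod.fst_zero] at this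
    exact_mod_cast this
  have hs2 : (x.2 : ℝ) - x'.2 + y₁.2 + y₂.2 - y₃.2 - y₄.2 = 0 := by
    have := congrArg Prod.snd hsum
    simp only [Prod.snd_sub, Prod.snd_add, Prod.snd_zero] at this
    exact_mod_cast this
  have hs3 : uu β x - uu β x' + uu β y₁ + uu β y₂ - uu β y₃ - uu β y₄ = 0 := by
    simp only [uu]
    linear_combination hs1 + β * hs2
  set θ : ℝ := tt β x + 6 with hθ
  set θ' : ℝ := tt β x' + 6 with hθ'
  have hlin : ph β x - ph β x' + ph β y₁ + ph β y₂ - ph β y₃ - ph β y₄ =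
      (uu β x * (θ - t) ^ 2 - uu β x' * (θ' - t) ^ 2) + (uu β y₁ * (tt β y₁ + 6 - t) ^ 2 +
        uu β y₂ * (tt β y₂ + 6 - t) ^ 2 - uu β y₃ * (tt β y₃ + 6 - t) ^ 2 -
        uu β y₄ * (tt β y₄ + 6 - t) ^ 2) := by
    rw [t2_ph65 x0 t, t2_ph65 x0' t, t2_ph65 y10 t, t2_ph65 y20 t, t2_ph65 y30 t, t2_ph65 y40 t]
    linear_combination 2 * (t - 6) * hs2 - (t - 6) ^ 2 * hs3
  rw [hlin]
  -- positions
  have hθ1 : q * m * d ≤ θ := (mul_le_mul_of_nonneg_right w1 hd0.le).trans f1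
  have hθ2 : θ ≤ (q + 1) * m * d := f2.le.trans (mul_le_mul_of_nonneg_right w2 hd0.le)
  have hθ1' : q * m * d ≤ θ' := (mul_le_mul_of_nonneg_right w1' hd0.le).trans f1'
  have hθ2' : θ' ≤ (q + 1) * m * d := f2'.le.trans (mul_le_mul_of_nonneg_right w2' hd0.le)
  have hqq : (q + 1) * m * d = q * m * d + m * d := by ring
  have ht1 : q * m * d ≤ t := by rw [ht]; exact mul_le_mul_of_nonneg_right w1j hd0.le
  have hdbp : 0 < d / m ^ b := by positivity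
  have ht2 : t ≤ (q + 1) * m * d := by
    have : t + d / m ^ b ≤ (q + 1) * m * d := by
      rw [← hjt]; exact mul_le_mul_of_nonneg_right w2j hd0.le
    linarith
  have hab' : |θ' - t| ≤ m * d := by rw [abs_le]; constructor <;> linarith
  have hv1 : v * d ≤ t := by rw [ht]; exact mul_le_mul_of_nonneg_right v1 hd0.le
  have hv2 : t + d / m ^ b ≤ (v + 1) * d := by
    rw [← hjt]; exact mul_le_mul_of_nonneg_right v2 hd0.le
  have hu1 : u * d ≤ θ := (mul_le_mul_of_nonneg_right u1 hd0.le).trans f1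
  have hu2 : θ ≤ (u + 1) * d := f2.le.trans (mul_le_mul_of_nonneg_right u2 hd0.le)
  have hu1' : u * d ≤ θ' := (mul_le_mul_of_nonneg_right u1' hd0.le).trans f1'
  have hu2' : θ' ≤ (u + 1) * d := f2'.le.trans (mul_le_mul_of_nonneg_right u2' hd0.le)
  -- the two slopes are separated
  have hmc : 0 < m ^ c := pow_pos hm0 c
  have hgap : d / m ^ c ≤ |θ - θ'| := by
    have key : ∀ {a a' : ℕ} {φ φ' : ℝ}, a + 2 ≤ a' → φ < ((a : ℝ) + 1) / m ^ c * d →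
        (a' : ℝ) / m ^ c * d ≤ φ' → d / m ^ c ≤ φ' - φ := by
      intro a a' φ φ' h1 h2 h3
      have h4 : (a : ℝ) + 2 ≤ a' := by exact_mod_cast h1
      have h5 : ((a : ℝ) + 2) / m ^ c * d ≤ a' / m ^ c * d := by gcongr
      have h6 : ((a : ℝ) + 2) / m ^ c * d = ((a : ℝ) + 1) / m ^ c * d + d / m ^ c := by
        field_simp
        ring
      linarith
    rcases h4 with h1 | h1
    · have := key h1 f2 f1'
      rw [abs_sub_comm]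
      exact this.trans (le_abs_self _)
    · have := key h1 f2' f1
      exact this.trans (le_abs_self _)
  have hsum2 : 2 * d ≤ |(θ - t) + (θ' - t)| := by
    rcases h3 with h1 | h1
    · have h2 : (u : ℝ) + 2 ≤ v := by exact_mod_cast h1
      have h3 : ((u : ℝ) + 2) * d ≤ v * d := mul_le_mul_of_nonneg_right h2 hd0.le
      have h4 : θ ≤ t - d := by linarith
      have h4' : θ' ≤ t - d := by linarith
      exact (by linarith : 2 * d ≤ -((θ - t) + (θ' - t))).trans (neg_le_abs _)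
    · have h2 : (v : ℝ) + 2 ≤ u := by exact_mod_cast h1
      have h3 : ((v : ℝ) + 2) * d ≤ u * d := mul_le_mul_of_nonneg_right h2 hd0.le
      have h4 : t + d ≤ θ := by linarith
      have h4' : t + d ≤ θ' := by linarith
      exact (by linarith : 2 * d ≤ ((θ - t) + (θ' - t))).trans (le_abs_self _)
  have hprod : d / m ^ c * (2 * d) ≤ |(θ - t) ^ 2 - (θ' - t) ^ 2| := by
    have h5 : (θ - t) ^ 2 - (θ' - t) ^ 2 = (θ - θ') * ((θ - t) + (θ' - t)) := by ring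
    rw [h5, abs_mul]
    exact mul_le_mul hgap hsum2 (by positivity) (abs_nonneg _)
  obtain ⟨w, hw⟩ : ∃ w, w = H * (d / m ^ b) ^ 2 := ⟨_, rfl⟩
  rw [← hw] at y12 y22 y32 y42
  have hw0 : 0 ≤ w := by rw [hw]; positivity
  have hXw : W ≤ w := by
    rw [hw, ← hω]; exact hX
  -- lower bound for the first difference
  set D := uu β x * (θ - t) ^ 2 - uu β x' * (θ' - t) ^ 2 with hD
  have hD1 : H / 4 * (d / m ^ c * (2 * d)) - η * H * (m * d) ^ 2 ≤ |D| := by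
    have h5 : D = uu β x * ((θ - t) ^ 2 - (θ' - t) ^ 2) + (uu β x - uu β x') * (θ' - t) ^ 2 := by
      rw [hD]; ring
    have h6 : |uu β x * ((θ - t) ^ 2 - (θ' - t) ^ 2)| - |(uu β x - uu β x') * (θ' - t) ^ 2| ≤ |D| := by
      rw [h5]
      have := abs_sub_abs_le_abs_sub (uu β x * ((θ - t) ^ 2 - (θ' - t) ^ 2))
        (-((uu β x - uu β x') * (θ' - t) ^ 2))
      rw [abs_neg, sub_neg_eq_add] at this
      exact this
    rw [abs_mul, abs_mul, abs_of_pos x0, abs_of_nonneg (sq_nonneg (θ' - t))] at h6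
    have h7 : H / 4 * (d / m ^ c * (2 * d)) ≤ uu β x * |(θ - t) ^ 2 - (θ' - t) ^ 2| :=
      mul_le_mul xu1 hprod (by positivity) x0.le
    have h8 : |uu β x - uu β x'| * (θ' - t) ^ 2 ≤ η * H * (m * d) ^ 2 := by
      refine mul_le_mul hsl ?_ (sq_nonneg _) ((abs_nonneg _).trans hsl)
      exact sq_le_sq' (by linarith [(abs_le.1 hab').1]) (by linarith [(abs_le.1 hab').2])
    linarith
  have hη2 : η * H * (m * d) ^ 2 ≤ w := by
    have e1 : (1 / m) ^ (2 * b + 2) * m ^ 2 = 1 / (m ^ b) ^ 2 := by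
      rw [pow_add, one_div, inv_pow, inv_pow, ← pow_mul, mul_comm b 2]
      field_simp
    have e2 : η * m ^ 2 ≤ 1 / (m ^ b) ^ 2 := by
      rw [← e1]
      exact mul_le_mul_of_nonneg_right hη (by positivity)
    have e3 : η * H * (m * d) ^ 2 = (η * m ^ 2) * (H * d ^ 2) := by ring
    have e4 : w = (1 / (m ^ b) ^ 2) * (H * d ^ 2) := by rw [hw, div_pow]; ring
    rw [e3, e4]
    exact mul_le_mul_of_nonneg_right e2 (by positivity)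
  have hmain : 18 * w ≤ H / 4 * (d / m ^ c * (2 * d)) := by
    have e1 : m ^ (c + 1) ≤ (m ^ b) ^ 2 := by
      rw [← pow_mul, mul_comm b 2]
      exact pow_le_pow_right₀ hm1 hcb
    have e2 : m / (m ^ b) ^ 2 ≤ 1 / m ^ c := by
      rw [div_le_div_iff₀ (by positivity) hmc, one_mul, mul_comm, ← pow_succ]
      exact e1
    have e3 : 18 * w = 36 / 2 * (H * d ^ 2 / (m ^ b) ^ 2) := by rw [hw, div_pow]; ring
    have e4 : H / 4 * (d / m ^ c * (2 * d)) = (1 / m ^ c) * (H * d ^ 2 / 2) := by ring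
    rw [e3, e4]
    calc 36 / 2 * (H * d ^ 2 / (m ^ b) ^ 2) ≤ m / 2 * (H * d ^ 2 / (m ^ b) ^ 2) := by
          refine mul_le_mul_of_nonneg_right ?_ (by positivity)
          linarith
      _ = m / (m ^ b) ^ 2 * (H * d ^ 2 / 2) := by ring
      _ ≤ (1 / m ^ c) * (H * d ^ 2 / 2) := mul_le_mul_of_nonneg_right e2 (by positivity)
  set E := uu β y₁ * (tt β y₁ + 6 - t) ^ 2 + uu β y₂ * (tt β y₂ + 6 - t) ^ 2 -
    uu β y₃ * (tt β y₃ + 6 - t) ^ 2 - uu β y₄ * (tt β y₄ + 6 - t) ^ 2 with hE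
  have hEb : |E| ≤ 16 * w := by rw [abs_le]; constructor <;> linarith
  have hfin : |D| - |E| ≤ |D + E| := by
    have := abs_sub_abs_le_abs_sub D (-E)
    rw [abs_neg, sub_neg_eq_add] at this
    exact this
  linarith

theorem geo_t {M s b c i i' j : ℕ} {β H X η δ : ℝ} (hM : 36 ≤ M) (hcb : c + 1 ≤ 2 * b) (hH : 0 < H) (hδ : 0 ≤ δ)
    (hη : η ≤ (1 / (M : ℝ)) ^ (2 * b + 2)) (hX : 1 / X + 6 * δ ≤ H * (12 / (M : ℝ) ^ (s + 1 + b)) ^ 2)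
    (h1 : j / M ^ (b + 1) = i / M ^ (c + 1)) (h2 : i / M ^ c = i' / M ^ c) (h3 : sep (i / M ^ c) (j / M ^ b))
    (h4 : sep i i') {x x' y₁ y₂ y₃ y₄ : (ℤ × ℤ) × ℝ} (gx : Rg β H x.1) (gx' : Rg β H x'.1) (g₁ : Rg β H y₁.1)
    (g₂ : Rg β H y₂.1) (g₃ : Rg β H y₃.1) (g₄ : Rg β H y₄.1) (hx : Ac β (M ^ (s + 1 + c)) i x.1)
    (hx' : Ac β (M ^ (s + 1 + c)) i' x'.1) (hy₁ : Ac β (M ^ (s + 1 + b)) j y₁.1) (hy₂ : Ac β (M ^ (s + 1 + b)) j y₂.1)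
    (hy₃ : Ac β (M ^ (s + 1 + b)) j y₃.1) (hy₄ : Ac β (M ^ (s + 1 + b)) j y₄.1) (hsl : |uu β x.1 - uu β x'.1| ≤ η * H)
    (dx : |x.2 - ph β x.1| ≤ δ) (dx' : |x'.2 - ph β x'.1| ≤ δ) (d₁ : |y₁.2 - ph β y₁.1| ≤ δ) (d₂ : |y₂.2 - ph β y₂.1| ≤ δ)
    (d₃ : |y₃.2 - ph β y₃.1| ≤ δ) (d₄ : |y₄.2 - ph β y₄.1| ≤ δ)
    (hsum : x.1 - x'.1 + y₁.1 + y₂.1 - y₃.1 - y₄.1 = 0) :
    1 / X ≤ |x.2 - x'.2 + y₁.2 + y₂.2 - y₃.2 - y₄.2| := by
  have h := geo_core65 hM hcb hH hη hX h1 h2 h3 h4 ⟨gx, hx⟩ ⟨gx', hx'⟩ ⟨g₁, hy₁⟩ ⟨g₂, hy₂⟩ ⟨g₃, hy₃⟩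
    ⟨g₄, hy₄⟩ hsl hsum
  obtain ⟨e, he⟩ : ∃ e, e = (x.2 - ph β x.1) - (x'.2 - ph β x'.1) + (y₁.2 - ph β y₁.1) +
    (y₂.2 - ph β y₂.1) - (y₃.2 - ph β y₃.1) - (y₄.2 - ph β y₄.1) := ⟨_, rfl⟩
  have he1 : |e| ≤ 6 * δ := by
    rw [he]
    rw [abs_le] at dx dx' d₁ d₂ d₃ d₄ ⊢
    constructor <;> linarith [dx.1, dx.2, dx'.1, dx'.2, d₁.1, d₁.2, d₂.1, d₂.2, d₃.1, d₃.2, d₄.1, d₄.2]
  have he2 : x.2 - x'.2 + y₁.2 + y₂.2 - y₃.2 - y₄.2 =
      (ph β x.1 - ph β x'.1 + ph β y₁.1 + ph β y₂.1 - ph β y₃.1 - ph β y₄.1) - (-e) := by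
    rw [he]
    ring
  rw [he2]
  have h5 := abs_sub_abs_le_abs_sub
    (ph β x.1 - ph β x'.1 + ph β y₁.1 + ph β y₂.1 - ph β y₃.1 - ph β y₄.1) (-e)
  rw [abs_neg] at h5
  linarith

end Pool.Agent.Helper76.GS
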