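import Pool.Agent.Helper76.GS.A2
import Pool.Agent.Helper76.GS.A3
import Pool.Agent.Helper76.GS.A4
import Pool.Agent.Helper92.GC.T3

/-!
# GS-A5: the arcs of a slab form a system

PROOF: as `gs_split`, `sys_gs` (GC.T3; copy the private lemmas). `xp_arc_split`: `res (Ac β N j) a = ∑_{r < M} res (Ac β (N M) (M j + r)) a` because `(tt β k + 6)/12 ≥ 0` on the support (`|k.2| ≤ 11/2 u`).
`sys_xp`: `meas`, `bdd`: `xp_cont`, `xp_norm_le`; `add`: `xp_arc_split`; `orth`: `orth_xp` and `geo_t` with `s = s₀ + a`: the index conditions are invariant under the shift by the base arc (`shift_div`, `sep_shift` in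
Helper22.AC.B5), `η ≤ M^(-2m) ≤ M^(-2b-2)`, `1/X + 6δ ≤ H (12/M^(s₀+m))² ≤ H (12/M^(s₀+a+1+b))²`.
-/

open MeasureTheory Real Set Filter Topology

set_option autoImplicit false

namespace Pool.Agent.Helper76.GS

open Pool.Agent.Helper22.AE
open Pool.Agent.Helper22.AC (n6 IsWt mu Sys)
open Pool.Agent.Helper92.GC

/-- the support condition: region `Rg`, tolerance `δ` -/
def Tol (β H δ : ℝ) (a : Xp) : Prop := ∀ x ∈ a.support, Rg β H x.1 ∧ |x.2 - ph β x.1| ≤ δ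

theorem res_Ac_split {β H δ : ℝ} {a : Xp} (hH : 0 < H) (ha : Tol β H δ a) {M : ℕ} (hM : 1 ≤ M) (N j : ℕ) :
    res (Ac β N j) a = ∑ r ∈ Finset.range M, res (Ac β (N * M) (M * j + r)) a := by
  classical
  have _ := hH
  have _ := ha
  ext x
  rw [Finsupp.finsetSum_apply]
  unfold res
  rw [Finsupp.filter_apply]
  have h0 : ∀ r ∈ Finset.range M, (a.filter fun x => Ac β (N * M) (M * j + r) x.1) x =
      if ⌊((N * M : ℕ) : ℝ) * ((tt β x.1 + 6) / 12)⌋₊ = M * j + r then a x else 0 := by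
    intro r _
    rw [Finsupp.filter_apply]
    unfold Ac
    by_cases h9 : ⌊((N * M : ℕ) : ℝ) * ((tt β x.1 + 6) / 12)⌋₊ = M * j + r
    · rw [if_pos h9, if_pos h9]
    · rw [if_neg h9, if_neg h9]
  rw [Finset.sum_congr rfl h0]
  unfold Ac
  have hfl : ⌊(N : ℝ) * ((tt β x.1 + 6) / 12)⌋₊ =
      ⌊((N * M : ℕ) : ℝ) * ((tt β x.1 + 6) / 12)⌋₊ / M := by
    rw [← Nat.floor_div_natCast]
    congr 1
    have : (M : ℝ) ≠ 0 := by
      have : (0 : ℝ) < M := by exact_mod_cast hM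
      exact this.ne'
    push_cast
    field_simp
  rw [hfl]
  generalize ⌊((N * M : ℕ) : ℝ) * ((tt β x.1 + 6) / 12)⌋₊ = y
  by_cases h : y / M = j
  · rw [if_pos h]
    have hmod : y % M < M := Nat.mod_lt _ (by omega)
    rw [Finset.sum_eq_single_of_mem (y % M) (Finset.mem_range.2 hmod)]
    · rw [if_pos]
      rw [← h]
      exact (Nat.div_add_mod y M).symm
    · intro r hr hne
      rw [if_neg]
      intro he
      apply hne
      rw [he, Nat.mul_add_mod, Nat.mod_eq_of_lt (Finset.mem_range.1 hr)]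
  · rw [if_neg h]
    symm
    refine Finset.sum_eq_zero fun r hr => ?_
    rw [if_neg]
    intro he
    apply h
    rw [he, Nat.mul_add_div (by omega), Nat.div_eq_of_lt (Finset.mem_range.1 hr), add_zero]

private lemma shift_div50 (M l b j₀ j : ℕ) (hM : 1 ≤ M) :
    (M ^ (l + b) * j₀ + j) / M ^ b = M ^ l * j₀ + j / M ^ b := by
  have h : M ^ (l + b) * j₀ + j = M ^ b * (M ^ l * j₀) + j := by
    rw [pow_add]
    ring
  rw [h, Nat.mul_add_div (pow_pos hM b)]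

private lemma sep_shift50 {x i j : ℕ} (h : Pool.Agent.Helper22.AC.sep i j) :
    Pool.Agent.Helper22.AC.sep (x + i) (x + j) := by
  unfold Pool.Agent.Helper22.AC.sep at *
  omega

theorem sys_xp {β H : ℝ} (hH : 0 < H) {M : ℕ} (hM : 36 ≤ M) {s₀ m j₀ : ℕ} {X η δ : ℝ} {v : ℝ → ℝ} (hv : IsWt X v) (hδ : 0 ≤ δ)
    {a : Xp} (ha : Tol β H δ a) (hslab : ∀ x ∈ a.support, ∀ x' ∈ a.support, |uu β x.1 - uu β x'.1| ≤ η * H)
    (hη : η ≤ (1 / (M : ℝ)) ^ (2 * m)) (hX : 1 / X + 6 * δ ≤ H * (12 / (M : ℝ) ^ (s₀ + m)) ^ 2) :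
    Sys (mu v) M m (fun s j => xp (res (Ac β (M ^ (s₀ + s)) (M ^ s * j₀ + j)) a)) := by
  have hM1 : 1 ≤ M := by omega
  have hMpos : (0 : ℝ) < M := by exact_mod_cast hM1
  have hM1' : (1 : ℝ) ≤ M := by exact_mod_cast hM1
  refine ⟨fun s j => (xp_cont _).measurable, fun s j => ⟨_, xp_norm_le _⟩, ?_, ?_⟩
  · intro s _ j _ ω
    rw [res_Ac_split hH ha hM1, xp_sum]
    refine Finset.sum_congr rfl fun r _ => ?_
    have e : M * (M ^ s * j₀ + j) + r = M ^ (s + 1) * j₀ + (M * j + r) := by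
      rw [pow_succ]
      ring
    have e2 : M ^ (s₀ + s) * M = M ^ (s₀ + (s + 1)) := by
      rw [← add_assoc, pow_succ]
    rw [e, e2]
  · intro l b c hcb hlb hlc j hj i hi i' hi' hji hii hsep hs
    refine orth_xp hv ?_
    intro x hx x' hx' y₁ hy₁ y₂ hy₂ y₃ hy₃ y₄ hy₄ hsum
    rw [mem_res] at hx hx' hy₁ hy₂ hy₃ hy₄
    have hac : ∀ (t J : ℕ) (y : ℤ × ℤ), Ac β (M ^ (s₀ + (l + 1 + t))) J y →
        Ac β (M ^ (s₀ + l + 1 + t)) J y := by
      intro t J y hy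
      have e1 : s₀ + (l + 1 + t) = s₀ + l + 1 + t := by ring
      rw [e1] at hy
      exact hy
    refine geo_t (s := s₀ + l) (b := b) (c := c) (i := M ^ (l + 1 + c) * j₀ + i)
      (i' := M ^ (l + 1 + c) * j₀ + i') (j := M ^ (l + 1 + b) * j₀ + j) (η := η) (δ := δ) hM hcb hH hδ
      ?_ ?_ ?_ ?_ ?_ ?_ (ha x hx.1).1 (ha x' hx'.1).1 (ha y₁ hy₁.1).1 (ha y₂ hy₂.1).1
      (ha y₃ hy₃.1).1 (ha y₄ hy₄.1).1 (hac c _ _ hx.2) (hac c _ _ hx'.2) (hac b _ _ hy₁.2)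
      (hac b _ _ hy₂.2) (hac b _ _ hy₃.2) (hac b _ _ hy₄.2) ?_ (ha x hx.1).2 (ha x' hx'.1).2
      (ha y₁ hy₁.1).2 (ha y₂ hy₂.1).2 (ha y₃ hy₃.1).2 (ha y₄ hy₄.1).2 hsum
    · refine hη.trans (pow_le_pow_of_le_one (by positivity) ?_ (by omega))
      rw [div_le_one hMpos]
      exact hM1'
    · refine hX.trans (mul_le_mul_of_nonneg_left ?_ hH.le)
      have h1 : (M : ℝ) ^ (s₀ + l + 1 + b) ≤ (M : ℝ) ^ (s₀ + m) :=
        pow_le_pow_right₀ hM1' (by omega)
      have h2 : 12 / (M : ℝ) ^ (s₀ + m) ≤ 12 / (M : ℝ) ^ (s₀ + l + 1 + b) :=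
        div_le_div_of_nonneg_left (by positivity) (by positivity) h1
      exact pow_le_pow_left₀ (by positivity) h2 2
    · have e1 := shift_div50 M l (b + 1) j₀ j hM1
      have e2 := shift_div50 M l (c + 1) j₀ i hM1
      have e3 : l + (b + 1) = l + 1 + b := by ring
      have e4 : l + (c + 1) = l + 1 + c := by ring
      rw [e3] at e1
      rw [e4] at e2
      rw [e1, e2, hji]
    · rw [shift_div50 M (l + 1) c j₀ i hM1, shift_div50 M (l + 1) c j₀ i' hM1, hii]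
    · rw [shift_div50 M (l + 1) c j₀ i hM1, shift_div50 M (l + 1) b j₀ j hM1]
      exact sep_shift50 hsep
    · exact sep_shift50 hs
    · exact hslab x hx.1 x' hx'.1

end Pool.Agent.Helper76.GS
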