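import Pool.Agent.Helper76.GS.A5
import Pool.Agent.Helper92.GC.T4

/-!
# GS-A6: decoupling for a slab

PROOF: as `slab_dec` (GC.T4), with `sys_xp` instead of `sys_gs`.
-/

open MeasureTheory Real Set Filter Topology

set_option autoImplicit false

namespace Pool.Agent.Helper76.GS

open Pool.Agent.Helper22.AE
open Pool.Agent.Helper22.AC (n6 IsWt mu Sys)
open Pool.Agent.Helper92.GC

private theorem res_one4 {β H δ : ℝ} {a : Xp} (hH : 0 < H) (ha : Tol β H δ a) :
    res (Ac β 1 0) a = a := by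
  classical
  unfold res
  rw [Finsupp.filter_eq_self_iff]
  intro x hx
  obtain ⟨⟨h1, -, h3⟩, -⟩ := ha x (Finsupp.mem_support_iff.2 hx)
  have hu : 0 < uu β x.1 := by linarith
  have h5 : |tt β x.1| ≤ 11 / 2 := by
    rw [tt, abs_div, abs_of_pos hu, div_le_iff₀ hu]
    exact h3
  have h6 := abs_le.1 h5
  unfold Ac
  rw [Nat.floor_eq_zero]
  push_cast
  linarith [h6.2]

theorem slab_xp {ε : ℝ} (hε : 0 < ε) : ∃ M : ℕ, 36 ≤ M ∧ ∃ C : ℝ, 1 ≤ C ∧
    ∀ (m N₁ : ℕ) (β H X η δ : ℝ) (v : ℝ → ℝ) (a : Xp), 0 < H → 0 ≤ δ → IsWt X v → Tol β H δ a →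
      (∀ x ∈ a.support, ∀ x' ∈ a.support, |uu β x.1 - uu β x'.1| ≤ η * H) → η ≤ (1 / (M : ℝ)) ^ (2 * m) →
      1 / X + 6 * δ ≤ H * (12 / (M : ℝ) ^ (N₁ * m)) ^ 2 →
      n6 (mu v) (xp a) ≤ C ^ N₁ * (M : ℝ) ^ (ε * ((N₁ * m : ℕ) : ℝ)) *
        ∑ r ∈ Finset.range (M ^ (N₁ * m)), n6 (mu v) (xp (res (Ac β (M ^ (N₁ * m)) r) a)) := by
  obtain ⟨M0, hM0, hdec⟩ := Pool.Agent.Helper22.AC.decoupling hε
  obtain ⟨M, hMdef⟩ : ∃ M : ℕ, M = max M0 36 := ⟨_, rfl⟩
  have hM36 : 36 ≤ M := by rw [hMdef]; exact le_max_right _ _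
  have hM0M : M0 ≤ M := by rw [hMdef]; exact le_max_left _ _
  obtain ⟨C, hC, hd⟩ := hdec M hM0M
  refine ⟨M, hM36, C, hC, ?_⟩
  intro m N₁ β H X η δ v a hH hδ hv ha hslab hη hHX
  have hM1 : 1 ≤ M := by omega
  have hMr : (1 : ℝ) ≤ M := by exact_mod_cast hM1
  have hMpos : (0 : ℝ) < M := by linarith
  have hprob := Pool.Agent.Helper22.AC.mu_prob hv
  have key : ∀ i : ℕ, i ≤ N₁ → n6 (mu v) (xp a) ≤
      C ^ i * (M : ℝ) ^ (ε * ((i * m : ℕ) : ℝ)) *
        ∑ r ∈ Finset.range (M ^ (i * m)), n6 (mu v) (xp (res (Ac β (M ^ (i * m)) r) a)) := by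
    intro i
    induction i with
    | zero =>
      intro _
      simp [res_one4 hH ha]
    | succ i ih =>
      intro hi
      have h1 := ih (by omega)
      refine h1.trans ?_
      have hlev : i * m + m ≤ N₁ * m := by
        have h2 : (i + 1) * m ≤ N₁ * m := Nat.mul_le_mul_right m hi
        rwa [Nat.succ_mul] at h2
      have hHX' : 1 / X + 6 * δ ≤ H * (12 / (M : ℝ) ^ (i * m + m)) ^ 2 := by
        refine hHX.trans ?_
        have h2 : (M : ℝ) ^ (i * m + m) ≤ (M : ℝ) ^ (N₁ * m) := pow_le_pow_right₀ hMr hlev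
        have h3 : (0 : ℝ) < (M : ℝ) ^ (i * m + m) := pow_pos hMpos _
        gcongr
      have hstep : ∀ r : ℕ, n6 (mu v) (xp (res (Ac β (M ^ (i * m)) r) a)) ≤
          C * (M : ℝ) ^ (ε * (m : ℝ)) * ∑ r' ∈ Finset.range (M ^ m),
            n6 (mu v) (xp (res (Ac β (M ^ ((i + 1) * m)) (M ^ m * r + r')) a)) := by
        intro r
        have h2 := hd _ (mu v) m _ (sys_xp hH hM36 (s₀ := i * m) (m := m) (j₀ := r) hv hδ ha hslab hη hHX')
        simp only [add_zero, pow_zero, one_mul] at h2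
        rw [show (i + 1) * m = i * m + m from Nat.succ_mul i m]
        exact h2
      calc C ^ i * (M : ℝ) ^ (ε * ((i * m : ℕ) : ℝ)) * ∑ r ∈ Finset.range (M ^ (i * m)),
              n6 (mu v) (xp (res (Ac β (M ^ (i * m)) r) a))
          ≤ C ^ i * (M : ℝ) ^ (ε * ((i * m : ℕ) : ℝ)) * ∑ r ∈ Finset.range (M ^ (i * m)),
              (C * (M : ℝ) ^ (ε * (m : ℝ)) * ∑ r' ∈ Finset.range (M ^ m),
                n6 (mu v) (xp (res (Ac β (M ^ ((i + 1) * m)) (M ^ m * r + r')) a))) := by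
            apply mul_le_mul_of_nonneg_left (Finset.sum_le_sum fun r _ => hstep r)
            positivity
        _ = C ^ (i + 1) * (M : ℝ) ^ (ε * (((i + 1) * m : ℕ) : ℝ)) *
              ∑ r ∈ Finset.range (M ^ (i * m)), ∑ r' ∈ Finset.range (M ^ m),
                n6 (mu v) (xp (res (Ac β (M ^ ((i + 1) * m)) (M ^ m * r + r')) a)) := by
            rw [← Finset.mul_sum, pow_succ]
            have h3 : (M : ℝ) ^ (ε * (((i + 1) * m : ℕ) : ℝ)) =
                (M : ℝ) ^ (ε * ((i * m : ℕ) : ℝ)) * (M : ℝ) ^ (ε * (m : ℝ)) := by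
              rw [← Real.rpow_add hMpos]
              congr 1
              push_cast
              ring
            rw [h3]
            ring
        _ = _ := by
            congr 1
            have h4 : M ^ ((i + 1) * m) = M ^ (i * m) * M ^ m := by
              rw [← pow_add, Nat.succ_mul]
            rw [show Finset.range (M ^ ((i + 1) * m)) = Finset.range (M ^ (i * m) * M ^ m) by
              rw [h4], Pool.Agent.Helper22.AC.sum_range_mul']
  exact key N₁ le_rfl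

end Pool.Agent.Helper76.GS
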