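import Pool.Agent.Helper76.GS.A6
import Pool.Agent.Helper92.GC.T5

/-!
# GS-A7: decoupling for the region

PROOF: as `dec` (GC.T5; copy the numerical lemma): slabs `H l/L ≤ u < H (l+1)/L`, `l < 9L`, `L = M^(2m)`, `n6_sum_xp` (or `n6_sum_le`, AC.A1) over the slabs, `slab_xp` for each, `n6_res_u` to remove the slab:
`n6 (res (Ac r) (res slab a)) = n6 (res slab (res (Ac r) a)) ≤ 14^4 n6 (res (Ac r) a)` (`res_res`, `res_congr`).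
-/

open MeasureTheory Real Set Filter Topology

set_option autoImplicit false

namespace Pool.Agent.Helper76.GS

open Pool.Agent.Helper22.AE
open Pool.Agent.Helper22.AC (n6 IsWt mu Sys)
open Pool.Agent.Helper92.GC

private lemma a7_num_h23 {ε : ℝ} (hε : 0 < ε) {M m N₁ : ℕ} (hM : 1 ≤ M) (hN : 1 ≤ N₁) (hN2 : 48 / ε ≤ N₁) {H : ℝ}
    (hH : 1 ≤ H) (h : (M : ℝ) ^ (N₁ * m) ≤ H ^ 3) :
    (9 * (M : ℝ) ^ (2 * m)) ^ (8 / 3 : ℝ) * (M : ℝ) ^ (ε / 9 * ((N₁ * m : ℕ) : ℝ)) ≤ (9 : ℝ) ^ (8 / 3 : ℝ) * H ^ ε := by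
  have hM0 : (0 : ℝ) ≤ M := by positivity
  have hH0 : 0 ≤ H := by linarith
  have hN0 : (0 : ℝ) < N₁ := by exact_mod_cast hN
  have hL0 : (0 : ℝ) ≤ (M : ℝ) ^ (2 * m) := by positivity
  have hL1 : (M : ℝ) ^ (2 * m) ≤ H ^ (ε / 8) := by
    have h1 : ((M : ℝ) ^ (2 * m)) ^ N₁ ≤ H ^ 6 := by
      calc ((M : ℝ) ^ (2 * m)) ^ N₁ = ((M : ℝ) ^ (N₁ * m)) ^ 2 := by rw [← pow_mul, ← pow_mul]; congr 1; ring
        _ ≤ (H ^ 3) ^ 2 := pow_le_pow_left₀ (by positivity) h 2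
        _ = H ^ 6 := by ring
    have h2 : (M : ℝ) ^ (2 * m) = (((M : ℝ) ^ (2 * m)) ^ N₁) ^ (1 / (N₁ : ℝ)) := by
      rw [← rpow_natCast ((M : ℝ) ^ (2 * m)) N₁, ← rpow_mul hL0, mul_one_div_cancel hN0.ne', rpow_one]
    rw [h2]
    calc (((M : ℝ) ^ (2 * m)) ^ N₁) ^ (1 / (N₁ : ℝ)) ≤ (H ^ 6) ^ (1 / (N₁ : ℝ)) :=
          rpow_le_rpow (by positivity) h1 (by positivity)
      _ = H ^ (6 / (N₁ : ℝ)) := by
          rw [← rpow_natCast H 6, ← rpow_mul hH0]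
          congr 1
          push_cast
          ring
      _ ≤ H ^ (ε / 8) := by
          apply rpow_le_rpow_of_exponent_le hH
          rw [div_le_iff₀ hε] at hN2
          rw [div_le_div_iff₀ hN0 (by norm_num)]
          linarith
  have hL2 : ((M : ℝ) ^ (2 * m)) ^ (8 / 3 : ℝ) ≤ H ^ (ε / 3) := by
    calc ((M : ℝ) ^ (2 * m)) ^ (8 / 3 : ℝ) ≤ (H ^ (ε / 8)) ^ (8 / 3 : ℝ) := rpow_le_rpow hL0 hL1 (by norm_num)
      _ = H ^ (ε / 3) := by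
        rw [← rpow_mul hH0]
        congr 1
        ring
  have hM2 : (M : ℝ) ^ (ε / 9 * ((N₁ * m : ℕ) : ℝ)) ≤ H ^ (ε / 3) := by
    calc (M : ℝ) ^ (ε / 9 * ((N₁ * m : ℕ) : ℝ)) = ((M : ℝ) ^ (N₁ * m)) ^ (ε / 9) := by
          rw [mul_comm (ε / 9), rpow_mul hM0, rpow_natCast]
      _ ≤ (H ^ 3) ^ (ε / 9) := rpow_le_rpow (by positivity) h (by positivity)
      _ = H ^ (ε / 3) := by
        rw [← rpow_natCast H 3, ← rpow_mul hH0]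
        congr 1
        push_cast
        ring
  rw [mul_rpow (by norm_num) hL0, mul_assoc]
  apply mul_le_mul_of_nonneg_left _ (by positivity)
  calc ((M : ℝ) ^ (2 * m)) ^ (8 / 3 : ℝ) * (M : ℝ) ^ (ε / 9 * ((N₁ * m : ℕ) : ℝ)) ≤ H ^ (ε / 3) * H ^ (ε / 3) :=
        mul_le_mul hL2 hM2 (by positivity) (by positivity)
    _ = H ^ (ε / 3 + ε / 3) := (rpow_add (by linarith) _ _).symm
    _ ≤ H ^ ε := rpow_le_rpow_of_exponent_le hH (by linarith)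

private lemma a7_iff_h23 {β H L : ℝ} (hH : 0 < H) (hL : 0 < L) {k : ℤ × ℤ} (hk : 0 ≤ uu β k) (l : ℕ) :
    ⌊uu β k * L / H⌋₊ = l ↔ H * l / L ≤ uu β k ∧ uu β k < H * (l + 1) / L := by
  rw [Nat.floor_eq_iff (by positivity), le_div_iff₀ hH, div_lt_iff₀ hH, div_le_iff₀ hL, lt_div_iff₀ hL]
  constructor
  · rintro ⟨h1, h2⟩
    exact ⟨by linarith, by linarith⟩
  · rintro ⟨h1, h2⟩
    exact ⟨by linarith, by linarith⟩

private def a7Q_h23 (β H L : ℝ) (l : ℕ) (k : ℤ × ℤ) : Prop := ⌊uu β k * L / H⌋₊ = l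

private lemma a7_sum_h23 {β H L : ℝ} {n : ℕ} {a : Xp} (h : ∀ x ∈ a.support, ⌊uu β x.1 * L / H⌋₊ ∈ Finset.range n) :
    a = ∑ l ∈ Finset.range n, res (a7Q_h23 β H L l) a := by
  classical
  ext x
  rw [Finsupp.finsetSum_apply]
  by_cases hx : x ∈ a.support
  · rw [Finset.sum_eq_single_of_mem _ (h x hx)]
    · unfold res
      rw [Finsupp.filter_apply, if_pos]
      rfl
    · intro l _ hl
      unfold res
      rw [Finsupp.filter_apply, if_neg]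
      intro h1
      exact hl h1.symm
  · have h0 : a x = 0 := by simpa using hx
    rw [h0]
    symm
    apply Finset.sum_eq_zero
    intro l _
    unfold res
    rw [Finsupp.filter_apply, h0]
    split_ifs <;> rfl

private lemma a7_mul_h23 {X : ℝ} {v : ℝ → ℝ} (hv : IsWt X v) {β H L : ℝ} (hH : 0 < H) (hL : 0 < L) {a : Xp}
    (ha : ∀ x ∈ a.support, 0 ≤ uu β x.1) (l : ℕ) :
    n6 (mu v) (xp (res (a7Q_h23 β H L l) a)) ≤ 14 ^ 4 * n6 (mu v) (xp a) := by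
  have h1 : res (a7Q_h23 β H L l) a = res (fun k => H * l / L ≤ uu β k ∧ uu β k < H * (l + 1) / L) a :=
    res_congr fun x hx => a7_iff_h23 hH hL (ha x hx) l
  rw [h1]
  exact n6_res_u hv a β _ _

private lemma a7_nonneg_h23 {v : ℝ → ℝ} (f : (ℝ × ℝ) × ℝ → ℂ) : 0 ≤ n6 (mu v) f :=
  rpow_nonneg (integral_nonneg fun _ => by positivity) _

private lemma a7_main_h23 {ε C₀ : ℝ} (hC₀ : 1 ≤ C₀) {M N₁ m : ℕ} (hM : 36 ≤ M) {β H X δ : ℝ} {v : ℝ → ℝ} {a : Xp}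
    (hH : 1 ≤ H) (hv : IsWt X v) (ha : Tol β H δ a)
    (hslab : ∀ b : Xp, Tol β H δ b →
      (∀ x ∈ b.support, ∀ x' ∈ b.support, |uu β x.1 - uu β x'.1| ≤ (1 / (M : ℝ)) ^ (2 * m) * H) →
      n6 (mu v) (xp b) ≤ C₀ ^ N₁ * (M : ℝ) ^ (ε / 9 * ((N₁ * m : ℕ) : ℝ)) *
        ∑ r ∈ Finset.range (M ^ (N₁ * m)), n6 (mu v) (xp (res (Ac β (M ^ (N₁ * m)) r) b))) :
    n6 (mu v) (xp a) ≤ (9 * (M : ℝ) ^ (2 * m)) ^ (5 / 3 : ℝ) * ((9 * (M : ℝ) ^ (2 * m)) *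
      (C₀ ^ N₁ * (M : ℝ) ^ (ε / 9 * ((N₁ * m : ℕ) : ℝ)) * ((14 : ℝ) ^ 4 *
        ∑ r ∈ Finset.range (M ^ (N₁ * m)), n6 (mu v) (xp (res (Ac β (M ^ (N₁ * m)) r) a))))) := by
  classical
  have hH0 : 0 < H := by linarith
  have hM0 : (0 : ℝ) < M := by exact_mod_cast (by omega : 0 < M)
  have hL0 : (0 : ℝ) < (M : ℝ) ^ (2 * m) := by positivity
  have hprob := Pool.Agent.Helper22.AC.mu_prob hv
  have hpos : ∀ x ∈ a.support, 0 ≤ uu β x.1 := by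
    intro x hx
    have := (ha x hx).1.1
    linarith
  have hfl : ∀ x ∈ a.support, ⌊uu β x.1 * (M : ℝ) ^ (2 * m) / H⌋₊ ∈ Finset.range (9 * M ^ (2 * m)) := by
    intro x hx
    rw [Finset.mem_range, Nat.floor_lt' (by positivity)]
    rw [div_lt_iff₀ hH0]
    push_cast
    have h1 := (ha x hx).1.2.1
    have h2 : uu β x.1 * (M : ℝ) ^ (2 * m) ≤ 8 * H * (M : ℝ) ^ (2 * m) := mul_le_mul_of_nonneg_right h1 hL0.le
    have h3 : 0 < (M : ℝ) ^ (2 * m) * H := by positivity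
    linarith
  have hsum : xp a = fun q => ∑ l ∈ Finset.range (9 * M ^ (2 * m)),
      xp (res (a7Q_h23 β H ((M : ℝ) ^ (2 * m)) l) a) q := by
    funext q
    conv_lhs => rw [a7_sum_h23 hfl]
    rw [xp_sum]
  have hgoal := (Pool.Agent.Helper22.AC.n6_sum_le (mu v) (9 * M ^ (2 * m))
    (fun l => xp (res (a7Q_h23 β H ((M : ℝ) ^ (2 * m)) l) a))
    (fun l => (xp_cont _).measurable) (fun l => ⟨_, xp_norm_le _⟩))
  rw [← hsum] at hgoal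
  refine hgoal.trans ?_
  have hcast : ((9 * M ^ (2 * m) : ℕ) : ℝ) = 9 * (M : ℝ) ^ (2 * m) := by push_cast; rfl
  rw [hcast]
  apply mul_le_mul_of_nonneg_left _ (by positivity)
  have hterm : ∀ l ∈ Finset.range (9 * M ^ (2 * m)),
      n6 (mu v) (xp (res (a7Q_h23 β H ((M : ℝ) ^ (2 * m)) l) a)) ≤
      C₀ ^ N₁ * (M : ℝ) ^ (ε / 9 * ((N₁ * m : ℕ) : ℝ)) * ((14 : ℝ) ^ 4 *
        ∑ r ∈ Finset.range (M ^ (N₁ * m)), n6 (mu v) (xp (res (Ac β (M ^ (N₁ * m)) r) a))) := by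
    intro l _
    have htol : Tol β H δ (res (a7Q_h23 β H ((M : ℝ) ^ (2 * m)) l) a) := fun x hx => ha x (mem_res.1 hx).1
    refine (hslab _ htol ?_).trans ?_
    · intro x hx x' hx'
      have hx1 := mem_res.1 hx
      have hx1' := mem_res.1 hx'
      have h1 := (a7_iff_h23 hH0 hL0 (hpos x hx1.1) l).1 hx1.2
      have h2 := (a7_iff_h23 hH0 hL0 (hpos x' hx1'.1) l).1 hx1'.2
      have h3 : (1 / (M : ℝ)) ^ (2 * m) * H = H * (l + 1) / (M : ℝ) ^ (2 * m) - H * l / (M : ℝ) ^ (2 * m) := by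
        rw [one_div, inv_pow]
        field_simp
        ring
      rw [h3, abs_le]
      constructor <;> linarith [h1.1, h1.2, h2.1, h2.2]
    · apply mul_le_mul_of_nonneg_left _ (by positivity)
      rw [Finset.mul_sum]
      refine Finset.sum_le_sum fun r _ => ?_
      have hcomm : res (Ac β (M ^ (N₁ * m)) r) (res (a7Q_h23 β H ((M : ℝ) ^ (2 * m)) l) a) =
          res (a7Q_h23 β H ((M : ℝ) ^ (2 * m)) l) (res (Ac β (M ^ (N₁ * m)) r) a) := by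
        rw [res_res, res_res]
        exact res_congr fun x _ => and_comm
      rw [hcomm]
      exact a7_mul_h23 hv hH0 hL0 (fun x hx => hpos x (mem_res.1 hx).1) l
  refine (Finset.sum_le_sum hterm).trans ?_
  rw [Finset.sum_const, Finset.card_range, nsmul_eq_mul, hcast]

theorem dec_xp {ε : ℝ} (hε : 0 < ε) : ∃ M N₁ : ℕ, 36 ≤ M ∧ 1 ≤ N₁ ∧ ∃ C : ℝ, 1 ≤ C ∧
    ∀ (m : ℕ) (β H X δ : ℝ) (v : ℝ → ℝ) (a : Xp), 1 ≤ H → 0 ≤ δ → IsWt X v → Tol β H δ a →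
      1 / X + 6 * δ ≤ H * (12 / (M : ℝ) ^ (N₁ * m)) ^ 2 → (M : ℝ) ^ (N₁ * m) ≤ H ^ 3 →
      n6 (mu v) (xp a) ≤ C * H ^ ε *
        ∑ r ∈ Finset.range (M ^ (N₁ * m)), n6 (mu v) (xp (res (Ac β (M ^ (N₁ * m)) r) a)) := by
  obtain ⟨M, hM, C₀, hC₀, hslab⟩ := slab_xp (ε := ε / 9) (by positivity)
  have hM0 : (0 : ℝ) < M := by exact_mod_cast (by omega : 0 < M)
  refine ⟨M, ⌈48 / ε⌉₊ + 1, hM, by omega, (9 : ℝ) ^ (8 / 3 : ℝ) * (C₀ ^ (⌈48 / ε⌉₊ + 1) * 14 ^ 4), ?_, ?_⟩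
  · have h1 : (1 : ℝ) ≤ (9 : ℝ) ^ (8 / 3 : ℝ) := one_le_rpow (by norm_num) (by norm_num)
    have h2 : 1 ≤ C₀ ^ (⌈48 / ε⌉₊ + 1) := one_le_pow₀ hC₀
    have h3 : (1 : ℝ) ≤ 14 ^ 4 := by norm_num
    exact one_le_mul_of_one_le_of_one_le h1 (one_le_mul_of_one_le_of_one_le h2 h3)
  obtain ⟨N₁, hN₁⟩ : ∃ N₁ : ℕ, N₁ = ⌈48 / ε⌉₊ + 1 := ⟨_, rfl⟩
  rw [← hN₁]
  intro m β H X δ v a hH hδ hv ha h1 h2
  have hN : 1 ≤ N₁ := by omega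
  have hN2 : 48 / ε ≤ N₁ := by
    rw [hN₁]
    push_cast
    have := Nat.le_ceil (48 / ε)
    linarith
  have hnum := a7_num_h23 hε (by omega : 1 ≤ M) hN hN2 hH h2
  have hH0 : 0 < H := by linarith
  have hmain := a7_main_h23 (ε := ε) hC₀ hM (β := β) (a := a) (δ := δ) hH hv ha
    (fun b hb hk => hslab m N₁ β H X _ δ v b hH0 hδ hv hb hk le_rfl h1)
  refine hmain.trans ?_
  obtain ⟨W0, hW0⟩ : ∃ s : ℝ, s = ∑ r ∈ Finset.range (M ^ (N₁ * m)),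
    n6 (mu v) (xp (res (Ac β (M ^ (N₁ * m)) r) a)) := ⟨_, rfl⟩
  have hW1 : 0 ≤ W0 := by
    rw [hW0]
    exact Finset.sum_nonneg fun r _ => a7_nonneg_h23 _
  rw [← hW0]
  have hL0 : (0 : ℝ) < 9 * (M : ℝ) ^ (2 * m) := by positivity
  have h83 : (9 * (M : ℝ) ^ (2 * m)) ^ (5 / 3 : ℝ) * (9 * (M : ℝ) ^ (2 * m)) = (9 * (M : ℝ) ^ (2 * m)) ^ (8 / 3 : ℝ) := by
    have h3 : (9 * (M : ℝ) ^ (2 * m)) ^ (8 / 3 : ℝ) = (9 * (M : ℝ) ^ (2 * m)) ^ (5 / 3 + 1 : ℝ) := by norm_num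
    rw [h3, rpow_add hL0, rpow_one]
  calc (9 * (M : ℝ) ^ (2 * m)) ^ (5 / 3 : ℝ) * ((9 * (M : ℝ) ^ (2 * m)) *
      (C₀ ^ N₁ * (M : ℝ) ^ (ε / 9 * ((N₁ * m : ℕ) : ℝ)) * ((14 : ℝ) ^ 4 * W0)))
      = ((9 * (M : ℝ) ^ (2 * m)) ^ (5 / 3 : ℝ) * (9 * (M : ℝ) ^ (2 * m)) *
        (M : ℝ) ^ (ε / 9 * ((N₁ * m : ℕ) : ℝ))) * (C₀ ^ N₁ * 14 ^ 4 * W0) := by ring
    _ ≤ ((9 : ℝ) ^ (8 / 3 : ℝ) * H ^ ε) * (C₀ ^ N₁ * 14 ^ 4 * W0) := by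
        rw [h83]
        exact mul_le_mul_of_nonneg_right hnum (by positivity)
    _ = _ := by ring


end Pool.Agent.Helper76.GS
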