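import Pool.Agent.Helper76.GS.Defs
import Pool.Agent.Helper92.GC.W6

/-!
# GS-B2A: wave packets with an arbitrarily small error

PROOF: as `wp_near` (GC.W6; copy its proof and the private lemmas) with the exponent `n = 8 + k`, `k ≥ (12 + B)/ε`·(large enough, and `3 n + 3 ≥ p₀`): the terms outside `near` are at most `(H^(-ε))^k` times the terms with exponent `8`,
whose sum is bounded by `dual_sum`; `√(H³/R) ≤ H^(3/2)`; so the error is `≤ C H^(O(1) - εk) ≤ C H^(-B)`.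
-/

open MeasureTheory Real Set Filter Topology

set_option autoImplicit false

namespace Pool.Agent.Helper76.GS

open Pool.Agent.Helper22.AE
open Pool.Agent.Helper22.AC (n6 IsWt mu)
open Pool.Agent.Helper92.GC

private lemma far42 {a b x M : ℝ} {k : ℕ} (ha : 1 ≤ a) (hb : 1 ≤ b) (hx : 0 ≤ x) (hM : 0 < M)
    (h : x ≤ a ∨ x ≤ b) (hxM : M ≤ x ^ k) :
    (a ^ (8 + k))⁻¹ * (b ^ (8 + k))⁻¹ ≤ M⁻¹ * ((a ^ 8)⁻¹ * (b ^ 8)⁻¹) := by
  have ha0 : 0 < a := by linarith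
  have hb0 : 0 < b := by linarith
  have h1 : M ≤ a ^ k * b ^ k := by
    rcases h with h | h
    · calc M ≤ x ^ k := hxM
        _ ≤ a ^ k := pow_le_pow_left₀ hx h k
        _ = a ^ k * 1 := (mul_one _).symm
        _ ≤ a ^ k * b ^ k := by gcongr; exact one_le_pow₀ hb
    · calc M ≤ x ^ k := hxM
        _ ≤ b ^ k := pow_le_pow_left₀ hx h k
        _ = 1 * b ^ k := (one_mul _).symm
        _ ≤ a ^ k * b ^ k := by gcongr; exact one_le_pow₀ ha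
  rw [← mul_inv, ← mul_inv, ← mul_inv]
  apply inv_anti₀ (by positivity)
  calc M * (a ^ 8 * b ^ 8) ≤ (a ^ k * b ^ k) * (a ^ 8 * b ^ 8) := by gcongr
    _ = a ^ (8 + k) * b ^ (8 + k) := by rw [pow_add, pow_add]; ring

theorem wp_near_B {ε : ℝ} (hε : 0 < ε) (B : ℝ) (p₀ : ℕ) : ∃ p : ℕ, p₀ ≤ p ∧ ∃ C : ℝ, 0 < C ∧ ∀ β H σ t₀ R : ℝ, |β| ≤ 1 / 2 → 1 ≤ H →
    0 < σ → σ ≤ 1 → |t₀| ≤ 6 → 1 ≤ R → R ≤ 4 * H ^ 3 → 1 ≤ 2 * R * H * σ ^ 2 → ∀ c : ℝ × ℝ,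
      ‖Ft β H σ t₀ p R c‖ ≤ C * √(H ^ 3 / R) * ((near β R t₀ (σ * H ^ ε) (H ^ (ε - 1)) c).ncard : ℝ) + C * H ^ (-B) := by
  obtain ⟨k₀, hk₀⟩ := exists_nat_ge ((12 + |B|) / ε)
  obtain ⟨k, hkp, hkk⟩ : ∃ k : ℕ, p₀ ≤ k ∧ k₀ ≤ k := ⟨max p₀ k₀, le_max_left _ _, le_max_right _ _⟩
  have hk : (12 + |B|) / ε ≤ (k : ℝ) := hk₀.trans (by exact_mod_cast hkk)
  obtain ⟨C₁, hC₁, hwp⟩ := wp (n := 8 + k) (by omega)
  obtain ⟨D, hD, hdual⟩ := dual_sum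
  refine ⟨3 * (8 + k) + 3, by omega, C₁ + 64 * C₁ * D, by positivity, ?_⟩
  intro β H σ t₀ R hβ hH hσ hσ1 ht hR hRH hY c
  have hH0 : 0 < H := by linarith
  have hR0 : 0 < R := by linarith
  have h1 := hwp β H σ t₀ R hβ hH hσ hσ1 ht hR hY c
  obtain ⟨s1, -⟩ := hdual (8 + k) β H σ t₀ R (by omega) hβ hH hσ hσ1 ht hR c
  obtain ⟨s2, t2⟩ := hdual 8 β H σ t₀ R le_rfl hβ hH hσ hσ1 ht hR c
  have hfin : (near β R t₀ (σ * H ^ ε) (H ^ (ε - 1)) c).Finite := near_fin hR0 _ _ _ _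
  set S := near β R t₀ (σ * H ^ ε) (H ^ (ε - 1)) c with hS
  have hpow : H ^ (12 : ℕ) * H ^ |B| ≤ (H ^ ε) ^ k := by
    rw [← Real.rpow_natCast (H ^ ε), ← Real.rpow_mul hH0.le, ← Real.rpow_natCast,
      ← Real.rpow_add hH0]
    apply Real.rpow_le_rpow_of_exponent_le hH
    rw [div_le_iff₀ hε] at hk
    push_cast
    linarith
  have hterm : ∀ m : ℤ × ℤ, ((1 + |Del β R t₀ c m| / σ) ^ (8 + k))⁻¹ * ((1 + H * |Psi β R c m|) ^ (8 + k))⁻¹ ≤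
      S.indicator (fun _ => (1 : ℝ)) m + (H ^ (12 : ℕ) * H ^ |B|)⁻¹ *
        (((1 + |Del β R t₀ c m| / σ) ^ 8)⁻¹ * ((1 + H * |Psi β R c m|) ^ 8)⁻¹) := by
    intro m
    have ha : 1 ≤ 1 + |Del β R t₀ c m| / σ := by
      have : 0 ≤ |Del β R t₀ c m| / σ := by positivity
      linarith
    have hb : 1 ≤ 1 + H * |Psi β R c m| := by
      have : 0 ≤ H * |Psi β R c m| := by positivity
      linarith
    by_cases hm : m ∈ S
    · rw [Set.indicator_of_mem hm]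
      have e1 : ((1 + |Del β R t₀ c m| / σ) ^ (8 + k))⁻¹ ≤ 1 := inv_le_one_of_one_le₀ (one_le_pow₀ ha)
      have e2 : ((1 + H * |Psi β R c m|) ^ (8 + k))⁻¹ ≤ 1 := inv_le_one_of_one_le₀ (one_le_pow₀ hb)
      have e3 : 0 ≤ ((1 + H * |Psi β R c m|) ^ (8 + k))⁻¹ := by positivity
      have e4 : (0 : ℝ) ≤ (H ^ (12 : ℕ) * H ^ |B|)⁻¹ *
        (((1 + |Del β R t₀ c m| / σ) ^ 8)⁻¹ * ((1 + H * |Psi β R c m|) ^ 8)⁻¹) := by positivity
      have e5 := mul_le_mul e1 e2 e3 zero_le_one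
      linarith
    · rw [Set.indicator_of_notMem hm, zero_add]
      refine far42 (x := H ^ ε) ha hb (by positivity) (by positivity) ?_ hpow
      rw [hS] at hm
      unfold near at hm
      rw [Set.mem_ofPred_eq, not_and_or, not_le, not_le] at hm
      rcases hm with hm | hm
      · left
        have : H ^ ε ≤ |Del β R t₀ c m| / σ := by
          rw [le_div_iff₀ hσ]
          linarith
        linarith
      · right
        have e1 : H * H ^ (ε - 1) = H ^ ε := by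
          rw [mul_comm, ← Real.rpow_add_one hH0.ne']
          congr 1
          ring
        have e2 := mul_le_mul_of_nonneg_left hm.le hH0.le
        rw [e1] at e2
        linarith
  have hind : Summable (S.indicator (fun _ => (1 : ℝ))) :=
    summable_of_hasFiniteSupport (hfin.subset Set.support_indicator_subset)
  have hindsum : ∑' m, S.indicator (fun _ => (1 : ℝ)) m = (S.ncard : ℝ) := by
    rw [tsum_eq_sum (s := hfin.toFinset) (fun m hm => by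
      rw [Set.indicator_of_notMem]
      intro h
      exact hm (hfin.mem_toFinset.2 h))]
    rw [Finset.sum_congr rfl (fun m hm => Set.indicator_of_mem (hfin.mem_toFinset.1 hm) _),
      Finset.sum_const, nsmul_eq_mul, mul_one, Set.ncard_eq_toFinset_card S hfin]
  have h2 : ∑' m : ℤ × ℤ, ((1 + |Del β R t₀ c m| / σ) ^ (8 + k))⁻¹ * ((1 + H * |Psi β R c m|) ^ (8 + k))⁻¹ ≤
      (S.ncard : ℝ) + (H ^ (12 : ℕ) * H ^ |B|)⁻¹ * (D * R ^ 3) := by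
    calc ∑' m : ℤ × ℤ, ((1 + |Del β R t₀ c m| / σ) ^ (8 + k))⁻¹ * ((1 + H * |Psi β R c m|) ^ (8 + k))⁻¹
        ≤ ∑' m : ℤ × ℤ, (S.indicator (fun _ => (1 : ℝ)) m + (H ^ (12 : ℕ) * H ^ |B|)⁻¹ *
        (((1 + |Del β R t₀ c m| / σ) ^ 8)⁻¹ * ((1 + H * |Psi β R c m|) ^ 8)⁻¹)) :=
          s1.tsum_le_tsum hterm (hind.add (s2.mul_left _))
      _ = (S.ncard : ℝ) + (H ^ (12 : ℕ) * H ^ |B|)⁻¹ *
        ∑' m : ℤ × ℤ, (((1 + |Del β R t₀ c m| / σ) ^ 8)⁻¹ * ((1 + H * |Psi β R c m|) ^ 8)⁻¹) := by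
          rw [hind.tsum_add (s2.mul_left _), hindsum, tsum_mul_left]
      _ ≤ (S.ncard : ℝ) + (H ^ (12 : ℕ) * H ^ |B|)⁻¹ * (D * R ^ 3) := by
          gcongr
  have hHB : 0 < H ^ |B| := Real.rpow_pos_of_pos hH0 _
  have hHB' : (H ^ |B|)⁻¹ ≤ H ^ (-B) := by
    rw [← Real.rpow_neg hH0.le]
    apply Real.rpow_le_rpow_of_exponent_le hH
    linarith [le_abs_self B]
  have hHn : 0 < H ^ (-B) := Real.rpow_pos_of_pos hH0 _
  have hsq : √(H ^ 3 / R) * (H ^ (12 : ℕ) * H ^ |B|)⁻¹ * (D * R ^ 3) ≤ 64 * D * H ^ (-B) := by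
    have e1 : √(H ^ 3 / R) ≤ H ^ 3 := by
      rw [Real.sqrt_le_left (by positivity)]
      rw [div_le_iff₀ hR0]
      have : 1 ≤ H ^ 3 := one_le_pow₀ hH
      nlinarith [mul_le_mul this hR zero_le_one (by positivity)]
    have e2 : R ^ 3 ≤ 64 * H ^ 9 := by
      calc R ^ 3 ≤ (4 * H ^ 3) ^ 3 := pow_le_pow_left₀ hR0.le hRH 3
        _ = 64 * H ^ 9 := by ring
    calc √(H ^ 3 / R) * (H ^ (12 : ℕ) * H ^ |B|)⁻¹ * (D * R ^ 3)
        ≤ H ^ 3 * (H ^ (12 : ℕ) * H ^ |B|)⁻¹ * (D * (64 * H ^ 9)) := by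
          gcongr
      _ = 64 * D * (H ^ |B|)⁻¹ := by
          field_simp
      _ ≤ 64 * D * H ^ (-B) := by gcongr
  have hn0 : (0 : ℝ) ≤ (S.ncard : ℝ) := Nat.cast_nonneg _
  calc ‖Ft β H σ t₀ (3 * (8 + k) + 3) R c‖ ≤ C₁ * √(H ^ 3 / R) *
        ∑' m : ℤ × ℤ, ((1 + |Del β R t₀ c m| / σ) ^ (8 + k))⁻¹ * ((1 + H * |Psi β R c m|) ^ (8 + k))⁻¹ := h1
    _ ≤ C₁ * √(H ^ 3 / R) * ((S.ncard : ℝ) + (H ^ (12 : ℕ) * H ^ |B|)⁻¹ * (D * R ^ 3)) := by gcongr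
    _ = C₁ * √(H ^ 3 / R) * (S.ncard : ℝ) +
        C₁ * (√(H ^ 3 / R) * (H ^ (12 : ℕ) * H ^ |B|)⁻¹ * (D * R ^ 3)) := by ring
    _ ≤ C₁ * √(H ^ 3 / R) * (S.ncard : ℝ) + C₁ * (64 * D * H ^ (-B)) := by gcongr
    _ ≤ (C₁ + 64 * C₁ * D) * √(H ^ 3 / R) * (S.ncard : ℝ) + (C₁ + 64 * C₁ * D) * H ^ (-B) := by
        have e1 : 0 ≤ 64 * C₁ * D * √(H ^ 3 / R) * (S.ncard : ℝ) := by positivity
        have e2 : 0 ≤ C₁ * H ^ (-B) := by positivity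
        nlinarith

end Pool.Agent.Helper76.GS
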